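import Mathlib

set_option autoImplicit false

namespace Pool.Agent.Lib.MP_ee7495_gt.X

/-- Lists of triples of naturals. -/
inductive TL : Type
  | nil : TL
  | cons (p q r : ℕ) (t : TL) : TL

/-- Distance of two naturals. -/
def ad (K p : ℕ) : ℕ := Nat.add (Nat.sub p K) (Nat.sub K p)

/-- All three numbers lie on one side of `K`. -/
def sameSide (K p q r : ℕ) : Bool :=
  cond (Nat.ble K p) (cond (Nat.ble K q) (cond (Nat.ble K r) true
      (Nat.ble p K && Nat.ble q K)) (Nat.ble p K && Nat.ble r K))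
    (Nat.ble q K && Nat.ble r K)

/-- One pass: absorb the sign-definite triples into `w`, sum all absolute values into `s`. -/
noncomputable def filt (K : ℕ) (L : TL) :
    TL → ℕ → ℕ → ℕ → ℕ → ℕ → ℕ → (TL → ℕ → ℕ → ℕ → ℕ → ℕ → ℕ → Bool) → Bool :=
  TL.rec (fun acc wa wb wc ea eb ec k => k acc wa wb wc ea eb ec)
    (fun p q r _ ih acc wa wb wc ea eb ec k =>
      cond (sameSide K p q r)
        (ih acc (Nat.add wa (ad K p)) (Nat.add wb (ad K q)) (Nat.add wc (ad K r)) ea eb ec k)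
        (ih (TL.cons p q r acc) wa wb wc
          (Nat.add ea (ad K p)) (Nat.add eb (ad K q)) (Nat.add ec (ad K r)) k)) L

/-- Values on the first child cone. -/
noncomputable def mp1 (L : TL) : TL :=
  TL.rec TL.nil (fun p q r _ ih => TL.cons (Nat.mul 2 p) (Nat.mul 2 r) (Nat.add p q) ih) L

/-- Values on the second child cone. -/
noncomputable def mp2 (L : TL) : TL :=
  TL.rec TL.nil (fun p q r _ ih => TL.cons (Nat.mul 2 r) (Nat.mul 2 q) (Nat.add p q) ih) L

/-- First leaf test: entrywise comparison with the Gram matrix. -/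
def test2 (R2 aa bb cc ab ac bc fa fb fc : ℕ) : Bool :=
  Nat.ble (Nat.mul fa fb) (Nat.mul R2 ab) && (Nat.ble (Nat.mul fa fa) (Nat.mul R2 aa) &&
    (Nat.ble (Nat.mul fb fb) (Nat.mul R2 bb) && (Nat.ble (Nat.mul fc fc) (Nat.mul R2 cc) &&
      (Nat.ble (Nat.mul fa fc) (Nat.mul R2 ac) && Nat.ble (Nat.mul fb fc) (Nat.mul R2 bc)))))

/-- Second leaf test: comparison with the tangent plane in direction `a + b`. -/
def test1 (R2 nn na nb nc fa fb fc : ℕ) : Bool :=
  Nat.ble (Nat.mul (Nat.mul fa fa) nn) (Nat.mul R2 (Nat.mul na na)) &&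
    (Nat.ble (Nat.mul (Nat.mul fb fb) nn) (Nat.mul R2 (Nat.mul nb nb)) &&
      Nat.ble (Nat.mul (Nat.mul fc fc) nn) (Nat.mul R2 (Nat.mul nc nc)))

/-- Either leaf test. -/
def leafOK (R2 aa bb cc ab ac bc fa fb fc : ℕ) : Bool :=
  test2 R2 aa bb cc ab ac bc fa fb fc ||
    test1 R2 (Nat.add (Nat.add aa ab) (Nat.add ab bb)) (Nat.add aa ab) (Nat.add ab bb)
      (Nat.add ac bc) fa fb fc

/-- The recursive cone checker. -/
noncomputable def node (R2 fuel : ℕ) :
    ℕ → ℕ → ℕ → ℕ → ℕ → ℕ → ℕ → ℕ → ℕ → ℕ → TL → Bool :=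
  Nat.rec (fun _ _ _ _ _ _ _ _ _ _ _ => false)
    (fun _ ih K aa bb cc ab ac bc wa wb wc L =>
      filt K L TL.nil wa wb wc 0 0 0 (fun M va vb vc ea eb ec =>
        cond (leafOK R2 aa bb cc ab ac bc (Nat.sub (Nat.add va ea) K) (Nat.sub (Nat.add vb eb) K)
            (Nat.sub (Nat.add vc ec) K)) true
          (ih (Nat.mul 2 K) (Nat.mul 4 aa) (Nat.mul 4 cc)
              (Nat.add (Nat.add aa ab) (Nat.add ab bb)) (Nat.mul 4 ac)
              (Nat.mul 2 (Nat.add aa ab)) (Nat.mul 2 (Nat.add ac bc))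
              (Nat.mul 2 va) (Nat.mul 2 vc) (Nat.add va vb) (mp1 M) &&
            ih (Nat.mul 2 K) (Nat.mul 4 cc) (Nat.mul 4 bb)
              (Nat.add (Nat.add aa ab) (Nat.add ab bb)) (Nat.mul 4 bc)
              (Nat.mul 2 (Nat.add ac bc)) (Nat.mul 2 (Nat.add ab bb))
              (Nat.mul 2 vc) (Nat.mul 2 vb) (Nat.add va vb) (mp2 M)))) fuel

/-- Sum of absolute values of the listed linear forms. -/
noncomputable def sumAbs (K : ℕ) (α β γ : ℝ) : TL → ℝ
  | TL.nil => 0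
  | TL.cons p q r t =>
    |((p : ℝ) - K) * α + ((q : ℝ) - K) * β + ((r : ℝ) - K) * γ| + sumAbs K α β γ t

theorem ad_cast (K p : ℕ) : ((ad K p : ℕ) : ℝ) = |(p : ℝ) - K| := by
  unfold ad
  simp only [Nat.add_eq, Nat.sub_eq]
  rcases le_total K p with h | h
  · rw [Nat.sub_eq_zero_of_le h, add_zero, Nat.cast_sub h, abs_of_nonneg]
    exact sub_nonneg.2 (by exact_mod_cast h)
  · rw [Nat.sub_eq_zero_of_le h, zero_add, Nat.cast_sub h, abs_of_nonpos, neg_sub]
    exact sub_nonpos.2 (by exact_mod_cast h)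

theorem tri (x y z : ℝ) {α β γ : ℝ} (hα : 0 ≤ α) (hβ : 0 ≤ β) (hγ : 0 ≤ γ) :
    |x * α + y * β + z * γ| ≤ |x| * α + |y| * β + |z| * γ := by
  have h1 := abs_add_three (x * α) (y * β) (z * γ)
  rwa [abs_mul, abs_mul, abs_mul, abs_of_nonneg hα, abs_of_nonneg hβ, abs_of_nonneg hγ] at h1

theorem filt_sound (K : ℕ) (L : TL) : ∀ (acc : TL) (wa wb wc ea eb ec : ℕ)
    (k : TL → ℕ → ℕ → ℕ → ℕ → ℕ → ℕ → Bool), filt K L acc wa wb wc ea eb ec k = true →
    ∃ M va vb vc fa fb fc, k M va vb vc fa fb fc = true ∧ ∀ α β γ : ℝ, 0 ≤ α → 0 ≤ β → 0 ≤ γ →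
      (wa * α + wb * β + wc * γ + sumAbs K α β γ acc + sumAbs K α β γ L ≤
        va * α + vb * β + vc * γ + sumAbs K α β γ M) ∧
      (sumAbs K α β γ M - sumAbs K α β γ acc ≤
        (fa * α + fb * β + fc * γ) - (ea * α + eb * β + ec * γ)) := by
  induction L with
  | nil =>
    intro acc wa wb wc ea eb ec k h
    exact ⟨acc, wa, wb, wc, ea, eb, ec, h, fun α β γ _ _ _ => ⟨by simp [sumAbs], by simp⟩⟩
  | cons p q r t ih =>
    intro acc wa wb wc ea eb ec k h
    have e : filt K (TL.cons p q r t) acc wa wb wc ea eb ec k =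
      cond (sameSide K p q r)
        (filt K t acc (Nat.add wa (ad K p)) (Nat.add wb (ad K q)) (Nat.add wc (ad K r)) ea eb ec k)
        (filt K t (TL.cons p q r acc) wa wb wc
          (Nat.add ea (ad K p)) (Nat.add eb (ad K q)) (Nat.add ec (ad K r)) k) := rfl
    rw [e] at h
    cases hs : sameSide K p q r
    · rw [hs, cond_false] at h
      obtain ⟨M, va, vb, vc, fa, fb, fc, hk, H⟩ := ih _ _ _ _ _ _ _ _ h
      refine ⟨M, va, vb, vc, fa, fb, fc, hk, fun α β γ hα hβ hγ => ?_⟩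
      obtain ⟨H1, H2⟩ := H α β γ hα hβ hγ
      simp only [sumAbs, Nat.add_eq, Nat.cast_add, ad_cast] at H1 H2 ⊢
      have := tri ((p : ℝ) - K) ((q : ℝ) - K) ((r : ℝ) - K) hα hβ hγ
      constructor <;> linarith
    · rw [hs, cond_true] at h
      obtain ⟨M, va, vb, vc, fa, fb, fc, hk, H⟩ := ih _ _ _ _ _ _ _ _ h
      refine ⟨M, va, vb, vc, fa, fb, fc, hk, fun α β γ hα hβ hγ => ?_⟩
      obtain ⟨H1, H2⟩ := H α β γ hα hβ hγ
      simp only [sumAbs, Nat.add_eq, Nat.cast_add, ad_cast] at H1 H2 ⊢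
      have := tri ((p : ℝ) - K) ((q : ℝ) - K) ((r : ℝ) - K) hα hβ hγ
      constructor <;> linarith

theorem sumAbs_mp1 (K : ℕ) (L : TL) (α β γ : ℝ) :
    sumAbs (Nat.mul 2 K) α β γ (mp1 L) = sumAbs K (2 * α + γ) γ (2 * β) L := by
  induction L with
  | nil => rfl
  | cons p q r t ih =>
    have e : mp1 (TL.cons p q r t) =
      TL.cons (Nat.mul 2 p) (Nat.mul 2 r) (Nat.add p q) (mp1 t) := rfl
    rw [e]
    simp only [sumAbs, ih]
    simp only [Nat.mul_eq, Nat.add_eq]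
    push_cast
    congr 2
    ring

theorem sumAbs_mp2 (K : ℕ) (L : TL) (α β γ : ℝ) :
    sumAbs (Nat.mul 2 K) α β γ (mp2 L) = sumAbs K γ (2 * β + γ) (2 * α) L := by
  induction L with
  | nil => rfl
  | cons p q r t ih =>
    have e : mp2 (TL.cons p q r t) =
      TL.cons (Nat.mul 2 r) (Nat.mul 2 q) (Nat.add p q) (mp2 t) := rfl
    rw [e]
    simp only [sumAbs, ih]
    simp only [Nat.mul_eq, Nat.add_eq]
    push_cast
    congr 2
    ring

/-- The quadratic form of a Gram matrix. -/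
def qf (aa bb cc ab ac bc α β γ : ℝ) : ℝ :=
  aa * α ^ 2 + bb * β ^ 2 + cc * γ ^ 2 + 2 * ab * α * β + 2 * ac * α * γ + 2 * bc * β * γ

theorem test2_sound {R2 aa bb cc ab ac bc fa fb fc : ℕ}
    (h : test2 R2 aa bb cc ab ac bc fa fb fc = true) {α β γ : ℝ} (hα : 0 ≤ α) (hβ : 0 ≤ β)
    (hγ : 0 ≤ γ) : (fa * α + fb * β + fc * γ) ^ 2 ≤ R2 * qf aa bb cc ab ac bc α β γ := by
  simp only [test2, Bool.and_eq_true, Nat.ble_eq, Nat.mul_eq] at h
  obtain ⟨h1, h2, h3, h4, h5, h6⟩ := h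
  have g1 : (fa : ℝ) * fb ≤ R2 * ab := by exact_mod_cast h1
  have g2 : (fa : ℝ) * fa ≤ R2 * aa := by exact_mod_cast h2
  have g3 : (fb : ℝ) * fb ≤ R2 * bb := by exact_mod_cast h3
  have g4 : (fc : ℝ) * fc ≤ R2 * cc := by exact_mod_cast h4
  have g5 : (fa : ℝ) * fc ≤ R2 * ac := by exact_mod_cast h5
  have g6 : (fb : ℝ) * fc ≤ R2 * bc := by exact_mod_cast h6
  have k1 := mul_le_mul_of_nonneg_right g1 (mul_nonneg hα hβ)
  have k2 := mul_le_mul_of_nonneg_right g2 (mul_nonneg hα hα)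
  have k3 := mul_le_mul_of_nonneg_right g3 (mul_nonneg hβ hβ)
  have k4 := mul_le_mul_of_nonneg_right g4 (mul_nonneg hγ hγ)
  have k5 := mul_le_mul_of_nonneg_right g5 (mul_nonneg hα hγ)
  have k6 := mul_le_mul_of_nonneg_right g6 (mul_nonneg hβ hγ)
  unfold qf
  nlinarith

theorem one_test {R2 nn n f : ℕ} (h : f * f * nn ≤ R2 * (n * n)) :
    (f : ℝ) * Real.sqrt nn ≤ Real.sqrt R2 * n := by
  have h' : (f : ℝ) * f * nn ≤ R2 * (n * n) := by exact_mod_cast h
  refine le_of_sq_le_sq ?_ (by positivity)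
  rw [mul_pow, mul_pow, Real.sq_sqrt (Nat.cast_nonneg _), Real.sq_sqrt (Nat.cast_nonneg _)]
  nlinarith

theorem test1_sound {R2 aa bb cc ab ac bc fa fb fc : ℕ}
    (hp : ∀ α β γ : ℝ, 0 ≤ qf aa bb cc ab ac bc α β γ) (hn : 0 < aa)
    (h : test1 R2 (Nat.add (Nat.add aa ab) (Nat.add ab bb)) (Nat.add aa ab) (Nat.add ab bb)
      (Nat.add ac bc) fa fb fc = true) {α β γ : ℝ} (hα : 0 ≤ α) (hβ : 0 ≤ β)
    (hγ : 0 ≤ γ) : (fa * α + fb * β + fc * γ) ^ 2 ≤ R2 * qf aa bb cc ab ac bc α β γ := by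
  simp only [test1, Bool.and_eq_true, Nat.ble_eq, Nat.mul_eq, Nat.add_eq] at h
  obtain ⟨h1, h2, h3⟩ := h
  have g1 := one_test h1
  have g2 := one_test h2
  have g3 := one_test h3
  push_cast at g1 g2 g3
  set nn : ℝ := (aa : ℝ) + ab + (ab + bb) with hnn
  have hnpos : 0 < nn := by
    have : (0 : ℝ) < aa := by exact_mod_cast hn
    positivity
  set s : ℝ := ((aa : ℝ) + ab) * α + (ab + bb) * β + (ac + bc) * γ with hs
  have hcs : s ^ 2 ≤ nn * qf aa bb cc ab ac bc α β γ := by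
    have := hp (nn * α - s) (nn * β - s) (nn * γ)
    have e : qf aa bb cc ab ac bc (nn * α - s) (nn * β - s) (nn * γ) =
        nn * (nn * qf aa bb cc ab ac bc α β γ - s ^ 2) := by
      simp only [qf, hnn, hs]; ring
    rw [e] at this
    have := nonneg_of_mul_nonneg_right this hnpos |>.trans_eq rfl
    linarith
  have k : (fa * α + fb * β + fc * γ) * Real.sqrt nn ≤ Real.sqrt R2 * s := by
    have k1 := mul_le_mul_of_nonneg_right g1 hα
    have k2 := mul_le_mul_of_nonneg_right g2 hβ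
    have k3 := mul_le_mul_of_nonneg_right g3 hγ
    simp only [hs]
    nlinarith
  have k0 : 0 ≤ (fa * α + fb * β + fc * γ) * Real.sqrt nn := by positivity
  have k' := pow_le_pow_left₀ k0 k 2
  rw [mul_pow, mul_pow, Real.sq_sqrt hnpos.le, Real.sq_sqrt (Nat.cast_nonneg _)] at k'
  have k'' : (fa * α + fb * β + fc * γ) ^ 2 * nn ≤ (R2 * qf aa bb cc ab ac bc α β γ) * nn := by
    have := mul_le_mul_of_nonneg_left hcs (Nat.cast_nonneg (α := ℝ) R2)
    nlinarith
  exact le_of_mul_le_mul_right k'' hnpos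

theorem cast_sub_ge (s K : ℕ) : (s : ℝ) - K ≤ ((Nat.sub s K : ℕ) : ℝ) := by
  simp only [Nat.sub_eq]
  rcases le_total K s with h | h
  · rw [Nat.cast_sub h]
  · rw [Nat.sub_eq_zero_of_le h, Nat.cast_zero]
    exact sub_nonpos.2 (by exact_mod_cast h)

theorem node_sound (R2 fuel : ℕ) : ∀ (K aa bb cc ab ac bc wa wb wc : ℕ) (L : TL),
    node R2 fuel K aa bb cc ab ac bc wa wb wc L = true → 0 < aa → 0 < cc →
    (∀ α β γ : ℝ, 0 ≤ qf aa bb cc ab ac bc α β γ) → ∀ α β γ : ℝ, 0 ≤ α → 0 ≤ β → 0 ≤ γ →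
    ((wa : ℝ) - K) * α + ((wb : ℝ) - K) * β + ((wc : ℝ) - K) * γ + sumAbs K α β γ L ≤
      Real.sqrt (R2 * qf aa bb cc ab ac bc α β γ) := by
  induction fuel with
  | zero => intro K aa bb cc ab ac bc wa wb wc L h; exact absurd h Bool.false_ne_true
  | succ n ih =>
    intro K aa bb cc ab ac bc wa wb wc L h haa hcc hp α β γ hα hβ hγ
    have e : node R2 (n + 1) K aa bb cc ab ac bc wa wb wc L =
      filt K L TL.nil wa wb wc 0 0 0 (fun M va vb vc ea eb ec =>
        cond (leafOK R2 aa bb cc ab ac bc (Nat.sub (Nat.add va ea) K) (Nat.sub (Nat.add vb eb) K)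
            (Nat.sub (Nat.add vc ec) K)) true
          (node R2 n (Nat.mul 2 K) (Nat.mul 4 aa) (Nat.mul 4 cc)
              (Nat.add (Nat.add aa ab) (Nat.add ab bb)) (Nat.mul 4 ac)
              (Nat.mul 2 (Nat.add aa ab)) (Nat.mul 2 (Nat.add ac bc))
              (Nat.mul 2 va) (Nat.mul 2 vc) (Nat.add va vb) (mp1 M) &&
            node R2 n (Nat.mul 2 K) (Nat.mul 4 cc) (Nat.mul 4 bb)
              (Nat.add (Nat.add aa ab) (Nat.add ab bb)) (Nat.mul 4 bc)
              (Nat.mul 2 (Nat.add ac bc)) (Nat.mul 2 (Nat.add ab bb))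
              (Nat.mul 2 vc) (Nat.mul 2 vb) (Nat.add va vb) (mp2 M))) := rfl
    rw [e] at h
    obtain ⟨M, va, vb, vc, ea, eb, ec, hk, H⟩ := filt_sound _ _ _ _ _ _ _ _ _ _ h
    obtain ⟨H1, H2⟩ := H α β γ hα hβ hγ
    simp only [sumAbs, Nat.cast_zero, zero_mul, add_zero, sub_zero] at H1 H2
    cases hl : leafOK R2 aa bb cc ab ac bc (Nat.sub (Nat.add va ea) K) (Nat.sub (Nat.add vb eb) K)
            (Nat.sub (Nat.add vc ec) K)
    · simp only [hl, cond_false, Bool.and_eq_true] at hk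
      obtain ⟨k1, k2⟩ := hk
      have hn : 0 < Nat.add (Nat.add aa ab) (Nat.add ab bb) := by
        simp only [Nat.add_eq]; omega
      rcases le_total β α with hc | hc
      · have q1 : ∀ x y z : ℝ, qf (Nat.mul 4 aa : ℕ) (Nat.mul 4 cc : ℕ)
            (Nat.add (Nat.add aa ab) (Nat.add ab bb) : ℕ) (Nat.mul 4 ac : ℕ)
            (Nat.mul 2 (Nat.add aa ab) : ℕ) (Nat.mul 2 (Nat.add ac bc) : ℕ) x y z =
            qf aa bb cc ab ac bc (2 * x + z) z (2 * y) := by
          intro x y z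
          simp only [qf, Nat.mul_eq, Nat.add_eq]; push_cast; ring
        have := ih _ _ _ _ _ _ _ _ _ _ _ k1 (by simp only [Nat.mul_eq]; omega) hn
          (fun x y z => by rw [q1]; exact hp _ _ _) ((α - β) / 2) (γ / 2) β (by linarith)
          (by linarith) hβ
        rw [q1, sumAbs_mp1] at this
        have e1 : 2 * ((α - β) / 2) + β = α := by ring
        have e2 : 2 * (γ / 2) = γ := by ring
        rw [e1, e2] at this
        simp only [Nat.mul_eq, Nat.add_eq] at this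
        push_cast at this
        linarith
      · have q2 : ∀ x y z : ℝ, qf (Nat.mul 4 cc : ℕ) (Nat.mul 4 bb : ℕ)
            (Nat.add (Nat.add aa ab) (Nat.add ab bb) : ℕ) (Nat.mul 4 bc : ℕ)
            (Nat.mul 2 (Nat.add ac bc) : ℕ) (Nat.mul 2 (Nat.add ab bb) : ℕ) x y z =
            qf aa bb cc ab ac bc z (2 * y + z) (2 * x) := by
          intro x y z
          simp only [qf, Nat.mul_eq, Nat.add_eq]; push_cast; ring
        have := ih _ _ _ _ _ _ _ _ _ _ _ k2 (by simp only [Nat.mul_eq]; omega) hn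
          (fun x y z => by rw [q2]; exact hp _ _ _) (γ / 2) ((β - α) / 2) α (by linarith)
          (by linarith) hα
        rw [q2, sumAbs_mp2] at this
        have e1 : 2 * ((β - α) / 2) + α = β := by ring
        have e2 : 2 * (γ / 2) = γ := by ring
        rw [e1, e2] at this
        simp only [Nat.mul_eq, Nat.add_eq] at this
        push_cast at this
        linarith
    · have b1 := mul_le_mul_of_nonneg_right (cast_sub_ge (Nat.add va ea) K) hα
      have b2 := mul_le_mul_of_nonneg_right (cast_sub_ge (Nat.add vb eb) K) hβ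
      have b3 := mul_le_mul_of_nonneg_right (cast_sub_ge (Nat.add vc ec) K) hγ
      set fa := Nat.sub (Nat.add va ea) K
      set fb := Nat.sub (Nat.add vb eb) K
      set fc := Nat.sub (Nat.add vc ec) K
      have hsq : (fa * α + fb * β + fc * γ) ^ 2 ≤ R2 * qf aa bb cc ab ac bc α β γ := by
        simp only [leafOK, Bool.or_eq_true] at hl
        rcases hl with hl | hl
        · exact test2_sound hl hα hβ hγ
        · exact test1_sound hp haa hl hα hβ hγ
      have := Real.le_sqrt_of_sq_le hsq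
      simp only [Nat.add_eq, Nat.cast_add] at b1 b2 b3
      linarith

/-- Soundness on the positive octant. -/
theorem oct_sound {R fuel K wa wb wc : ℕ} {L : TL}
    (h : node (R * R) fuel K 1 1 1 0 0 0 wa wb wc L = true) {α β γ : ℝ} (hα : 0 ≤ α)
    (hβ : 0 ≤ β) (hγ : 0 ≤ γ) :
    ((wa : ℝ) - K) * α + ((wb : ℝ) - K) * β + ((wc : ℝ) - K) * γ + sumAbs K α β γ L ≤
      R * Real.sqrt (α ^ 2 + β ^ 2 + γ ^ 2) := by
  have := node_sound _ _ _ _ _ _ _ _ _ _ _ _ _ h one_pos one_pos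
    (fun x y z => by simp only [qf]; push_cast; nlinarith [sq_nonneg x, sq_nonneg y, sq_nonneg z])
    α β γ hα hβ hγ
  have e : qf (1 : ℕ) (1 : ℕ) (1 : ℕ) (0 : ℕ) (0 : ℕ) (0 : ℕ) α β γ = α ^ 2 + β ^ 2 + γ ^ 2 := by
    simp [qf]
  rw [e, Nat.cast_mul, Real.sqrt_mul (by positivity), Real.sqrt_mul_self (Nat.cast_nonneg _)]
    at this
  exact this

end Pool.Agent.Lib.MP_ee7495_gt.X
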