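import Mathlib
import Pool.Agent.Lib.MP_ee7495_gt.X.Zono

set_option autoImplicit false

namespace Pool.Agent.Lib.MP_ee7495_gt.X

/-- Lists of atoms: shifted values at the three corners of a cone and shifted coordinates. -/
inductive AL : Type
  | nil : AL
  | cons (p q r x y z : ℕ) (t : AL) : AL

/-- Maximum of two naturals. -/
def mx (a b : ℕ) : ℕ := Nat.add a (Nat.sub b a)

/-- One pass over the atoms: absorb the nonnegative ones, drop the nonpositive ones. -/
noncomputable def afilt (K K0 : ℕ) (L : AL) :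
    AL → ℕ → ℕ → ℕ → ℕ → ℕ → ℕ → ℕ → ℕ → ℕ → ℕ → ℕ →
      (AL → ℕ → ℕ → ℕ → ℕ → ℕ → ℕ → ℕ → ℕ → ℕ → ℕ → ℕ → Bool) → Bool :=
  AL.rec (fun acc n wa wb wc O wx wy wz ea eb ec k => k acc n wa wb wc O wx wy wz ea eb ec)
    (fun p q r x y z _ ih acc n wa wb wc O wx wy wz ea eb ec k =>
      cond (Nat.ble p K && (Nat.ble q K && Nat.ble r K))
        (ih acc n wa wb wc O wx wy wz ea eb ec k)
        (cond (Nat.ble K p && (Nat.ble K q && Nat.ble K r))
          (ih acc n (Nat.add wa (Nat.sub p K)) (Nat.add wb (Nat.sub q K))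
            (Nat.add wc (Nat.sub r K)) (Nat.add O K0) (Nat.add wx x) (Nat.add wy y)
            (Nat.add wz z) ea eb ec k)
          (ih (AL.cons p q r x y z acc) (Nat.succ n) wa wb wc O wx wy wz
            (Nat.add ea (Nat.sub p K)) (Nat.add eb (Nat.sub q K)) (Nat.add ec (Nat.sub r K))
            k))) L

/-- One pass over the candidates of a maximum: drop the nonpositive ones. -/
noncomputable def gfilt (K : ℕ) (L : AL) :
    AL → ℕ → ℕ → ℕ → ℕ → (AL → ℕ → ℕ → ℕ → ℕ → Bool) → Bool :=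
  AL.rec (fun acc n ma mb mc k => k acc n ma mb mc)
    (fun p q r x y z _ ih acc n ma mb mc k =>
      cond (Nat.ble p K && (Nat.ble q K && Nat.ble r K))
        (ih acc n ma mb mc k)
        (ih (AL.cons p q r x y z acc) (Nat.succ n) (mx ma (Nat.sub p K)) (mx mb (Nat.sub q K))
          (mx mc (Nat.sub r K)) k)) L

/-- Values on the first child cone. -/
noncomputable def am1 (L : AL) : AL :=
  AL.rec AL.nil (fun p q r x y z _ ih =>
    AL.cons (Nat.mul 2 p) (Nat.mul 2 r) (Nat.add p q) x y z ih) L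

/-- Values on the second child cone. -/
noncomputable def am2 (L : AL) : AL :=
  AL.rec AL.nil (fun p q r x y z _ ih =>
    AL.cons (Nat.mul 2 r) (Nat.mul 2 q) (Nat.add p q) x y z ih) L

/-- Norm test for a shifted vector. -/
def normOK (R2 O x y z : ℕ) : Bool :=
  Nat.ble (Nat.add (Nat.add (Nat.mul (ad O x) (ad O x)) (Nat.mul (ad O y) (ad O y)))
    (Nat.mul (ad O z) (ad O z))) R2

/-- All subset sums. -/
noncomputable def exA (K0 : ℕ) (k : ℕ → ℕ → ℕ → ℕ → Bool) (L : AL) : ℕ → ℕ → ℕ → ℕ → Bool :=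
  AL.rec k (fun _ _ _ x y z _ ih O wx wy wz =>
    ih O wx wy wz && ih (Nat.add O K0) (Nat.add wx x) (Nat.add wy y) (Nat.add wz z)) L

/-- None or one of the candidates. -/
noncomputable def exG (K0 : ℕ) (k : ℕ → ℕ → ℕ → ℕ → Bool) (L : AL) (O wx wy wz : ℕ) : Bool :=
  AL.rec (k O wx wy wz) (fun _ _ _ x y z _ ih =>
    k (Nat.add O K0) (Nat.add wx x) (Nat.add wy y) (Nat.add wz z) && ih) L

/-- The recursive cone checker with two maxima. -/
noncomputable def bnode (R2 K0 lim fuel : ℕ) :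
    ℕ → ℕ → ℕ → ℕ → ℕ → ℕ → ℕ → ℕ → ℕ → ℕ → ℕ → ℕ → ℕ → ℕ → AL → AL → AL → Bool :=
  Nat.rec (fun _ _ _ _ _ _ _ _ _ _ _ _ _ _ _ _ _ => false)
    (fun _ ih K aa bb cc ab ac bc wa wb wc O wx wy wz L G H =>
      gfilt K G AL.nil 0 0 0 0 (fun G' n1 ga gb gc =>
      gfilt K H AL.nil n1 0 0 0 (fun H' n2 ha hb hc =>
      afilt K K0 L AL.nil n2 wa wb wc O wx wy wz (Nat.add ga ha) (Nat.add gb hb) (Nat.add gc hc)
        (fun M n va vb vc P vx vy vz ea eb ec =>
        cond (leafOK R2 aa bb cc ab ac bc (Nat.sub (Nat.add va ea) K) (Nat.sub (Nat.add vb eb) K)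
            (Nat.sub (Nat.add vc ec) K)) true
          (cond (Nat.ble n lim) (exA K0 (exG K0 (exG K0 (normOK R2) H') G') M P vx vy vz)
          (ih (Nat.mul 2 K) (Nat.mul 4 aa) (Nat.mul 4 cc)
              (Nat.add (Nat.add aa ab) (Nat.add ab bb)) (Nat.mul 4 ac)
              (Nat.mul 2 (Nat.add aa ab)) (Nat.mul 2 (Nat.add ac bc))
              (Nat.mul 2 va) (Nat.mul 2 vc) (Nat.add va vb) P vx vy vz
              (am1 M) (am1 G') (am1 H') &&
            ih (Nat.mul 2 K) (Nat.mul 4 cc) (Nat.mul 4 bb)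
              (Nat.add (Nat.add aa ab) (Nat.add ab bb)) (Nat.mul 4 bc)
              (Nat.mul 2 (Nat.add ac bc)) (Nat.mul 2 (Nat.add ab bb))
              (Nat.mul 2 vc) (Nat.mul 2 vb) (Nat.add va vb) P vx vy vz
              (am2 M) (am2 G') (am2 H'))))))) fuel

/-- A shifted vector evaluated at a point. -/
def ev (O x y z : ℕ) (ξ : ℝ × ℝ × ℝ) : ℝ :=
  ((x : ℝ) - O) * ξ.1 + ((y : ℝ) - O) * ξ.2.1 + ((z : ℝ) - O) * ξ.2.2

/-- Sum of the positive parts. -/
noncomputable def sumPos (K0 : ℕ) (ξ : ℝ × ℝ × ℝ) : AL → ℝ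
  | AL.nil => 0
  | AL.cons _ _ _ x y z t => max 0 (ev K0 x y z ξ) + sumPos K0 ξ t

/-- Maximum of the positive parts. -/
noncomputable def maxPos (K0 : ℕ) (ξ : ℝ × ℝ × ℝ) : AL → ℝ
  | AL.nil => 0
  | AL.cons _ _ _ x y z t => max (ev K0 x y z ξ) (maxPos K0 ξ t)

/-- The stored corner values are the values at the corners. -/
def AInv (K K0 : ℕ) (a b c : ℝ × ℝ × ℝ) : AL → Prop
  | AL.nil => True
  | AL.cons p q r x y z t => (p : ℝ) - K = ev K0 x y z a ∧ (q : ℝ) - K = ev K0 x y z b ∧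
      (r : ℝ) - K = ev K0 x y z c ∧ AInv K K0 a b c t

theorem ev_comb (O x y z : ℕ) (a b c : ℝ × ℝ × ℝ) (α β γ : ℝ) :
    ev O x y z (α • a + β • b + γ • c) = α * ev O x y z a + β * ev O x y z b + γ * ev O x y z c := by
  simp only [ev, Prod.fst_add, Prod.snd_add, Prod.smul_fst, Prod.smul_snd, smul_eq_mul]
  ring

theorem ev_add (O K0 wx wy wz x y z : ℕ) (ξ : ℝ × ℝ × ℝ) :
    ev (Nat.add O K0) (Nat.add wx x) (Nat.add wy y) (Nat.add wz z) ξ =
      ev O wx wy wz ξ + ev K0 x y z ξ := by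
  simp only [ev, Nat.add_eq, Nat.cast_add]
  ring

theorem ev_two (O x y z : ℕ) (a : ℝ × ℝ × ℝ) : ev O x y z ((2 : ℝ) • a) = 2 * ev O x y z a := by
  simp only [ev, Prod.smul_fst, Prod.smul_snd, smul_eq_mul]
  ring

theorem ev_plus (O x y z : ℕ) (a b : ℝ × ℝ × ℝ) :
    ev O x y z (a + b) = ev O x y z a + ev O x y z b := by
  simp only [ev, Prod.fst_add, Prod.snd_add]
  ring

theorem maxPos_nonneg (K0 : ℕ) (ξ : ℝ × ℝ × ℝ) (L : AL) : 0 ≤ maxPos K0 ξ L := by
  induction L with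
  | nil => exact le_rfl
  | cons p q r x y z t ih => exact le_max_of_le_right ih

theorem mx_cast (a b : ℕ) : (a : ℝ) ≤ (mx a b : ℕ) ∧ (b : ℝ) ≤ (mx a b : ℕ) := by
  have h1 : a ≤ mx a b := by unfold mx; simp only [Nat.add_eq, Nat.sub_eq]; omega
  have h2 : b ≤ mx a b := by unfold mx; simp only [Nat.add_eq, Nat.sub_eq]; omega
  exact ⟨by exact_mod_cast h1, by exact_mod_cast h2⟩

theorem ble3 {p q r p' q' r' : ℕ} (h : (Nat.ble p p' && (Nat.ble q q' && Nat.ble r r')) = true) :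
    (p : ℝ) ≤ p' ∧ (q : ℝ) ≤ q' ∧ (r : ℝ) ≤ r' := by
  simp only [Bool.and_eq_true, Nat.ble_eq] at h
  exact ⟨by exact_mod_cast h.1, by exact_mod_cast h.2.1, by exact_mod_cast h.2.2⟩

theorem gfilt_sound (K K0 : ℕ) (a b c : ℝ × ℝ × ℝ) (L : AL) : ∀ (acc : AL) (n ma mb mc : ℕ)
    (k : AL → ℕ → ℕ → ℕ → ℕ → Bool), gfilt K L acc n ma mb mc k = true →
    AInv K K0 a b c L → AInv K K0 a b c acc →
    (∀ α β γ : ℝ, 0 ≤ α → 0 ≤ β → 0 ≤ γ →
      maxPos K0 (α • a + β • b + γ • c) acc ≤ α * ma + β * mb + γ * mc) →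
    ∃ M n' fa fb fc, k M n' fa fb fc = true ∧ AInv K K0 a b c M ∧
      ∀ α β γ : ℝ, 0 ≤ α → 0 ≤ β → 0 ≤ γ →
      maxPos K0 (α • a + β • b + γ • c) L ≤ maxPos K0 (α • a + β • b + γ • c) M ∧
      maxPos K0 (α • a + β • b + γ • c) acc ≤ maxPos K0 (α • a + β • b + γ • c) M ∧
      maxPos K0 (α • a + β • b + γ • c) M ≤ α * fa + β * fb + γ * fc := by
  induction L with
  | nil =>
    intro acc n ma mb mc k h _ hacc hm
    exact ⟨acc, n, ma, mb, mc, h, hacc, fun α β γ hα hβ hγ =>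
      ⟨maxPos_nonneg _ _ _, le_rfl, hm α β γ hα hβ hγ⟩⟩
  | cons p q r x y z t ih =>
    intro acc n ma mb mc k h hL hacc hm
    obtain ⟨i1, i2, i3, i4⟩ := hL
    have e : gfilt K (AL.cons p q r x y z t) acc n ma mb mc k =
      cond (Nat.ble p K && (Nat.ble q K && Nat.ble r K))
        (gfilt K t acc n ma mb mc k)
        (gfilt K t (AL.cons p q r x y z acc) (Nat.succ n) (mx ma (Nat.sub p K))
          (mx mb (Nat.sub q K)) (mx mc (Nat.sub r K)) k) := rfl
    rw [e] at h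
    cases hs : (Nat.ble p K && (Nat.ble q K && Nat.ble r K))
    · rw [hs, cond_false] at h
      obtain ⟨M, n', fa, fb, fc, hk, hM, H⟩ := ih _ _ _ _ _ _ h i4 ⟨i1, i2, i3, hacc⟩ (by
        intro α β γ hα hβ hγ
        have m1 := mx_cast ma (Nat.sub p K)
        have m2 := mx_cast mb (Nat.sub q K)
        have m3 := mx_cast mc (Nat.sub r K)
        have c1 := cast_sub_ge p K
        have c2 := cast_sub_ge q K
        have c3 := cast_sub_ge r K
        refine max_le ?_ ((hm α β γ hα hβ hγ).trans ?_)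
        · rw [ev_comb, ← i1, ← i2, ← i3]
          gcongr <;> linarith [m1.2, m2.2, m3.2]
        · exact add_le_add (add_le_add (mul_le_mul_of_nonneg_left m1.1 hα)
            (mul_le_mul_of_nonneg_left m2.1 hβ)) (mul_le_mul_of_nonneg_left m3.1 hγ))
      refine ⟨M, n', fa, fb, fc, hk, hM, fun α β γ hα hβ hγ => ?_⟩
      obtain ⟨H1, H2, H3⟩ := H α β γ hα hβ hγ
      exact ⟨max_le ((le_max_left _ _).trans H2) H1, (le_max_right _ _).trans H2, H3⟩
    · rw [hs, cond_true] at h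
      obtain ⟨s1, s2, s3⟩ := ble3 hs
      obtain ⟨M, n', fa, fb, fc, hk, hM, H⟩ := ih _ _ _ _ _ _ h i4 hacc hm
      refine ⟨M, n', fa, fb, fc, hk, hM, fun α β γ hα hβ hγ => ?_⟩
      obtain ⟨H1, H2, H3⟩ := H α β γ hα hβ hγ
      refine ⟨max_le (le_trans ?_ (maxPos_nonneg _ _ _)) H1, H2, H3⟩
      rw [ev_comb, ← i1, ← i2, ← i3]
      have := mul_nonpos_of_nonneg_of_nonpos hα (sub_nonpos.2 s1)
      have := mul_nonpos_of_nonneg_of_nonpos hβ (sub_nonpos.2 s2)
      have := mul_nonpos_of_nonneg_of_nonpos hγ (sub_nonpos.2 s3)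
      linarith

theorem afilt_sound (K K0 : ℕ) (a b c : ℝ × ℝ × ℝ) (L : AL) :
    ∀ (acc : AL) (n wa wb wc O wx wy wz ea eb ec : ℕ)
    (k : AL → ℕ → ℕ → ℕ → ℕ → ℕ → ℕ → ℕ → ℕ → ℕ → ℕ → ℕ → Bool),
    afilt K K0 L acc n wa wb wc O wx wy wz ea eb ec k = true →
    AInv K K0 a b c L → AInv K K0 a b c acc →
    (wa : ℝ) - K = ev O wx wy wz a → (wb : ℝ) - K = ev O wx wy wz b →
    (wc : ℝ) - K = ev O wx wy wz c →
    ∃ M n' va vb vc P vx vy vz fa fb fc, k M n' va vb vc P vx vy vz fa fb fc = true ∧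
      AInv K K0 a b c M ∧ (va : ℝ) - K = ev P vx vy vz a ∧ (vb : ℝ) - K = ev P vx vy vz b ∧
      (vc : ℝ) - K = ev P vx vy vz c ∧ ∀ α β γ : ℝ, 0 ≤ α → 0 ≤ β → 0 ≤ γ →
      ev O wx wy wz (α • a + β • b + γ • c) + sumPos K0 (α • a + β • b + γ • c) acc +
        sumPos K0 (α • a + β • b + γ • c) L ≤
        ev P vx vy vz (α • a + β • b + γ • c) + sumPos K0 (α • a + β • b + γ • c) M ∧
      sumPos K0 (α • a + β • b + γ • c) M - sumPos K0 (α • a + β • b + γ • c) acc ≤
        (α * fa + β * fb + γ * fc) - (α * ea + β * eb + γ * ec) := by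
  induction L with
  | nil =>
    intro acc n wa wb wc O wx wy wz ea eb ec k h _ hacc h1 h2 h3
    exact ⟨acc, n, wa, wb, wc, O, wx, wy, wz, ea, eb, ec, h, hacc, h1, h2, h3,
      fun α β γ _ _ _ => ⟨by simp [sumPos], by simp⟩⟩
  | cons p q r x y z t ih =>
    intro acc n wa wb wc O wx wy wz ea eb ec k h hL hacc h1 h2 h3
    obtain ⟨i1, i2, i3, i4⟩ := hL
    have e : afilt K K0 (AL.cons p q r x y z t) acc n wa wb wc O wx wy wz ea eb ec k =
      cond (Nat.ble p K && (Nat.ble q K && Nat.ble r K))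
        (afilt K K0 t acc n wa wb wc O wx wy wz ea eb ec k)
        (cond (Nat.ble K p && (Nat.ble K q && Nat.ble K r))
          (afilt K K0 t acc n (Nat.add wa (Nat.sub p K)) (Nat.add wb (Nat.sub q K))
            (Nat.add wc (Nat.sub r K)) (Nat.add O K0) (Nat.add wx x) (Nat.add wy y)
            (Nat.add wz z) ea eb ec k)
          (afilt K K0 t (AL.cons p q r x y z acc) (Nat.succ n) wa wb wc O wx wy wz
            (Nat.add ea (Nat.sub p K)) (Nat.add eb (Nat.sub q K)) (Nat.add ec (Nat.sub r K))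
            k)) := rfl
    rw [e] at h
    have hev : ∀ α β γ : ℝ, ev K0 x y z (α • a + β • b + γ • c) =
        α * ((p : ℝ) - K) + β * ((q : ℝ) - K) + γ * ((r : ℝ) - K) := by
      intro α β γ
      rw [ev_comb, ← i1, ← i2, ← i3]
    cases hs : (Nat.ble p K && (Nat.ble q K && Nat.ble r K))
    · rw [hs, cond_false] at h
      cases ht : (Nat.ble K p && (Nat.ble K q && Nat.ble K r))
      · rw [ht, cond_false] at h
        obtain ⟨M, n', va, vb, vc, P, vx, vy, vz, fa, fb, fc, hk, hM, g1, g2, g3, H⟩ :=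
          ih _ _ _ _ _ _ _ _ _ _ _ _ _ h i4 ⟨i1, i2, i3, hacc⟩ h1 h2 h3
        refine ⟨M, n', va, vb, vc, P, vx, vy, vz, fa, fb, fc, hk, hM, g1, g2, g3,
          fun α β γ hα hβ hγ => ?_⟩
        obtain ⟨H1, H2⟩ := H α β γ hα hβ hγ
        simp only [sumPos, Nat.add_eq, Nat.cast_add] at H1 H2 ⊢
        have c1 := mul_le_mul_of_nonneg_left (cast_sub_ge p K) hα
        have c2 := mul_le_mul_of_nonneg_left (cast_sub_ge q K) hβ
        have c3 := mul_le_mul_of_nonneg_left (cast_sub_ge r K) hγ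
        have hb : max 0 (ev K0 x y z (α • a + β • b + γ • c)) ≤
            α * (Nat.sub p K : ℕ) + β * (Nat.sub q K : ℕ) + γ * (Nat.sub r K : ℕ) :=
          max_le (by positivity) (by rw [hev]; linarith)
        constructor <;> linarith
      · rw [ht, cond_true] at h
        simp only [Bool.and_eq_true, Nat.ble_eq] at ht
        obtain ⟨s1, s2, s3⟩ := ht
        obtain ⟨M, n', va, vb, vc, P, vx, vy, vz, fa, fb, fc, hk, hM, g1, g2, g3, H⟩ :=
          ih _ _ _ _ _ _ _ _ _ _ _ _ _ h i4 hacc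
            (by rw [ev_add, ← h1, ← i1]; simp only [Nat.add_eq, Nat.sub_eq]
                rw [Nat.cast_add, Nat.cast_sub s1]; ring)
            (by rw [ev_add, ← h2, ← i2]; simp only [Nat.add_eq, Nat.sub_eq]
                rw [Nat.cast_add, Nat.cast_sub s2]; ring)
            (by rw [ev_add, ← h3, ← i3]; simp only [Nat.add_eq, Nat.sub_eq]
                rw [Nat.cast_add, Nat.cast_sub s3]; ring)
        refine ⟨M, n', va, vb, vc, P, vx, vy, vz, fa, fb, fc, hk, hM, g1, g2, g3,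
          fun α β γ hα hβ hγ => ?_⟩
        obtain ⟨H1, H2⟩ := H α β γ hα hβ hγ
        rw [ev_add] at H1
        have t1 : (K : ℝ) ≤ p := by exact_mod_cast s1
        have t2 : (K : ℝ) ≤ q := by exact_mod_cast s2
        have t3 : (K : ℝ) ≤ r := by exact_mod_cast s3
        have hb : max 0 (ev K0 x y z (α • a + β • b + γ • c)) =
            ev K0 x y z (α • a + β • b + γ • c) := by
          refine max_eq_right ?_
          rw [hev]
          have := mul_nonneg hα (sub_nonneg.2 t1)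
          have := mul_nonneg hβ (sub_nonneg.2 t2)
          have := mul_nonneg hγ (sub_nonneg.2 t3)
          linarith
        simp only [sumPos, hb]
        constructor <;> linarith
    · rw [hs, cond_true] at h
      obtain ⟨s1, s2, s3⟩ := ble3 hs
      obtain ⟨M, n', va, vb, vc, P, vx, vy, vz, fa, fb, fc, hk, hM, g1, g2, g3, H⟩ :=
        ih _ _ _ _ _ _ _ _ _ _ _ _ _ h i4 hacc h1 h2 h3
      refine ⟨M, n', va, vb, vc, P, vx, vy, vz, fa, fb, fc, hk, hM, g1, g2, g3,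
        fun α β γ hα hβ hγ => ?_⟩
      obtain ⟨H1, H2⟩ := H α β γ hα hβ hγ
      have hb : max 0 (ev K0 x y z (α • a + β • b + γ • c)) = 0 := by
        refine max_eq_left ?_
        rw [hev]
        have := mul_nonpos_of_nonneg_of_nonpos hα (sub_nonpos.2 s1)
        have := mul_nonpos_of_nonneg_of_nonpos hβ (sub_nonpos.2 s2)
        have := mul_nonpos_of_nonneg_of_nonpos hγ (sub_nonpos.2 s3)
        linarith
      simp only [sumPos, hb]
      constructor <;> linarith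

theorem am1_spec (K K0 : ℕ) (a b c : ℝ × ℝ × ℝ) (L : AL) (h : AInv K K0 a b c L) :
    AInv (Nat.mul 2 K) K0 ((2 : ℝ) • a) ((2 : ℝ) • c) (a + b) (am1 L) ∧
      ∀ ξ, sumPos K0 ξ (am1 L) = sumPos K0 ξ L ∧ maxPos K0 ξ (am1 L) = maxPos K0 ξ L := by
  induction L with
  | nil => exact ⟨trivial, fun _ => ⟨rfl, rfl⟩⟩
  | cons p q r x y z t ih =>
    obtain ⟨i1, i2, i3, i4⟩ := h
    obtain ⟨j1, j2⟩ := ih i4
    have e : am1 (AL.cons p q r x y z t) =
      AL.cons (Nat.mul 2 p) (Nat.mul 2 r) (Nat.add p q) x y z (am1 t) := rfl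
    rw [e]
    refine ⟨⟨?_, ?_, ?_, j1⟩, fun ξ => ⟨?_, ?_⟩⟩
    · rw [ev_two, ← i1]; simp only [Nat.mul_eq]; push_cast; ring
    · rw [ev_two, ← i3]; simp only [Nat.mul_eq]; push_cast; ring
    · rw [ev_plus, ← i1, ← i2]; simp only [Nat.mul_eq, Nat.add_eq]; push_cast; ring
    · simp only [sumPos, (j2 ξ).1]
    · simp only [maxPos, (j2 ξ).2]

theorem am2_spec (K K0 : ℕ) (a b c : ℝ × ℝ × ℝ) (L : AL) (h : AInv K K0 a b c L) :
    AInv (Nat.mul 2 K) K0 ((2 : ℝ) • c) ((2 : ℝ) • b) (a + b) (am2 L) ∧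
      ∀ ξ, sumPos K0 ξ (am2 L) = sumPos K0 ξ L ∧ maxPos K0 ξ (am2 L) = maxPos K0 ξ L := by
  induction L with
  | nil => exact ⟨trivial, fun _ => ⟨rfl, rfl⟩⟩
  | cons p q r x y z t ih =>
    obtain ⟨i1, i2, i3, i4⟩ := h
    obtain ⟨j1, j2⟩ := ih i4
    have e : am2 (AL.cons p q r x y z t) =
      AL.cons (Nat.mul 2 r) (Nat.mul 2 q) (Nat.add p q) x y z (am2 t) := rfl
    rw [e]
    refine ⟨⟨?_, ?_, ?_, j1⟩, fun ξ => ⟨?_, ?_⟩⟩
    · rw [ev_two, ← i3]; simp only [Nat.mul_eq]; push_cast; ring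
    · rw [ev_two, ← i2]; simp only [Nat.mul_eq]; push_cast; ring
    · rw [ev_plus, ← i1, ← i2]; simp only [Nat.mul_eq, Nat.add_eq]; push_cast; ring
    · simp only [sumPos, (j2 ξ).1]
    · simp only [maxPos, (j2 ξ).2]

/-- Euclidean norm of a triple. -/
noncomputable def nrm3 (ξ : ℝ × ℝ × ℝ) : ℝ := Real.sqrt (ξ.1 ^ 2 + ξ.2.1 ^ 2 + ξ.2.2 ^ 2)

theorem normOK_sound {R2 O x y z : ℕ} (h : normOK R2 O x y z = true) (ξ : ℝ × ℝ × ℝ) :
    ev O x y z ξ ≤ Real.sqrt R2 * nrm3 ξ := by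
  simp only [normOK, Nat.ble_eq, Nat.add_eq, Nat.mul_eq] at h
  have h' : ((ad O x * ad O x + ad O y * ad O y + ad O z * ad O z : ℕ) : ℝ) ≤ R2 := by
    exact_mod_cast h
  push_cast at h'
  simp only [ad_cast, abs_mul_abs_self] at h'
  unfold nrm3
  rw [← Real.sqrt_mul (Nat.cast_nonneg _)]
  refine Real.le_sqrt_of_sq_le ?_
  unfold ev
  set X := (x : ℝ) - O
  set Y := (y : ℝ) - O
  set Z := (z : ℝ) - O
  have := mul_le_mul_of_nonneg_right h'
    (by positivity : 0 ≤ ξ.1 ^ 2 + ξ.2.1 ^ 2 + ξ.2.2 ^ 2)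
  nlinarith [sq_nonneg (X * ξ.2.1 - Y * ξ.1), sq_nonneg (X * ξ.2.2 - Z * ξ.1),
    sq_nonneg (Y * ξ.2.2 - Z * ξ.2.1)]

theorem exG_sound {K0 : ℕ} {k : ℕ → ℕ → ℕ → ℕ → Bool} {ξ : ℝ × ℝ × ℝ} {B : ℝ}
    (hk : ∀ O x y z, k O x y z = true → ev O x y z ξ ≤ B) (L : AL) (O wx wy wz : ℕ)
    (h : exG K0 k L O wx wy wz = true) : ev O wx wy wz ξ ≤ B - maxPos K0 ξ L := by
  induction L with
  | nil => simpa [maxPos] using hk _ _ _ _ h
  | cons p q r x y z t ih =>
    have e : exG K0 k (AL.cons p q r x y z t) O wx wy wz =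
      (k (Nat.add O K0) (Nat.add wx x) (Nat.add wy y) (Nat.add wz z) &&
        exG K0 k t O wx wy wz) := rfl
    rw [e, Bool.and_eq_true] at h
    have h1 := hk _ _ _ _ h.1
    have h2 := ih h.2
    rw [ev_add] at h1
    simp only [maxPos]
    rcases le_total (ev K0 x y z ξ) (maxPos K0 ξ t) with hc | hc
    · rw [max_eq_right hc]; exact h2
    · rw [max_eq_left hc]; linarith

theorem exA_sound {K0 : ℕ} {k : ℕ → ℕ → ℕ → ℕ → Bool} {ξ : ℝ × ℝ × ℝ} {B : ℝ}
    (hk : ∀ O x y z, k O x y z = true → ev O x y z ξ ≤ B) (L : AL) : ∀ O wx wy wz : ℕ,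
    exA K0 k L O wx wy wz = true → ev O wx wy wz ξ ≤ B - sumPos K0 ξ L := by
  induction L with
  | nil => intro O wx wy wz h; simpa [sumPos] using hk _ _ _ _ h
  | cons p q r x y z t ih =>
    intro O wx wy wz h
    have e : exA K0 k (AL.cons p q r x y z t) O wx wy wz =
      (exA K0 k t O wx wy wz &&
        exA K0 k t (Nat.add O K0) (Nat.add wx x) (Nat.add wy y) (Nat.add wz z)) := rfl
    rw [e, Bool.and_eq_true] at h
    have h1 := ih _ _ _ _ h.1
    have h2 := ih _ _ _ _ h.2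
    rw [ev_add] at h2
    simp only [sumPos]
    rcases le_total 0 (ev K0 x y z ξ) with hc | hc
    · rw [max_eq_right hc]; linarith
    · rw [max_eq_left hc]; linarith

/-- Inner product of triples. -/
def ip (a b : ℝ × ℝ × ℝ) : ℝ := a.1 * b.1 + a.2.1 * b.2.1 + a.2.2 * b.2.2

theorem qf_eq {a b c : ℝ × ℝ × ℝ} {aa bb cc ab ac bc : ℝ} (h1 : aa = ip a a) (h2 : bb = ip b b)
    (h3 : cc = ip c c) (h4 : ab = ip a b) (h5 : ac = ip a c) (h6 : bc = ip b c) (α β γ : ℝ) :
    qf aa bb cc ab ac bc α β γ = (α • a + β • b + γ • c).1 ^ 2 +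
      (α • a + β • b + γ • c).2.1 ^ 2 + (α • a + β • b + γ • c).2.2 ^ 2 := by
  subst h1 h2 h3 h4 h5 h6
  simp only [qf, ip, Prod.fst_add, Prod.snd_add, Prod.smul_fst, Prod.smul_snd, smul_eq_mul]
  ring

theorem bnode_sound (R2 K0 lim fuel : ℕ) : ∀ (K aa bb cc ab ac bc wa wb wc O wx wy wz : ℕ)
    (L G H : AL) (a b c : ℝ × ℝ × ℝ),
    bnode R2 K0 lim fuel K aa bb cc ab ac bc wa wb wc O wx wy wz L G H = true → 0 < aa → 0 < cc →
    (aa : ℝ) = ip a a → (bb : ℝ) = ip b b → (cc : ℝ) = ip c c → (ab : ℝ) = ip a b →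
    (ac : ℝ) = ip a c → (bc : ℝ) = ip b c →
    (wa : ℝ) - K = ev O wx wy wz a → (wb : ℝ) - K = ev O wx wy wz b →
    (wc : ℝ) - K = ev O wx wy wz c →
    AInv K K0 a b c L → AInv K K0 a b c G → AInv K K0 a b c H →
    ∀ α β γ : ℝ, 0 ≤ α → 0 ≤ β → 0 ≤ γ →
    ev O wx wy wz (α • a + β • b + γ • c) + sumPos K0 (α • a + β • b + γ • c) L +
      maxPos K0 (α • a + β • b + γ • c) G + maxPos K0 (α • a + β • b + γ • c) H ≤
      Real.sqrt R2 * nrm3 (α • a + β • b + γ • c) := by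
  induction fuel with
  | zero =>
    intro K aa bb cc ab ac bc wa wb wc O wx wy wz L G H a b c h
    exact absurd h Bool.false_ne_true
  | succ n ih =>
    intro K aa bb cc ab ac bc wa wb wc O wx wy wz L G H a b c h haa hcc q1 q2 q3 q4 q5 q6
      w1 w2 w3 iL iG iH α β γ hα hβ hγ
    have e : bnode R2 K0 lim (n + 1) K aa bb cc ab ac bc wa wb wc O wx wy wz L G H =
      gfilt K G AL.nil 0 0 0 0 (fun G' n1 ga gb gc =>
      gfilt K H AL.nil n1 0 0 0 (fun H' n2 ha hb hc =>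
      afilt K K0 L AL.nil n2 wa wb wc O wx wy wz (Nat.add ga ha) (Nat.add gb hb) (Nat.add gc hc)
        (fun M n0 va vb vc P vx vy vz ea eb ec =>
        cond (leafOK R2 aa bb cc ab ac bc (Nat.sub (Nat.add va ea) K) (Nat.sub (Nat.add vb eb) K)
            (Nat.sub (Nat.add vc ec) K)) true
          (cond (Nat.ble n0 lim) (exA K0 (exG K0 (exG K0 (normOK R2) H') G') M P vx vy vz)
          (bnode R2 K0 lim n (Nat.mul 2 K) (Nat.mul 4 aa) (Nat.mul 4 cc)
              (Nat.add (Nat.add aa ab) (Nat.add ab bb)) (Nat.mul 4 ac)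
              (Nat.mul 2 (Nat.add aa ab)) (Nat.mul 2 (Nat.add ac bc))
              (Nat.mul 2 va) (Nat.mul 2 vc) (Nat.add va vb) P vx vy vz
              (am1 M) (am1 G') (am1 H') &&
            bnode R2 K0 lim n (Nat.mul 2 K) (Nat.mul 4 cc) (Nat.mul 4 bb)
              (Nat.add (Nat.add aa ab) (Nat.add ab bb)) (Nat.mul 4 bc)
              (Nat.mul 2 (Nat.add ac bc)) (Nat.mul 2 (Nat.add ab bb))
              (Nat.mul 2 vc) (Nat.mul 2 vb) (Nat.add va vb) P vx vy vz
              (am2 M) (am2 G') (am2 H')))))) := rfl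
    rw [e] at h
    obtain ⟨G', n1, ga, gb, gc, h, iG', HG⟩ := gfilt_sound K K0 a b c G _ _ _ _ _ _ h iG trivial
      (fun _ _ _ _ _ _ => by simp [maxPos])
    obtain ⟨H', n2, ha, hb, hc, h, iH', HH⟩ := gfilt_sound K K0 a b c H _ _ _ _ _ _ h iH trivial
      (fun _ _ _ _ _ _ => by simp [maxPos])
    obtain ⟨M, n0, va, vb, vc, P, vx, vy, vz, ea, eb, ec, hk, iM, v1, v2, v3, HA⟩ :=
      afilt_sound K K0 a b c L _ _ _ _ _ _ _ _ _ _ _ _ _ h iL trivial w1 w2 w3
    obtain ⟨G1, -, G3⟩ := HG α β γ hα hβ hγ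
    obtain ⟨H1, -, H3⟩ := HH α β γ hα hβ hγ
    obtain ⟨A1, A2⟩ := HA α β γ hα hβ hγ
    simp only [sumPos, add_zero, sub_zero, Nat.add_eq, Nat.cast_add] at A1 A2
    suffices hs : ev P vx vy vz (α • a + β • b + γ • c) + sumPos K0 (α • a + β • b + γ • c) M +
      maxPos K0 (α • a + β • b + γ • c) G' + maxPos K0 (α • a + β • b + γ • c) H' ≤
      Real.sqrt R2 * nrm3 (α • a + β • b + γ • c) by linarith
    cases hl : leafOK R2 aa bb cc ab ac bc (Nat.sub (Nat.add va ea) K) (Nat.sub (Nat.add vb eb) K)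
            (Nat.sub (Nat.add vc ec) K)
    · simp only [hl, cond_false] at hk
      cases hn : Nat.ble n0 lim
      · simp only [hn, cond_false, Bool.and_eq_true] at hk
        obtain ⟨k1, k2⟩ := hk
        have hn : 0 < Nat.add (Nat.add aa ab) (Nat.add ab bb) := by
          simp only [Nat.add_eq]; omega
        rcases le_total β α with hc | hc
        · obtain ⟨j1, j2⟩ := am1_spec K K0 a b c M iM
          obtain ⟨j3, j4⟩ := am1_spec K K0 a b c G' iG'
          obtain ⟨j5, j6⟩ := am1_spec K K0 a b c H' iH'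
          have := ih _ _ _ _ _ _ _ _ _ _ _ _ _ _ _ _ _ ((2 : ℝ) • a) ((2 : ℝ) • c) (a + b) k1
            (by simp only [Nat.mul_eq]; omega) hn
            (by simp only [Nat.mul_eq]; push_cast; rw [q1]; simp [ip]; ring)
            (by simp only [Nat.mul_eq]; push_cast; rw [q3]; simp [ip]; ring)
            (by simp only [Nat.add_eq]; push_cast; rw [q1, q2, q4]; simp [ip]; ring)
            (by simp only [Nat.mul_eq]; push_cast; rw [q5]; simp [ip]; ring)
            (by simp only [Nat.mul_eq, Nat.add_eq]; push_cast; rw [q1, q4]; simp [ip]; ring)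
            (by simp only [Nat.mul_eq, Nat.add_eq]; push_cast; rw [q5, q6]; simp [ip]; ring)
            (by rw [ev_two, ← v1]; simp only [Nat.mul_eq]; push_cast; ring)
            (by rw [ev_two, ← v3]; simp only [Nat.mul_eq]; push_cast; ring)
            (by rw [ev_plus, ← v1, ← v2]; simp only [Nat.mul_eq, Nat.add_eq]; push_cast; ring)
            j1 j3 j5 ((α - β) / 2) (γ / 2) β (by linarith) (by linarith) hβ
          have e1 : ((α - β) / 2) • (2 : ℝ) • a + (γ / 2) • (2 : ℝ) • c + β • (a + b) =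
              α • a + β • b + γ • c := by module
          rw [e1, (j2 _).1, (j4 _).2, (j6 _).2] at this
          exact this
        · obtain ⟨j1, j2⟩ := am2_spec K K0 a b c M iM
          obtain ⟨j3, j4⟩ := am2_spec K K0 a b c G' iG'
          obtain ⟨j5, j6⟩ := am2_spec K K0 a b c H' iH'
          have := ih _ _ _ _ _ _ _ _ _ _ _ _ _ _ _ _ _ ((2 : ℝ) • c) ((2 : ℝ) • b) (a + b) k2
            (by simp only [Nat.mul_eq]; omega) hn
            (by simp only [Nat.mul_eq]; push_cast; rw [q3]; simp [ip]; ring)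
            (by simp only [Nat.mul_eq]; push_cast; rw [q2]; simp [ip]; ring)
            (by simp only [Nat.add_eq]; push_cast; rw [q1, q2, q4]; simp [ip]; ring)
            (by simp only [Nat.mul_eq]; push_cast; rw [q6]; simp [ip]; ring)
            (by simp only [Nat.mul_eq, Nat.add_eq]; push_cast; rw [q5, q6]; simp [ip]; ring)
            (by simp only [Nat.mul_eq, Nat.add_eq]; push_cast; rw [q2, q4]; simp [ip]; ring)
            (by rw [ev_two, ← v3]; simp only [Nat.mul_eq]; push_cast; ring)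
            (by rw [ev_two, ← v2]; simp only [Nat.mul_eq]; push_cast; ring)
            (by rw [ev_plus, ← v1, ← v2]; simp only [Nat.mul_eq, Nat.add_eq]; push_cast; ring)
            j1 j3 j5 (γ / 2) ((β - α) / 2) α (by linarith) (by linarith) hα
          have e1 : (γ / 2) • (2 : ℝ) • c + ((β - α) / 2) • (2 : ℝ) • b + α • (a + b) =
              α • a + β • b + γ • c := by module
          rw [e1, (j2 _).1, (j4 _).2, (j6 _).2] at this
          exact this
      · simp only [hn, cond_true] at hk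
        have := exA_sound (ξ := α • a + β • b + γ • c)
          (fun O x y z hx => exG_sound (ξ := α • a + β • b + γ • c)
            (fun O x y z hx => exG_sound (ξ := α • a + β • b + γ • c)
              (fun O x y z hx => normOK_sound hx _) H' O x y z hx) G' O x y z hx) M _ _ _ _ hk
        linarith
    · have b1 := mul_le_mul_of_nonneg_left (cast_sub_ge (Nat.add va ea) K) hα
      have b2 := mul_le_mul_of_nonneg_left (cast_sub_ge (Nat.add vb eb) K) hβ
      have b3 := mul_le_mul_of_nonneg_left (cast_sub_ge (Nat.add vc ec) K) hγ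
      set fa := Nat.sub (Nat.add va ea) K
      set fb := Nat.sub (Nat.add vb eb) K
      set fc := Nat.sub (Nat.add vc ec) K
      have hq := qf_eq q1 q2 q3 q4 q5 q6
      have hsq : (fa * α + fb * β + fc * γ) ^ 2 ≤ R2 * qf aa bb cc ab ac bc α β γ := by
        simp only [leafOK, Bool.or_eq_true] at hl
        rcases hl with hl | hl
        · exact test2_sound hl hα hβ hγ
        · exact test1_sound (fun x y z => by rw [hq]; positivity) haa hl hα hβ hγ
      have := Real.le_sqrt_of_sq_le hsq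
      rw [Real.sqrt_mul (Nat.cast_nonneg _), hq] at this
      simp only [Nat.add_eq, Nat.cast_add] at b1 b2 b3
      rw [ev_comb, ← v1, ← v2, ← v3]
      unfold nrm3
      linarith

end Pool.Agent.Lib.MP_ee7495_gt.X
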