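import Mathlib
import Pool.Agent.Lib.MP_ee7495_gt.X.Ball

set_option autoImplicit false

namespace Pool.Agent.Lib.MP_ee7495_gt.X

/-- Lists of shifted integer vectors. -/
inductive BL : Type
  | nil : BL
  | cons (x y z : ℕ) (t : BL) : BL

/-- Reflection of a shifted coordinate. -/
def fl (K : ℕ) (s : Bool) (x : ℕ) : ℕ := cond s x (Nat.sub (Nat.mul 2 K) x)

/-- Atoms on an octant. -/
noncomputable def root (K : ℕ) (s1 s2 s3 : Bool) (L : BL) : AL :=
  BL.rec AL.nil (fun x y z _ ih => AL.cons (fl K s1 x) (fl K s2 y) (fl K s3 z) x y z ih) L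

/-- Range check. -/
noncomputable def okB (K : ℕ) (L : BL) : Bool :=
  BL.rec true (fun x y z _ ih => (Nat.ble x (Nat.mul 2 K) &&
    (Nat.ble y (Nat.mul 2 K) && Nat.ble z (Nat.mul 2 K))) && ih) L

/-- Concatenation. -/
noncomputable def app (L M : BL) : BL := BL.rec M (fun x y z _ ih => BL.cons x y z ih) L

/-- Check on one octant. -/
noncomputable def octOK (R2 K lim wx wy wz : ℕ) (L G H : BL) (s1 s2 s3 : Bool) : Bool :=
  bnode R2 K lim 40 K 1 1 1 0 0 0 (fl K s1 wx) (fl K s2 wy) (fl K s3 wz) K wx wy wz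
    (root K s1 s2 s3 L) (root K s1 s2 s3 G) (root K s1 s2 s3 H)

/-- Check on the whole space. -/
noncomputable def fullOK (R K lim wx wy wz : ℕ) (L G H : BL) : Bool :=
  (okB K (BL.cons wx wy wz L) && (okB K G && okB K H)) &&
  (((octOK (Nat.mul R R) K lim wx wy wz L G H true true true &&
    octOK (Nat.mul R R) K lim wx wy wz L G H true true false) &&
  (octOK (Nat.mul R R) K lim wx wy wz L G H true false true &&
    octOK (Nat.mul R R) K lim wx wy wz L G H true false false)) &&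
  ((octOK (Nat.mul R R) K lim wx wy wz L G H false true true &&
    octOK (Nat.mul R R) K lim wx wy wz L G H false true false) &&
  (octOK (Nat.mul R R) K lim wx wy wz L G H false false true &&
    octOK (Nat.mul R R) K lim wx wy wz L G H false false false)))

/-- Sum of the positive parts. -/
noncomputable def sumB (K : ℕ) (ξ : ℝ × ℝ × ℝ) : BL → ℝ
  | BL.nil => 0
  | BL.cons x y z t => max 0 (ev K x y z ξ) + sumB K ξ t

/-- Maximum of the positive parts. -/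
noncomputable def maxB (K : ℕ) (ξ : ℝ × ℝ × ℝ) : BL → ℝ
  | BL.nil => 0
  | BL.cons x y z t => max (ev K x y z ξ) (maxB K ξ t)

theorem sumB_app (K : ℕ) (ξ : ℝ × ℝ × ℝ) (L M : BL) :
    sumB K ξ (app L M) = sumB K ξ L + sumB K ξ M := by
  induction L with
  | nil => exact (zero_add _).symm
  | cons x y z t ih =>
    have e : app (BL.cons x y z t) M = BL.cons x y z (app t M) := rfl
    rw [e]
    simp only [sumB, ih, add_assoc]

/-- The sign of a Boolean. -/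
def sg (s : Bool) : ℝ := cond s 1 (-1)

theorem fl_cast {K x : ℕ} (s : Bool) (h : x ≤ 2 * K) :
    ((fl K s x : ℕ) : ℝ) - K = ((x : ℝ) - K) * sg s := by
  cases s
  · simp only [fl, sg, cond_false, Nat.sub_eq, Nat.mul_eq]
    rw [Nat.cast_sub h]; push_cast; ring
  · simp [fl, sg]

theorem okB_cons {K x y z : ℕ} {t : BL} (h : okB K (BL.cons x y z t) = true) :
    x ≤ 2 * K ∧ y ≤ 2 * K ∧ z ≤ 2 * K ∧ okB K t = true := by
  have e : okB K (BL.cons x y z t) = ((Nat.ble x (Nat.mul 2 K) &&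
    (Nat.ble y (Nat.mul 2 K) && Nat.ble z (Nat.mul 2 K))) && okB K t) := rfl
  rw [e] at h
  simp only [Bool.and_eq_true, Nat.ble_eq, Nat.mul_eq] at h
  exact ⟨h.1.1, h.1.2.1, h.1.2.2, h.2⟩

theorem root_spec (K : ℕ) (s1 s2 s3 : Bool) (L : BL) (h : okB K L = true) :
    AInv K K (sg s1, 0, 0) (0, sg s2, 0) (0, 0, sg s3) (root K s1 s2 s3 L) ∧
      ∀ ξ, sumPos K ξ (root K s1 s2 s3 L) = sumB K ξ L ∧
        maxPos K ξ (root K s1 s2 s3 L) = maxB K ξ L := by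
  induction L with
  | nil => exact ⟨trivial, fun _ => ⟨rfl, rfl⟩⟩
  | cons x y z t ih =>
    obtain ⟨h1, h2, h3, h4⟩ := okB_cons h
    obtain ⟨j1, j2⟩ := ih h4
    have e : root K s1 s2 s3 (BL.cons x y z t) =
      AL.cons (fl K s1 x) (fl K s2 y) (fl K s3 z) x y z (root K s1 s2 s3 t) := rfl
    rw [e]
    refine ⟨⟨?_, ?_, ?_, j1⟩, fun ξ => ⟨?_, ?_⟩⟩
    · rw [fl_cast _ h1]; simp [ev]
    · rw [fl_cast _ h2]; simp [ev]
    · rw [fl_cast _ h3]; simp [ev]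
    · simp only [sumPos, sumB, (j2 ξ).1]
    · simp only [maxPos, maxB, (j2 ξ).2]

theorem sg_sq (s : Bool) : sg s * sg s = 1 := by cases s <;> simp [sg]

theorem octOK_sound {R K lim wx wy wz : ℕ} {L G H : BL} {s1 s2 s3 : Bool}
    (h : octOK (Nat.mul R R) K lim wx wy wz L G H s1 s2 s3 = true)
    (h0 : okB K (BL.cons wx wy wz L) = true) (hG : okB K G = true) (hH : okB K H = true)
    (ξ : ℝ × ℝ × ℝ) (h1 : 0 ≤ sg s1 * ξ.1) (h2 : 0 ≤ sg s2 * ξ.2.1) (h3 : 0 ≤ sg s3 * ξ.2.2) :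
    ev K wx wy wz ξ + sumB K ξ L + maxB K ξ G + maxB K ξ H ≤ R * nrm3 ξ := by
  obtain ⟨w1, w2, w3, hL⟩ := okB_cons h0
  obtain ⟨a1, a2⟩ := root_spec K s1 s2 s3 L hL
  obtain ⟨b1, b2⟩ := root_spec K s1 s2 s3 G hG
  obtain ⟨c1, c2⟩ := root_spec K s1 s2 s3 H hH
  have := bnode_sound _ _ _ _ _ _ _ _ _ _ _ _ _ _ _ _ _ _ _ _ _
    (sg s1, 0, 0) (0, sg s2, 0) (0, 0, sg s3) h one_pos one_pos
    (by simp [ip, sg_sq]) (by simp [ip, sg_sq]) (by simp [ip, sg_sq]) (by simp [ip])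
    (by simp [ip]) (by simp [ip]) (by rw [fl_cast _ w1]; simp [ev])
    (by rw [fl_cast _ w2]; simp [ev]) (by rw [fl_cast _ w3]; simp [ev]) a1 b1 c1
    _ _ _ h1 h2 h3
  have e : (sg s1 * ξ.1) • ((sg s1, 0, 0) : ℝ × ℝ × ℝ) +
      (sg s2 * ξ.2.1) • ((0, sg s2, 0) : ℝ × ℝ × ℝ) +
      (sg s3 * ξ.2.2) • ((0, 0, sg s3) : ℝ × ℝ × ℝ) = ξ := by
    obtain ⟨x, y, z⟩ := ξ
    simp only [Prod.smul_mk, Prod.mk_add_mk, smul_eq_mul, mul_zero, add_zero, zero_add,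
      Prod.mk.injEq]
    refine ⟨?_, ?_, ?_⟩
    · linear_combination x * sg_sq s1
    · linear_combination y * sg_sq s2
    · linear_combination z * sg_sq s3
  rw [e, (a2 _).1, (b2 _).2, (c2 _).2] at this
  have e2 : Real.sqrt ((Nat.mul R R : ℕ) : ℝ) = R := by
    rw [Nat.mul_eq, Nat.cast_mul, Real.sqrt_mul_self (Nat.cast_nonneg _)]
  rwa [e2] at this

theorem exists_sg (x : ℝ) : ∃ s, 0 ≤ sg s * x := by
  rcases le_total 0 x with h | h
  · exact ⟨true, by simpa [sg] using h⟩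
  · exact ⟨false, by simpa [sg] using h⟩

/-- Soundness: `W + zonotope + two hulls` lies in the ball of radius `R`. -/
theorem fullOK_sound {R K lim wx wy wz : ℕ} {L G H : BL}
    (h : fullOK R K lim wx wy wz L G H = true) (ξ : ℝ × ℝ × ℝ) :
    ev K wx wy wz ξ + sumB K ξ L + maxB K ξ G + maxB K ξ H ≤ R * nrm3 ξ := by
  simp only [fullOK, Bool.and_eq_true] at h
  obtain ⟨⟨h0, hG, hH⟩, ⟨⟨o1, o2⟩, o3, o4⟩, ⟨o5, o6⟩, o7, o8⟩ := h
  obtain ⟨s1, h1⟩ := exists_sg ξ.1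
  obtain ⟨s2, h2⟩ := exists_sg ξ.2.1
  obtain ⟨s3, h3⟩ := exists_sg ξ.2.2
  cases s1 <;> cases s2 <;> cases s3
  · exact octOK_sound o8 h0 hG hH ξ h1 h2 h3
  · exact octOK_sound o7 h0 hG hH ξ h1 h2 h3
  · exact octOK_sound o6 h0 hG hH ξ h1 h2 h3
  · exact octOK_sound o5 h0 hG hH ξ h1 h2 h3
  · exact octOK_sound o4 h0 hG hH ξ h1 h2 h3
  · exact octOK_sound o3 h0 hG hH ξ h1 h2 h3
  · exact octOK_sound o2 h0 hG hH ξ h1 h2 h3
  · exact octOK_sound o1 h0 hG hH ξ h1 h2 h3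

end Pool.Agent.Lib.MP_ee7495_gt.X
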