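import Mathlib
import Pool.Agent.Lib.MP_ee7495_gt.X.Ball2

set_option autoImplicit false

namespace Pool.Agent.Lib.MP_ee7495_gt.X

/-- Grid points. -/
abbrev Pt := ℕ × ℕ × ℕ

/-- Values at the points of a list, packed in lanes of forty bits. -/
def pk (f : Pt → ℕ) : List Pt → ℕ
  | [] => 0
  | a :: l => 2 ^ 40 * pk f l + f a

theorem pk_congr {f g : Pt → ℕ} {l : List Pt} (h : ∀ a ∈ l, f a = g a) : pk f l = pk g l := by
  induction l with
  | nil => rfl
  | cons a l ih =>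
    simp only [pk]
    rw [ih (fun b hb => h b (List.mem_cons_of_mem _ hb)), h a List.mem_cons_self]

theorem pk_add (f g : Pt → ℕ) (l : List Pt) :
    Nat.add (pk f l) (pk g l) = pk (fun a => f a + g a) l := by
  induction l with
  | nil => rfl
  | cons a l ih =>
    simp only [pk, Nat.add_eq] at ih ⊢
    rw [← ih]; ring

theorem pk_mul (c : ℕ) (f : Pt → ℕ) (l : List Pt) :
    Nat.mul c (pk f l) = pk (fun a => c * f a) l := by
  induction l with
  | nil => rfl
  | cons a l ih =>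
    simp only [pk, Nat.mul_eq] at ih ⊢
    rw [← ih]; ring

theorem pk_zero (l : List Pt) : pk (fun _ => 0) l = 0 := by
  induction l with
  | nil => rfl
  | cons a l ih => simp only [pk, ih, mul_zero, add_zero]

theorem pk_sub {f g : Pt → ℕ} {l : List Pt} (h : ∀ a ∈ l, g a ≤ f a) :
    Nat.sub (pk f l) (pk g l) = pk (fun a => f a - g a) l := by
  have h1 := pk_add (fun a => f a - g a) g l
  rw [pk_congr (g := f) (fun a ha => Nat.sub_add_cancel (h a ha))] at h1
  simp only [Nat.add_eq, Nat.sub_eq] at h1 ⊢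
  omega

theorem land_step {a b : ℕ} (x y : ℕ) (ha : a < 2 ^ 40) (hb : b < 2 ^ 40) :
    (2 ^ 40 * x + a) &&& (2 ^ 40 * y + b) = 2 ^ 40 * (x &&& y) + (a &&& b) := by
  apply Nat.eq_of_testBit_eq
  intro i
  rw [Nat.testBit_and, Nat.testBit_two_pow_mul_add _ ha, Nat.testBit_two_pow_mul_add _ hb,
    Nat.testBit_two_pow_mul_add _ (lt_of_le_of_lt Nat.and_le_left ha)]
  split_ifs <;> rw [Nat.testBit_and]

theorem pk_land {f g : Pt → ℕ} {l : List Pt} (hf : ∀ a ∈ l, f a < 2 ^ 40)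
    (hg : ∀ a ∈ l, g a < 2 ^ 40) :
    Nat.land (pk f l) (pk g l) = pk (fun a => f a &&& g a) l := by
  induction l with
  | nil => exact Nat.and_self 0
  | cons a l ih =>
    have := ih (fun b hb => hf b (List.mem_cons_of_mem _ hb))
      (fun b hb => hg b (List.mem_cons_of_mem _ hb))
    simp only [pk]
    rw [← this]
    exact land_step _ _ (hf a List.mem_cons_self) (hg a List.mem_cons_self)

theorem pk_inj {f g : Pt → ℕ} {l : List Pt} (hf : ∀ a ∈ l, f a < 2 ^ 40)
    (hg : ∀ a ∈ l, g a < 2 ^ 40) (h : pk f l = pk g l) : ∀ a ∈ l, f a = g a := by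
  induction l with
  | nil => intro a ha; cases ha
  | cons a l ih =>
    simp only [pk] at h
    have h1 := hf a List.mem_cons_self
    have h2 := hg a List.mem_cons_self
    have h3 : pk f l = pk g l ∧ f a = g a := by omega
    intro b hb
    rcases List.mem_cons.1 hb with rfl | hb
    · exact h3.2
    · exact ih (fun b hb => hf b (List.mem_cons_of_mem _ hb))
        (fun b hb => hg b (List.mem_cons_of_mem _ hb)) h3.1 b hb

theorem pk_append (f : Pt → ℕ) (l m : List Pt) :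
    pk f (l ++ m) = 2 ^ (40 * l.length) * pk f m + pk f l := by
  induction l with
  | nil => simp [pk]
  | cons a l ih =>
    simp only [List.cons_append, pk, ih, List.length_cons]
    ring

/-- Lanewise truncated subtraction of `2 ^ s`. -/
def pp (s T X : ℕ) : ℕ :=
  (fun H => Nat.land X (Nat.sub H (Nat.shiftRight H s))) (Nat.land X T)

theorem bit_of_lt {x s : ℕ} (h : x < 2 ^ (s + 1)) :
    x &&& 2 ^ s = if 2 ^ s ≤ x then 2 ^ s else 0 := by
  rw [Nat.and_two_pow]
  split_ifs with hc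
  · rw [Nat.testBit_of_two_pow_le_and_two_pow_add_one_gt hc h]; simp
  · rw [Nat.testBit_lt_two_pow (not_le.1 hc)]; simp

theorem pp_spec {s : ℕ} (hs : s < 40) {f : Pt → ℕ} {l : List Pt}
    (hf : ∀ a ∈ l, f a < 2 ^ (s + 1)) :
    pp s (Nat.mul (2 ^ s) (pk (fun _ => 1) l)) (pk f l) = pk (fun a => f a - 2 ^ s) l := by
  have p1 : 2 ^ (s + 1) ≤ 2 ^ 40 := Nat.pow_le_pow_right two_pos hs
  have p2 : 2 ^ s < 2 ^ 40 := Nat.pow_lt_pow_right one_lt_two hs
  have p3 : 0 < 2 ^ s := Nat.two_pow_pos s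
  have hf' : ∀ a ∈ l, f a < 2 ^ 40 := fun a ha => lt_of_lt_of_le (hf a ha) p1
  have e1 : Nat.land (pk f l) (Nat.mul (2 ^ s) (pk (fun _ => 1) l)) =
      Nat.mul (2 ^ s) (pk (fun a => if 2 ^ s ≤ f a then 1 else 0) l) := by
    rw [pk_mul, pk_mul, pk_land hf' (fun a _ => by simpa using p2)]
    refine pk_congr (fun a ha => ?_)
    rw [mul_one, bit_of_lt (hf a ha)]
    split_ifs <;> simp
  have e2 : Nat.shiftRight (Nat.mul (2 ^ s) (pk (fun a => if 2 ^ s ≤ f a then 1 else 0) l)) s =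
      pk (fun a => if 2 ^ s ≤ f a then 1 else 0) l := by
    rw [Nat.shiftRight_eq, Nat.shiftRight_eq_div_pow, Nat.mul_eq, Nat.mul_div_cancel_left _ p3]
  simp only [pp]
  rw [e1, e2, pk_mul, pk_sub (fun a _ => by split_ifs <;> omega),
    pk_land hf' (fun a _ => by split_ifs <;> omega)]
  refine pk_congr (fun a ha => ?_)
  have := hf a ha
  split_ifs with hc
  · rw [mul_one, Nat.and_two_pow_sub_one_eq_mod, Nat.mod_eq_sub_mod hc, Nat.mod_eq_of_lt]
    rw [pow_succ] at this; omega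
  · simp only [mul_zero, Nat.sub_self, Nat.and_zero]; omega

/-- Lanewise comparison. -/
def fin (O T A : ℕ) : Bool :=
  Nat.beq (Nat.land (Nat.sub (Nat.add T (Nat.mul 550829555712 O)) A) (Nat.mul 549755813888 O))
    (Nat.mul 549755813888 O)

theorem fin_spec {f t : Pt → ℕ} {l : List Pt} (hf : ∀ a ∈ l, f a ≤ 2 ^ 39)
    (ht : ∀ a ∈ l, t a ≤ 2 ^ 38) (h : fin (pk (fun _ => 1) l) (pk t l) (pk f l) = true) :
    ∀ a ∈ l, f a ≤ t a + 2 ^ 30 := by
  simp only [fin, Nat.beq_eq] at h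
  rw [pk_mul, pk_mul, pk_add, pk_sub (fun a ha => by have := hf a ha; omega),
    pk_land (fun a ha => by have := ht a ha; omega) (fun a _ => by norm_num)] at h
  intro a ha
  have h1 := pk_inj (fun a ha => lt_of_le_of_lt Nat.and_le_right (by norm_num))
    (fun a _ => by norm_num) h a ha
  have h2 := ht a ha
  have h3 := hf a ha
  have h4 := bit_of_lt (x := t a + 550829555712 * 1 - f a) (s := 39) (by omega)
  rw [show (2 : ℕ) ^ 39 = 549755813888 * 1 by norm_num, h1] at h4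
  split_ifs at h4 with hc
  omega

/-- Sublinear functions. -/
def SubL (F : ℝ × ℝ × ℝ → ℝ) : Prop :=
  (∀ a b, F (a + b) ≤ F a + F b) ∧ ∀ t : ℝ, 0 ≤ t → ∀ a, F (t • a) = t * F a

theorem SubL.add {F G : ℝ × ℝ × ℝ → ℝ} (hF : SubL F) (hG : SubL G) :
    SubL (fun a => F a + G a) :=
  ⟨fun a b => by linarith [hF.1 a b, hG.1 a b],
    fun t ht a => by simp only []; rw [hF.2 t ht, hG.2 t ht]; ring⟩

theorem SubL.pos {F : ℝ × ℝ × ℝ → ℝ} (hF : SubL F) : SubL (fun a => max 0 (F a)) :=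
  ⟨fun a b => max_le (by positivity)
      (by linarith [hF.1 a b, le_max_right 0 (F a), le_max_right 0 (F b)]),
    fun t ht a => by simp only []; rw [hF.2 t ht, mul_max_of_nonneg _ _ ht, mul_zero]⟩

theorem SubL.neg {F : ℝ × ℝ × ℝ → ℝ} (hF : SubL F) : SubL (fun a => F (-a)) :=
  ⟨fun a b => by simp only []; rw [neg_add]; exact hF.1 _ _,
    fun t ht a => by simp only []; rw [← smul_neg, hF.2 t ht]⟩

theorem subL_ev (K x y z : ℕ) : SubL (ev K x y z) :=
  ⟨fun a b => (ev_plus K x y z a b).le, fun t _ a => by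
    simp only [ev, Prod.smul_fst, Prod.smul_snd, smul_eq_mul]; ring⟩

theorem subL_sumB (K : ℕ) (L : BL) : SubL (fun ξ => sumB K ξ L) := by
  induction L with
  | nil => exact ⟨fun _ _ => by simp [sumB], fun _ _ _ => by simp [sumB]⟩
  | cons x y z t ih => exact (subL_ev K x y z).pos.add ih

/-- Positive part of a linear form plus a sum of positive parts. -/
noncomputable def hookB (K : ℕ) (ξ : ℝ × ℝ × ℝ) : BL → ℝ
  | BL.nil => 0
  | BL.cons x y z t => max 0 (ev K x y z ξ + sumB K ξ t)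

theorem subL_hookB (K : ℕ) (L : BL) : SubL (fun ξ => hookB K ξ L) := by
  cases L with
  | nil => exact ⟨fun _ _ => by simp [hookB], fun _ _ _ => by simp [hookB]⟩
  | cons x y z t => exact ((subL_ev K x y z).add (subL_sumB K t)).pos

theorem three_pt {F : ℝ × ℝ × ℝ → ℝ} (hF : SubL F) {S : ℝ} (hS : 0 ≤ S) {a b c : ℝ × ℝ × ℝ}
    {ta tb tc α β γ : ℝ} (hα : 0 ≤ α) (hβ : 0 ≤ β) (hγ : 0 ≤ γ) (h1 : α + β + γ = 1)
    (ha : F a ≤ ta) (hb : F b ≤ tb) (hc : F c ≤ tc)
    (qa : 3 * ta ^ 2 + 2 * S ^ 2 ≤ 3 * S ^ 2 * ip a a)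
    (qb : 3 * tb ^ 2 + 2 * S ^ 2 ≤ 3 * S ^ 2 * ip b b)
    (qc : 3 * tc ^ 2 + 2 * S ^ 2 ≤ 3 * S ^ 2 * ip c c)
    (dab : ip a a + ip b b = 2 * ip a b + 2) (dac : ip a a + ip c c = 2 * ip a c + 2)
    (dbc : ip b b + ip c c = 2 * ip b c + 2) :
    F (α • a + β • b + γ • c) ≤ S * nrm3 (α • a + β • b + γ • c) := by
  have f1 : F (α • a + β • b + γ • c) ≤ α * ta + β * tb + γ * tc := by
    have u1 := hF.1 (α • a + β • b) (γ • c)
    have u2 := hF.1 (α • a) (β • b)
    rw [hF.2 γ hγ] at u1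
    rw [hF.2 α hα, hF.2 β hβ] at u2
    have := mul_le_mul_of_nonneg_left ha hα
    have := mul_le_mul_of_nonneg_left hb hβ
    have := mul_le_mul_of_nonneg_left hc hγ
    linarith
  refine f1.trans ?_
  have hq := qf_eq (a := a) (b := b) (c := c) rfl rfl rfl rfl rfl rfl α β γ
  unfold nrm3
  rw [← hq, ← Real.sqrt_sq hS, ← Real.sqrt_mul (sq_nonneg S)]
  refine Real.le_sqrt_of_sq_le ?_
  have e1 : qf (ip a a) (ip b b) (ip c c) (ip a b) (ip a c) (ip b c) α β γ =
      α * ip a a + β * ip b b + γ * ip c c - 2 * (α * β + α * γ + β * γ) := by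
    have e : γ = 1 - α - β := by linarith
    have e2 : ip a b = (ip a a + ip b b - 2) / 2 := by linarith
    have e3 : ip a c = (ip a a + ip c c - 2) / 2 := by linarith
    have e4 : ip b c = (ip b b + ip c c - 2) / 2 := by linarith
    rw [e2, e3, e4, e]; unfold qf; ring
  have e2 : (α * ta + β * tb + γ * tc) ^ 2 ≤ α * ta ^ 2 + β * tb ^ 2 + γ * tc ^ 2 := by
    have : α * ta ^ 2 + β * tb ^ 2 + γ * tc ^ 2 - (α * ta + β * tb + γ * tc) ^ 2 =
        α * β * (ta - tb) ^ 2 + α * γ * (ta - tc) ^ 2 + β * γ * (tb - tc) ^ 2 := by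
      have e : γ = 1 - α - β := by linarith
      rw [e]; ring
    have : 0 ≤ α * β * (ta - tb) ^ 2 + α * γ * (ta - tc) ^ 2 + β * γ * (tb - tc) ^ 2 := by
      positivity
    linarith
  have e3 : α * β + α * γ + β * γ ≤ 1 / 3 := by
    have e : γ = 1 - α - β := by linarith
    rw [e]; nlinarith [sq_nonneg (α - β), sq_nonneg (α + β - 2 / 3)]
  have g1 := mul_le_mul_of_nonneg_left qa hα
  have g2 := mul_le_mul_of_nonneg_left qb hβ
  have g3 := mul_le_mul_of_nonneg_left qc hγ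
  have g4 := mul_le_mul_of_nonneg_left e3 (sq_nonneg S)
  have g5 : S ^ 2 * (α + β + γ) = S ^ 2 := by rw [h1, mul_one]
  rw [e1]
  linarith

/-- A grid point with signs. -/
def spt (s1 s2 s3 : Bool) (x y z : ℝ) : ℝ × ℝ × ℝ := (sg s1 * x, sg s2 * y, sg s3 * z)

theorem ip_spt (s1 s2 s3 : Bool) (x y z x' y' z' : ℝ) :
    ip (spt s1 s2 s3 x y z) (spt s1 s2 s3 x' y' z') = x * x' + y * y' + z * z' := by
  simp only [ip, spt]
  linear_combination x * x' * sg_sq s1 + y * y' * sg_sq s2 + z * z' * sg_sq s3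

theorem spt_comb (s1 s2 s3 : Bool) (α β γ x1 y1 z1 x2 y2 z2 x3 y3 z3 : ℝ) :
    α • spt s1 s2 s3 x1 y1 z1 + β • spt s1 s2 s3 x2 y2 z2 + γ • spt s1 s2 s3 x3 y3 z3 =
      spt s1 s2 s3 (α * x1 + β * x2 + γ * x3) (α * y1 + β * y2 + γ * y3)
        (α * z1 + β * z2 + γ * z3) := by
  simp only [spt, Prod.smul_mk, Prod.mk_add_mk, smul_eq_mul, Prod.mk.injEq]
  refine ⟨by ring, by ring, by ring⟩

/-- The grid condition on one octant. -/
def GridOK (F : ℝ × ℝ × ℝ → ℝ) (n : ℕ) (S : ℝ) (s1 s2 s3 : Bool) : Prop :=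
  ∀ i j k : ℕ, i + j + k = n → ∃ t : ℝ, F (spt s1 s2 s3 i j k) ≤ t ∧
    3 * t ^ 2 + 2 * S ^ 2 ≤ 3 * S ^ 2 * ip (spt s1 s2 s3 i j k) (spt s1 s2 s3 i j k)

theorem cover_face {F : ℝ × ℝ × ℝ → ℝ} (hF : SubL F) {S : ℝ} (hS : 0 ≤ S) {n : ℕ}
    {s1 s2 s3 : Bool} (h : GridOK F n S s1 s2 s3) {x y z : ℝ} (hx : 0 ≤ x) (hy : 0 ≤ y)
    (hz : 0 ≤ z) (hs : x + y + z = n) :
    F (spt s1 s2 s3 x y z) ≤ S * nrm3 (spt s1 s2 s3 x y z) := by
  have a1 := Nat.floor_le hx
  have a2 := Nat.lt_floor_add_one x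
  have b1 := Nat.floor_le hy
  have b2 := Nat.lt_floor_add_one y
  have c1 := Nat.floor_le hz
  have c2 := Nat.lt_floor_add_one z
  set i := ⌊x⌋₊
  set j := ⌊y⌋₊
  set k := ⌊z⌋₊
  have d1 : i + j + k ≤ n := by
    have : ((i + j + k : ℕ) : ℝ) ≤ n := by push_cast; linarith
    exact_mod_cast this
  have d2 : n < i + j + k + 3 := by
    have : (n : ℝ) < ((i + j + k + 3 : ℕ) : ℝ) := by push_cast; linarith
    exact_mod_cast this
  rcases (by omega : i + j + k = n ∨ i + j + k + 1 = n ∨ i + j + k + 2 = n) with e | e | e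
  · obtain ⟨t, t1, t2⟩ := h i j k e
    have e' : (i : ℝ) + j + k = n := by exact_mod_cast e
    have ex : x = i := by linarith
    have ey : y = j := by linarith
    have ez : z = k := by linarith
    rw [ex, ey, ez]
    refine t1.trans ?_
    unfold nrm3
    rw [← Real.sqrt_sq hS, ← Real.sqrt_mul (sq_nonneg S)]
    refine Real.le_sqrt_of_sq_le ?_
    simp only [ip] at t2
    nlinarith [sq_nonneg S]
  · obtain ⟨ta, a3, a4⟩ := h (i + 1) j k (by omega)
    obtain ⟨tb, b3, b4⟩ := h i (j + 1) k (by omega)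
    obtain ⟨tc, c3, c4⟩ := h i j (k + 1) (by omega)
    have e' : (i : ℝ) + j + k + 1 = n := by exact_mod_cast e
    have := three_pt hF hS (α := x - i) (β := y - j) (γ := z - k) (by linarith) (by linarith)
      (by linarith) (by linarith) a3 b3 c3 a4 b4 c4
      (by simp only [ip_spt]; push_cast; ring) (by simp only [ip_spt]; push_cast; ring)
      (by simp only [ip_spt]; push_cast; ring)
    rw [spt_comb] at this
    push_cast at this
    have h1 : x - i + (y - j) + (z - k) = 1 := by linarith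
    rwa [show (x - i) * (i + 1) + (y - j) * i + (z - k) * i = x by linear_combination i * h1,
      show (x - i) * j + (y - j) * (j + 1) + (z - k) * j = y by linear_combination j * h1,
      show (x - i) * k + (y - j) * k + (z - k) * (k + 1) = z by linear_combination k * h1] at this
  · obtain ⟨ta, a3, a4⟩ := h i (j + 1) (k + 1) (by omega)
    obtain ⟨tb, b3, b4⟩ := h (i + 1) j (k + 1) (by omega)
    obtain ⟨tc, c3, c4⟩ := h (i + 1) (j + 1) k (by omega)
    have e' : (i : ℝ) + j + k + 2 = n := by exact_mod_cast e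
    have := three_pt hF hS (α := i + 1 - x) (β := j + 1 - y) (γ := k + 1 - z) (by linarith)
      (by linarith) (by linarith) (by linarith) a3 b3 c3 a4 b4 c4
      (by simp only [ip_spt]; push_cast; ring) (by simp only [ip_spt]; push_cast; ring)
      (by simp only [ip_spt]; push_cast; ring)
    rw [spt_comb] at this
    push_cast at this
    have h1 : i + 1 - x + (j + 1 - y) + (k + 1 - z) = 1 := by linarith
    rwa [show (i + 1 - x) * i + (j + 1 - y) * (i + 1) + (k + 1 - z) * (i + 1) = x by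
        linear_combination (i + 1 : ℝ) * h1,
      show (i + 1 - x) * (j + 1) + (j + 1 - y) * j + (k + 1 - z) * (j + 1) = y by
        linear_combination (j + 1 : ℝ) * h1,
      show (i + 1 - x) * (k + 1) + (j + 1 - y) * (k + 1) + (k + 1 - z) * k = z by
        linear_combination (k + 1 : ℝ) * h1] at this

theorem nrm3_smul {t : ℝ} (ht : 0 ≤ t) (a : ℝ × ℝ × ℝ) : nrm3 (t • a) = t * nrm3 a := by
  unfold nrm3
  rw [← Real.sqrt_sq ht, ← Real.sqrt_mul (sq_nonneg t), Real.sqrt_sq ht]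
  congr 1
  simp only [Prod.smul_fst, Prod.smul_snd, smul_eq_mul]
  ring

theorem cover_all {F : ℝ × ℝ × ℝ → ℝ} (hF : SubL F) {S : ℝ} (hS : 0 ≤ S) {n : ℕ} (hn : 0 < n)
    (h : ∀ s1 s2 s3, GridOK F n S s1 s2 s3) (ξ : ℝ × ℝ × ℝ) : F ξ ≤ S * nrm3 ξ := by
  obtain ⟨s1, h1⟩ := exists_sg ξ.1
  obtain ⟨s2, h2⟩ := exists_sg ξ.2.1
  obtain ⟨s3, h3⟩ := exists_sg ξ.2.2
  set x := sg s1 * ξ.1 with hx
  set y := sg s2 * ξ.2.1 with hy
  set z := sg s3 * ξ.2.2 with hz
  have e : ξ = spt s1 s2 s3 x y z := by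
    obtain ⟨u, v, w⟩ := ξ
    simp only [spt, hx, hy, hz, Prod.mk.injEq]
    exact ⟨by linear_combination (-u) * sg_sq s1, by linear_combination (-v) * sg_sq s2,
      by linear_combination (-w) * sg_sq s3⟩
  have hn' : (0 : ℝ) < n := by exact_mod_cast hn
  rcases (by positivity : 0 ≤ x + y + z).eq_or_lt with h0 | h0
  · have : ξ = (0 : ℝ) • ξ := by
      rw [e, show x = 0 by linarith, show y = 0 by linarith, show z = 0 by linarith]
      simp [spt]
    rw [this, hF.2 0 le_rfl, nrm3_smul le_rfl]; simp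
  · have hc := cover_face hF hS (h s1 s2 s3) (x := n / (x + y + z) * x) (y := n / (x + y + z) * y)
      (z := n / (x + y + z) * z) (by positivity) (by positivity) (by positivity) (by field_simp)
    have e2 : spt s1 s2 s3 (n / (x + y + z) * x) (n / (x + y + z) * y) (n / (x + y + z) * z) =
        (n / (x + y + z)) • ξ := by
      rw [e]
      simp only [spt, Prod.smul_mk, smul_eq_mul, Prod.mk.injEq]
      refine ⟨by ring, by ring, by ring⟩
    have hp : 0 < n / (x + y + z) := by positivity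
    rw [e2, hF.2 _ hp.le, nrm3_smul hp.le, mul_left_comm] at hc
    exact le_of_mul_le_mul_left hc hp

end Pool.Agent.Lib.MP_ee7495_gt.X
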