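import Mathlib
import Pool.Agent.Lib.MP_ee7495_gt.X.Simd

set_option autoImplicit false

namespace Pool.Agent.Lib.MP_ee7495_gt.X

/-- Lanes of a linear form, shifted by `2 ^ 30`. -/
def lin (K I J M : ℕ) (s1 s2 s3 : Bool) (x y z : ℕ) : ℕ :=
  Nat.add (Nat.add (Nat.mul (fl K s1 x) I) (Nat.mul (fl K s2 y) J)) (Nat.mul (fl K s3 z) M)

/-- Lanes of a sum of positive parts. -/
noncomputable def acc (K I J M O : ℕ) (s1 s2 s3 : Bool) (L : BL) : ℕ :=
  BL.rec 0 (fun x y z _ ih =>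
    Nat.add (pp 30 (Nat.mul 1073741824 O) (lin K I J M s1 s2 s3 x y z)) ih) L

/-- Lanes of a group. -/
noncomputable def hook (K I J M O : ℕ) (s1 s2 s3 : Bool) (L : BL) : ℕ :=
  BL.rec 0 (fun x y z t _ => pp 32 (Nat.mul 4294967296 O)
    (Nat.add (Nat.add (lin K I J M s1 s2 s3 x y z) (Nat.mul 3221225472 O))
      (acc K I J M O s1 s2 s3 t))) L

/-- Strict range check for one coordinate. -/
def rg (K x : ℕ) : Bool := Nat.ble 1 x && Nat.ble (Nat.succ x) (Nat.mul 2 K)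

/-- Strict range check for a vector. -/
def rg3 (K x y z : ℕ) : Bool := rg K x && (rg K y && rg K z)

/-- Strict range check for a list. -/
noncomputable def okS (K : ℕ) (L : BL) : Bool :=
  BL.rec true (fun x y z _ ih => rg3 K x y z && ih) L

/-- Sum of the first coordinates. -/
noncomputable def sx (L : BL) : ℕ := BL.rec 0 (fun x _ _ _ ih => Nat.add x ih) L

/-- Sum of the second coordinates. -/
noncomputable def sy (L : BL) : ℕ := BL.rec 0 (fun _ y _ _ ih => Nat.add y ih) L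

/-- Sum of the third coordinates. -/
noncomputable def sz (L : BL) : ℕ := BL.rec 0 (fun _ _ z _ ih => Nat.add z ih) L

/-- Length. -/
noncomputable def ln (L : BL) : ℕ := BL.rec 0 (fun _ _ _ _ ih => Nat.succ ih) L

/-- A coordinate of the linear form used on the opposite octant. -/
def opp (K n s w : ℕ) : ℕ := Nat.sub (Nat.mul (Nat.add 2 n) K) (Nat.add s w)

/-- Scalar checks for one piece: `n` atoms whose coordinates add up to `a b c`. -/
def pcOK (K n a b c x y z : ℕ) : Bool :=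
  Nat.ble n 500 && (rg3 K x y z && rg3 K (opp K n a x) (opp K n b y) (opp K n c z))

/-- One piece on a pair of opposite octants. -/
def pc (K I J M O T : ℕ) (s1 s2 : Bool) (n a b c x y z B hp hm : ℕ) : Bool :=
  fin O T (Nat.add (lin K I J M s1 s2 true x y z) (Nat.add B hp)) &&
    fin O T (Nat.add (lin K I J M s1 s2 true (opp K n a x) (opp K n b y) (opp K n c z))
      (Nat.add B hm))

/-- Sum of four numbers. -/
def ad4 (a b c d : ℕ) : ℕ := Nat.add (Nat.add a b) (Nat.add c d)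

/-- The three pieces on a pair of opposite octants. -/
noncomputable def pair (K I J M O T x1 y1 z1 x2 y2 z2 x3 y3 z3 : ℕ)
    (L0 La Lb Lc L1 L2 L3 H3 H4 : BL) (s1 s2 : Bool) : Bool :=
  pc K I J M O T s1 s2 (ad4 (ln L0) (ln La) (ln Lc) (ln L1)) (ad4 (sx L0) (sx La) (sx Lc) (sx L1))
      (ad4 (sy L0) (sy La) (sy Lc) (sy L1)) (ad4 (sz L0) (sz La) (sz Lc) (sz L1)) x1 y1 z1
      (ad4 (acc K I J M O s1 s2 true L0) (acc K I J M O s1 s2 true La)
        (acc K I J M O s1 s2 true Lc) (acc K I J M O s1 s2 true L1))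
      (hook K I J M O s1 s2 true H4) (hook K I J M O (!s1) (!s2) false H4) &&
  (pc K I J M O T s1 s2 (ad4 (ln L0) (ln La) (ln Lb) (ln L2)) (ad4 (sx L0) (sx La) (sx Lb) (sx L2))
      (ad4 (sy L0) (sy La) (sy Lb) (sy L2)) (ad4 (sz L0) (sz La) (sz Lb) (sz L2)) x2 y2 z2
      (ad4 (acc K I J M O s1 s2 true L0) (acc K I J M O s1 s2 true La)
        (acc K I J M O s1 s2 true Lb) (acc K I J M O s1 s2 true L2))
      (Nat.add (hook K I J M O (!s1) (!s2) false H3) (hook K I J M O (!s1) (!s2) false H4))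
      (Nat.add (hook K I J M O s1 s2 true H3) (hook K I J M O s1 s2 true H4)) &&
  pc K I J M O T s1 s2 (ad4 (ln L0) (ln Lb) (ln Lc) (ln L3)) (ad4 (sx L0) (sx Lb) (sx Lc) (sx L3))
      (ad4 (sy L0) (sy Lb) (sy Lc) (sy L3)) (ad4 (sz L0) (sz Lb) (sz Lc) (sz L3)) x3 y3 z3
      (ad4 (acc K I J M O s1 s2 true L0) (acc K I J M O s1 s2 true Lb)
        (acc K I J M O s1 s2 true Lc) (acc K I J M O s1 s2 true L3))
      (hook K I J M O s1 s2 true H3) (hook K I J M O (!s1) (!s2) false H3))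

/-- Scalar checks. -/
noncomputable def scal (K x1 y1 z1 x2 y2 z2 x3 y3 z3 : ℕ) (L0 La Lb Lc L1 L2 L3 H3 H4 : BL) :
    Bool :=
  ((okS K L0 && (okS K La && (okS K Lb && okS K Lc))) &&
    ((okS K L1 && (okS K L2 && okS K L3)) &&
      ((okS K H3 && okS K H4) && (Nat.ble (ln H3) 4 && Nat.ble (ln H4) 4)))) &&
  (pcOK K (ad4 (ln L0) (ln La) (ln Lc) (ln L1)) (ad4 (sx L0) (sx La) (sx Lc) (sx L1))
      (ad4 (sy L0) (sy La) (sy Lc) (sy L1)) (ad4 (sz L0) (sz La) (sz Lc) (sz L1)) x1 y1 z1 &&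
  (pcOK K (ad4 (ln L0) (ln La) (ln Lb) (ln L2)) (ad4 (sx L0) (sx La) (sx Lb) (sx L2))
      (ad4 (sy L0) (sy La) (sy Lb) (sy L2)) (ad4 (sz L0) (sz La) (sz Lb) (sz L2)) x2 y2 z2 &&
  pcOK K (ad4 (ln L0) (ln Lb) (ln Lc) (ln L3)) (ad4 (sx L0) (sx Lb) (sx Lc) (sx L3))
      (ad4 (sy L0) (sy Lb) (sy Lc) (sy L3)) (ad4 (sz L0) (sz Lb) (sz Lc) (sz L3)) x3 y3 z3))

/-- The whole check. -/
noncomputable def triOK (K I J M O T x1 y1 z1 x2 y2 z2 x3 y3 z3 : ℕ)
    (L0 La Lb Lc L1 L2 L3 H3 H4 : BL) : Bool :=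
  scal K x1 y1 z1 x2 y2 z2 x3 y3 z3 L0 La Lb Lc L1 L2 L3 H3 H4 &&
  ((pair K I J M O T x1 y1 z1 x2 y2 z2 x3 y3 z3 L0 La Lb Lc L1 L2 L3 H3 H4 true true &&
    pair K I J M O T x1 y1 z1 x2 y2 z2 x3 y3 z3 L0 La Lb Lc L1 L2 L3 H3 H4 true false) &&
  (pair K I J M O T x1 y1 z1 x2 y2 z2 x3 y3 z3 L0 La Lb Lc L1 L2 L3 H3 H4 false true &&
    pair K I J M O T x1 y1 z1 x2 y2 z2 x3 y3 z3 L0 La Lb Lc L1 L2 L3 H3 H4 false false))

/-- Correct tables over the list `l` of all points of level `n`. -/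
structure Tabs (K S I J M O T n : ℕ) (l : List Pt) (th : Pt → ℕ) : Prop where
  hK : K * n = 2 ^ 30
  mem : ∀ i j k, i + j + k = n → (i, j, k) ∈ l
  lev : ∀ a ∈ l, a.1 + a.2.1 + a.2.2 = n
  thb : ∀ a ∈ l, th a ≤ 2 ^ 38
  ths : ∀ a ∈ l, 3 * th a ^ 2 + 2 * S ^ 2 ≤ 3 * S ^ 2 * (a.1 ^ 2 + a.2.1 ^ 2 + a.2.2 ^ 2)
  hI : I = pk (fun a => a.1) l
  hJ : J = pk (fun a => a.2.1) l
  hM : M = pk (fun a => a.2.2) l
  hO : O = pk (fun _ => 1) l
  hT : T = pk th l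

/-- The number `X` packs the values of `F`, all at most `U`. -/
def Rep (l : List Pt) (X U : ℕ) (F : Pt → ℝ) : Prop :=
  ∃ f : Pt → ℕ, X = pk f l ∧ ∀ a ∈ l, f a ≤ U ∧ (f a : ℝ) = F a

/-- A grid point as a real point of an octant. -/
def gp (s1 s2 s3 : Bool) (a : Pt) : ℝ × ℝ × ℝ := spt s1 s2 s3 a.1 a.2.1 a.2.2

theorem Rep.add {l : List Pt} {X Y U V : ℕ} {F G : Pt → ℝ} (h1 : Rep l X U F)
    (h2 : Rep l Y V G) : Rep l (Nat.add X Y) (U + V) (fun a => F a + G a) := by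
  obtain ⟨f, rfl, hf⟩ := h1
  obtain ⟨g, rfl, hg⟩ := h2
  exact ⟨_, pk_add f g l, fun a ha => ⟨Nat.add_le_add (hf a ha).1 (hg a ha).1, by
    rw [Nat.cast_add, (hf a ha).2, (hg a ha).2]⟩⟩

theorem Rep.mono {l : List Pt} {X U V : ℕ} {F G : Pt → ℝ} (h : Rep l X U F) (hU : U ≤ V)
    (hF : ∀ a, F a = G a) : Rep l X V G := by
  obtain ⟨f, rfl, hf⟩ := h
  exact ⟨f, rfl, fun a ha => ⟨(hf a ha).1.trans hU, (hf a ha).2.trans (hF a)⟩⟩

theorem Rep.pp {l : List Pt} {X U s c : ℕ} {F : Pt → ℝ} (h : Rep l X U F) (hs : s < 40)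
    (hU : U < 2 ^ (s + 1)) (hc : c = 2 ^ s) :
    Rep l (pp s (Nat.mul c (pk (fun _ => 1) l)) X) c (fun a => max 0 (F a - c)) := by
  obtain ⟨f, rfl, hf⟩ := h
  subst hc
  refine ⟨_, pp_spec hs (fun a ha => lt_of_le_of_lt (hf a ha).1 hU), fun a ha => ⟨?_, ?_⟩⟩
  · have := (hf a ha).1
    rw [pow_succ] at hU
    omega
  · simp only []
    rw [← (hf a ha).2]
    rcases le_total (2 ^ s) (f a) with hc | hc
    · rw [Nat.cast_sub hc, max_eq_right]
      exact sub_nonneg.2 (by exact_mod_cast hc)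
    · rw [Nat.sub_eq_zero_of_le hc, max_eq_left]
      · simp
      · exact sub_nonpos.2 (by exact_mod_cast hc)

theorem rep_zero (l : List Pt) : Rep l 0 0 (fun _ => 0) :=
  ⟨fun _ => 0, (pk_zero l).symm, fun _ _ => ⟨le_rfl, by simp⟩⟩

theorem rep_const (l : List Pt) (c : ℕ) :
    Rep l (Nat.mul c (pk (fun _ => 1) l)) c (fun _ => c) :=
  ⟨_, pk_mul c _ l, fun _ _ => ⟨by simp, by simp⟩⟩

theorem rg_spec {K x : ℕ} (h : rg K x = true) : 1 ≤ x ∧ x + 1 ≤ 2 * K := by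
  simpa [rg] using h

theorem rg3_spec {K x y z : ℕ} (h : rg3 K x y z = true) :
    (1 ≤ x ∧ x + 1 ≤ 2 * K) ∧ (1 ≤ y ∧ y + 1 ≤ 2 * K) ∧ (1 ≤ z ∧ z + 1 ≤ 2 * K) := by
  simp only [rg3, Bool.and_eq_true] at h
  exact ⟨rg_spec h.1, rg_spec h.2.1, rg_spec h.2.2⟩

theorem fl_lt {K x : ℕ} (s : Bool) (h : 1 ≤ x ∧ x + 1 ≤ 2 * K) : fl K s x + 1 ≤ 2 * K := by
  cases s
  · simp only [fl, cond_false, Nat.sub_eq, Nat.mul_eq]; omega
  · exact h.2

section

variable {K S I J M O T n : ℕ} {l : List Pt} {th : Pt → ℕ}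

theorem Tabs.lin (h : Tabs K S I J M O T n l th) (s1 s2 s3 : Bool) {x y z : ℕ}
    (hr : rg3 K x y z = true) : Rep l (lin K I J M s1 s2 s3 x y z) (2 ^ 31 - 1)
      (fun a => 2 ^ 30 + ev K x y z (gp s1 s2 s3 a)) := by
  obtain ⟨r1, r2, r3⟩ := rg3_spec hr
  refine ⟨_, by rw [X.lin, h.hI, h.hJ, h.hM, pk_mul, pk_mul, pk_mul, pk_add, pk_add],
    fun a ha => ⟨?_, ?_⟩⟩
  · have b1 := Nat.mul_le_mul_right a.1 (fl_lt s1 r1)
    have b2 := Nat.mul_le_mul_right a.2.1 (fl_lt s2 r2)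
    have b3 := Nat.mul_le_mul_right a.2.2 (fl_lt s3 r3)
    have e := h.lev a ha
    have k := h.hK
    have hn : 0 < n := Nat.pos_of_ne_zero (by rintro rfl; simp at k)
    have k2 : 2 * K * a.1 + 2 * K * a.2.1 + 2 * K * a.2.2 = 2 ^ 31 := by
      rw [← mul_add, ← mul_add, e, mul_assoc, k]; norm_num
    rw [add_mul, one_mul] at b1 b2 b3
    omega
  · have c1 := fl_cast s1 (show x ≤ 2 * K by omega)
    have c2 := fl_cast s2 (show y ≤ 2 * K by omega)
    have c3 := fl_cast s3 (show z ≤ 2 * K by omega)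
    have e : (a.1 : ℝ) + a.2.1 + a.2.2 = n := by exact_mod_cast h.lev a ha
    have k : (K : ℝ) * n = 2 ^ 30 := by exact_mod_cast h.hK
    simp only [ev, gp, spt]
    push_cast
    linear_combination a.1 * c1 + a.2.1 * c2 + a.2.2 * c3 + K * e + k

theorem okS_cons {K x y z : ℕ} {t : BL} (h : okS K (BL.cons x y z t) = true) :
    rg3 K x y z = true ∧ okS K t = true := by
  have e : okS K (BL.cons x y z t) = (rg3 K x y z && okS K t) := rfl
  rwa [e, Bool.and_eq_true] at h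

theorem Tabs.acc (h : Tabs K S I J M O T n l th) (s1 s2 s3 : Bool) {L : BL}
    (hL : okS K L = true) : Rep l (acc K I J M O s1 s2 s3 L) (ln L * 2 ^ 30)
      (fun a => sumB K (gp s1 s2 s3 a) L) := by
  induction L with
  | nil => exact (rep_zero l).mono (Nat.zero_le _) (fun _ => rfl)
  | cons x y z t ih =>
    obtain ⟨h1, h2⟩ := okS_cons hL
    have e : X.acc K I J M O s1 s2 s3 (BL.cons x y z t) = Nat.add
      (pp 30 (Nat.mul 1073741824 O) (X.lin K I J M s1 s2 s3 x y z)) (X.acc K I J M O s1 s2 s3 t) :=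
      rfl
    have e2 : ln (BL.cons x y z t) = ln t + 1 := rfl
    have := (h.lin s1 s2 s3 h1).pp (s := 30) (c := 1073741824) (by norm_num) (by norm_num)
      (by norm_num)
    rw [← h.hO] at this
    rw [e, e2]
    refine (this.add (ih h2)).mono (by omega) (fun a => ?_)
    simp only [sumB]
    norm_num

theorem Tabs.hook (h : Tabs K S I J M O T n l th) (s1 s2 s3 : Bool) {L : BL}
    (hL : okS K L = true) (hn : ln L ≤ 4) : Rep l (hook K I J M O s1 s2 s3 L) (2 ^ 32)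
      (fun a => hookB K (gp s1 s2 s3 a) L) := by
  cases L with
  | nil => exact (rep_zero l).mono (Nat.zero_le _) (fun _ => rfl)
  | cons x y z t =>
    obtain ⟨h1, h2⟩ := okS_cons hL
    have e : X.hook K I J M O s1 s2 s3 (BL.cons x y z t) = pp 32 (Nat.mul 4294967296 O)
      (Nat.add (Nat.add (X.lin K I J M s1 s2 s3 x y z) (Nat.mul 3221225472 O))
        (X.acc K I J M O s1 s2 s3 t)) := rfl
    have e2 : ln (BL.cons x y z t) = ln t + 1 := rfl
    have := (((h.lin s1 s2 s3 h1).add (rep_const l 3221225472)).add (h.acc s1 s2 s3 h2)).pp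
      (s := 32) (c := 4294967296) (by norm_num) (by omega) (by norm_num)
    rw [← h.hO] at this
    rw [e]
    refine this.mono (by norm_num) (fun a => ?_)
    simp only [hookB]
    congr 1
    push_cast
    ring

theorem Tabs.fin (h : Tabs K S I J M O T n l th) {A U : ℕ} {F : Pt → ℝ} (hA : Rep l A U F)
    (hU : U ≤ 2 ^ 39) (hf : fin O T A = true) : ∀ a ∈ l, F a ≤ th a + 2 ^ 30 := by
  obtain ⟨f, rfl, hf'⟩ := hA
  rw [h.hO, h.hT] at hf
  intro a ha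
  have := fin_spec (fun a ha => (hf' a ha).1.trans hU) h.thb hf a ha
  rw [← (hf' a ha).2]
  exact_mod_cast this

theorem Tabs.grid (h : Tabs K S I J M O T n l th) {F : ℝ × ℝ × ℝ → ℝ} {s1 s2 s3 : Bool}
    (hF : ∀ a ∈ l, F (gp s1 s2 s3 a) ≤ th a) : GridOK F n S s1 s2 s3 := by
  intro i j k e
  refine ⟨th (i, j, k), hF _ (h.mem i j k e), ?_⟩
  have := h.ths _ (h.mem i j k e)
  rw [ip_spt, ← sq, ← sq, ← sq]
  exact_mod_cast this

theorem gp_neg (s1 s2 : Bool) (a : Pt) : gp (!s1) (!s2) false a = -gp s1 s2 true a := by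
  cases s1 <;> cases s2 <;> simp [gp, spt, sg]

theorem sumB_neg (K : ℕ) (ξ : ℝ × ℝ × ℝ) (L : BL) :
    sumB K (-ξ) L = sumB K ξ L - ev (ln L * K) (sx L) (sy L) (sz L) ξ := by
  induction L with
  | nil =>
    have e : ev (ln BL.nil * K) (sx BL.nil) (sy BL.nil) (sz BL.nil) ξ = ev (0 * K) 0 0 0 ξ := rfl
    rw [e]; simp [sumB, ev]
  | cons x y z t ih =>
    have e : ev (ln (BL.cons x y z t) * K) (sx (BL.cons x y z t)) (sy (BL.cons x y z t))
      (sz (BL.cons x y z t)) ξ = ev ((ln t + 1) * K) (x + sx t) (y + sy t) (z + sz t) ξ := rfl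
    have e1 : ev K x y z (-ξ) = -ev K x y z ξ := by simp only [ev, Prod.fst_neg, Prod.snd_neg]; ring
    have e2 : max 0 (-ev K x y z ξ) = max 0 (ev K x y z ξ) - ev K x y z ξ := by
      rcases le_total 0 (ev K x y z ξ) with hc | hc
      · rw [max_eq_left (by linarith), max_eq_right hc, sub_self]
      · rw [max_eq_right (by linarith), max_eq_left hc, zero_sub]
    rw [e]
    simp only [sumB, ih, e1, e2]
    simp only [ev]
    push_cast
    ring

theorem opp_cast {K m s w : ℕ} (h : 1 ≤ opp K m s w) :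
    ((opp K m s w : ℕ) : ℝ) = (2 + m) * K - (s + w) := by
  simp only [opp, Nat.sub_eq, Nat.mul_eq, Nat.add_eq] at h ⊢
  rw [Nat.cast_sub (by omega)]
  push_cast
  ring

theorem Tabs.pc (h : Tabs K S I J M O T n l th) {s1 s2 : Bool} {m a b c x y z B hp hm : ℕ}
    {G H : ℝ × ℝ × ℝ → ℝ} (h0 : pcOK K m a b c x y z = true)
    (h1 : pc K I J M O T s1 s2 m a b c x y z B hp hm = true)
    (hB : Rep l B (m * 2 ^ 30) (fun p => G (gp s1 s2 true p)))
    (hG : ∀ ξ, G (-ξ) = G ξ - ev (m * K) a b c ξ)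
    (hhp : Rep l hp (2 ^ 33) (fun p => H (gp s1 s2 true p)))
    (hhm : Rep l hm (2 ^ 33) (fun p => H (gp (!s1) (!s2) false p))) :
    GridOK (fun ξ => ev K x y z ξ + G ξ + H ξ) n S s1 s2 true ∧
      GridOK (fun ξ => ev K x y z ξ + G ξ + H ξ) n S (!s1) (!s2) false := by
  simp only [pcOK, Bool.and_eq_true, Nat.ble_eq] at h0
  obtain ⟨k1, k2, k3⟩ := h0
  simp only [X.pc, Bool.and_eq_true] at h1
  have u1 := h.fin ((h.lin s1 s2 true k2).add (hB.add hhp)) (by omega) h1.1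
  have u2 := h.fin ((h.lin s1 s2 true k3).add (hB.add hhm)) (by omega) h1.2
  refine ⟨h.grid (fun p hp => by linarith [u1 p hp]), h.grid (fun p hp => ?_)⟩
  have u3 := u2 p hp
  obtain ⟨r1, r2, r3⟩ := rg3_spec k3
  have e : ev K (opp K m a x) (opp K m b y) (opp K m c z) (gp s1 s2 true p) =
      ev K x y z (-gp s1 s2 true p) - ev (m * K) a b c (gp s1 s2 true p) := by
    simp only [ev, opp_cast r1.1, opp_cast r2.1, opp_cast r3.1, Prod.fst_neg, Prod.snd_neg]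
    push_cast
    ring
  simp only [gp_neg] at u3 ⊢
  rw [hG]
  linarith

/-- Sum of the positive parts over four lists. -/
noncomputable def sum4 (K : ℕ) (A B C D : BL) (ξ : ℝ × ℝ × ℝ) : ℝ :=
  (sumB K ξ A + sumB K ξ B) + (sumB K ξ C + sumB K ξ D)

theorem subL_sum4 (K : ℕ) (A B C D : BL) : SubL (sum4 K A B C D) :=
  ((subL_sumB K A).add (subL_sumB K B)).add ((subL_sumB K C).add (subL_sumB K D))

theorem sum4_neg (K : ℕ) (A B C D : BL) (ξ : ℝ × ℝ × ℝ) :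
    sum4 K A B C D (-ξ) = sum4 K A B C D ξ - ev (ad4 (ln A) (ln B) (ln C) (ln D) * K)
      (ad4 (sx A) (sx B) (sx C) (sx D)) (ad4 (sy A) (sy B) (sy C) (sy D))
      (ad4 (sz A) (sz B) (sz C) (sz D)) ξ := by
  simp only [sum4, sumB_neg, ad4, ev, Nat.add_eq]
  push_cast
  ring

theorem Tabs.acc4 (h : Tabs K S I J M O T n l th) (s1 s2 s3 : Bool) {A B C D : BL}
    (hA : okS K A = true) (hB : okS K B = true) (hC : okS K C = true) (hD : okS K D = true) :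
    Rep l (ad4 (X.acc K I J M O s1 s2 s3 A) (X.acc K I J M O s1 s2 s3 B)
      (X.acc K I J M O s1 s2 s3 C) (X.acc K I J M O s1 s2 s3 D))
      (ad4 (ln A) (ln B) (ln C) (ln D) * 2 ^ 30) (fun p => sum4 K A B C D (gp s1 s2 s3 p)) :=
  (((h.acc s1 s2 s3 hA).add (h.acc s1 s2 s3 hB)).add
    ((h.acc s1 s2 s3 hC).add (h.acc s1 s2 s3 hD))).mono
    (by simp only [ad4, Nat.add_eq]; omega) (fun _ => rfl)

theorem grid_all {F : ℝ × ℝ × ℝ → ℝ} {R : ℝ}
    (h : ∀ s1 s2, GridOK F n R s1 s2 true ∧ GridOK F n R (!s1) (!s2) false) (s1 s2 s3 : Bool) :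
    GridOK F n R s1 s2 s3 := by
  cases s3
  · simpa using (h (!s1) (!s2)).2
  · exact (h s1 s2).1

/-- Soundness of the check of the three pieces. -/
theorem Tabs.triOK_sound (h : Tabs K S I J M O T n l th) {x1 y1 z1 x2 y2 z2 x3 y3 z3 : ℕ}
    {L0 La Lb Lc L1 L2 L3 H3 H4 : BL}
    (hc : triOK K I J M O T x1 y1 z1 x2 y2 z2 x3 y3 z3 L0 La Lb Lc L1 L2 L3 H3 H4 = true)
    (ξ : ℝ × ℝ × ℝ) :
    ev K x1 y1 z1 ξ + sum4 K L0 La Lc L1 ξ + hookB K ξ H4 ≤ S * nrm3 ξ ∧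
    ev K x2 y2 z2 ξ + sum4 K L0 La Lb L2 ξ + (hookB K (-ξ) H3 + hookB K (-ξ) H4) ≤ S * nrm3 ξ ∧
    ev K x3 y3 z3 ξ + sum4 K L0 Lb Lc L3 ξ + hookB K ξ H3 ≤ S * nrm3 ξ := by
  simp only [triOK, scal, Bool.and_eq_true, Nat.ble_eq] at hc
  obtain ⟨⟨⟨⟨o0, oa, ob, oc⟩, ⟨o1, o2, o3⟩, ⟨q3, q4⟩, n3, n4⟩, c1, c2, c3⟩, ⟨p1, p2⟩, p3, p4⟩ := hc
  have hp : ∀ s1 s2, pair K I J M O T x1 y1 z1 x2 y2 z2 x3 y3 z3 L0 La Lb Lc L1 L2 L3 H3 H4 s1 s2 =
      true := by
    intro s1 s2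
    cases s1 <;> cases s2 <;> assumption
  simp only [pair, Bool.and_eq_true] at hp
  have hn : 0 < n := Nat.pos_of_ne_zero (by
    rintro rfl
    have := h.hK
    simp at this)
  have hS : (0 : ℝ) ≤ S := Nat.cast_nonneg S
  have w : 2 ^ 32 ≤ 2 ^ 33 := by norm_num
  refine ⟨?_, ?_, ?_⟩
  · exact cover_all (((subL_ev K x1 y1 z1).add (subL_sum4 K L0 La Lc L1)).add (subL_hookB K H4))
      hS hn (grid_all (fun s1 s2 => h.pc (H := fun ξ => hookB K ξ H4) c1 (hp s1 s2).1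
        (h.acc4 s1 s2 true o0 oa oc o1) (sum4_neg K _ _ _ _)
        ((h.hook _ _ _ q4 n4).mono w (fun _ => rfl))
        ((h.hook _ _ _ q4 n4).mono w (fun _ => rfl)))) ξ
  · exact cover_all (((subL_ev K x2 y2 z2).add (subL_sum4 K L0 La Lb L2)).add
      ((subL_hookB K H3).neg.add (subL_hookB K H4).neg))
      hS hn (grid_all (fun s1 s2 => h.pc (H := fun ξ => hookB K (-ξ) H3 + hookB K (-ξ) H4) c2
        (hp s1 s2).2.1 (h.acc4 s1 s2 true o0 oa ob o2) (sum4_neg K _ _ _ _)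
        (((h.hook _ _ _ q3 n3).add (h.hook _ _ _ q4 n4)).mono (by norm_num)
          (fun _ => by simp only [gp_neg]))
        (((h.hook _ _ _ q3 n3).add (h.hook _ _ _ q4 n4)).mono (by norm_num)
          (fun _ => by simp only [gp_neg, neg_neg])))) ξ
  · exact cover_all (((subL_ev K x3 y3 z3).add (subL_sum4 K L0 Lb Lc L3)).add (subL_hookB K H3))
      hS hn (grid_all (fun s1 s2 => h.pc (H := fun ξ => hookB K ξ H3) c3 (hp s1 s2).2.2
        (h.acc4 s1 s2 true o0 ob oc o3) (sum4_neg K _ _ _ _)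
        ((h.hook _ _ _ q3 n3).mono w (fun _ => rfl))
        ((h.hook _ _ _ q3 n3).mono w (fun _ => rfl)))) ξ

end

end Pool.Agent.Lib.MP_ee7495_gt.X
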