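import Mathlib
import Pool.Agent.Lib.MP_ee7495_gt.X.Simd2

set_option autoImplicit false

namespace Pool.Agent.Lib.MP_ee7495_gt.X

/-- A row of grid points. -/
def rowL (n i : ℕ) : ℕ → List Pt
  | 0 => []
  | j + 1 => (i, j, n - i - j) :: rowL n i j

/-- The first rows of the grid. -/
def triL (n : ℕ) : ℕ → List Pt
  | 0 => []
  | i + 1 => rowL n i (n + 1 - i) ++ triL n i

/-- Packed values on a row. -/
noncomputable def rowE (f : ℕ → ℕ → ℕ → ℕ) (n i m : ℕ) : ℕ :=
  Nat.rec 0 (fun j ih => Nat.add (Nat.shiftLeft ih 40) (f i j (Nat.sub (Nat.sub n i) j))) m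

/-- Packed values on the first rows. -/
noncomputable def triE (f : ℕ → ℕ → ℕ → ℕ) (n m : ℕ) : ℕ :=
  Nat.rec 0 (fun i ih => Nat.add (Nat.shiftLeft ih (Nat.mul 40 (Nat.sub (Nat.succ n) i)))
    (rowE f n i (Nat.sub (Nat.succ n) i))) m

/-- A test on a row. -/
noncomputable def rowA (p : ℕ → ℕ → ℕ → Bool) (n i m : ℕ) : Bool :=
  Nat.rec true (fun j ih => p i j (Nat.sub (Nat.sub n i) j) && ih) m

/-- A test on the first rows. -/
noncomputable def triA (p : ℕ → ℕ → ℕ → Bool) (n m : ℕ) : Bool :=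
  Nat.rec true (fun i ih => rowA p n i (Nat.sub (Nat.succ n) i) && ih) m

theorem rowL_length (n i m : ℕ) : (rowL n i m).length = m := by
  induction m with
  | zero => rfl
  | succ m ih => simp [rowL, ih]

theorem rowE_eq (f : ℕ → ℕ → ℕ → ℕ) (n i m : ℕ) :
    rowE f n i m = pk (fun a => f a.1 a.2.1 a.2.2) (rowL n i m) := by
  induction m with
  | zero => rfl
  | succ m ih =>
    have e : rowE f n i (m + 1) = (rowE f n i m) <<< 40 + f i m (n - i - m) := rfl
    rw [e, ih, Nat.shiftLeft_eq, mul_comm]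
    rfl

theorem triE_eq (f : ℕ → ℕ → ℕ → ℕ) (n m : ℕ) :
    triE f n m = pk (fun a => f a.1 a.2.1 a.2.2) (triL n m) := by
  induction m with
  | zero => rfl
  | succ m ih =>
    have e : triE f n (m + 1) = (triE f n m) <<< (40 * (n + 1 - m)) + rowE f n m (n + 1 - m) := rfl
    rw [e, ih, Nat.shiftLeft_eq, mul_comm, rowE_eq, triL, pk_append, rowL_length]

theorem rowA_spec {p : ℕ → ℕ → ℕ → Bool} {n i m : ℕ} (h : rowA p n i m = true) :
    ∀ a ∈ rowL n i m, p a.1 a.2.1 a.2.2 = true := by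
  induction m with
  | zero => intro a ha; cases ha
  | succ m ih =>
    have e : rowA p n i (m + 1) = (p i m (n - i - m) && rowA p n i m) := rfl
    rw [e, Bool.and_eq_true] at h
    intro a ha
    rcases List.mem_cons.1 ha with rfl | ha
    · exact h.1
    · exact ih h.2 a ha

theorem triA_spec {p : ℕ → ℕ → ℕ → Bool} {n m : ℕ} (h : triA p n m = true) :
    ∀ a ∈ triL n m, p a.1 a.2.1 a.2.2 = true := by
  induction m with
  | zero => intro a ha; cases ha
  | succ m ih =>
    have e : triA p n (m + 1) = (rowA p n m (n + 1 - m) && triA p n m) := rfl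
    rw [e, Bool.and_eq_true] at h
    intro a ha
    rcases List.mem_append.1 ha with ha | ha
    · exact rowA_spec h.1 a ha
    · exact ih h.2 a ha

theorem mem_rowL {n i j m : ℕ} (h : j < m) : (i, j, n - i - j) ∈ rowL n i m := by
  induction m with
  | zero => omega
  | succ m ih =>
    rcases Nat.lt_succ_iff_lt_or_eq.1 h with h | rfl
    · exact List.mem_cons_of_mem _ (ih h)
    · exact List.mem_cons_self

theorem mem_triL {n i j m : ℕ} (h : i < m) (hj : i + j ≤ n) : (i, j, n - i - j) ∈ triL n m := by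
  induction m with
  | zero => omega
  | succ m ih =>
    rcases Nat.lt_succ_iff_lt_or_eq.1 h with h | rfl
    · exact List.mem_append_right _ (ih h)
    · exact List.mem_append_left _ (mem_rowL (by omega))

/-- Sum of three squares. -/
def sq3 (x y z : ℕ) : ℕ := Nat.add (Nat.add (Nat.mul x x) (Nat.mul y y)) (Nat.mul z z)

/-- One Newton step. -/
def nw (x y : ℕ) : ℕ := Nat.div (Nat.add y (Nat.div x y)) 2

/-- The threshold at a grid point. -/
def thF (S n x y z : ℕ) : ℕ :=
  (fun u => Nat.sub (nw u (nw u (nw u (nw u (nw u (nw u (nw u (Nat.mul S n)))))))) 1)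
    (Nat.div (Nat.mul (Nat.mul S S) (Nat.sub (Nat.mul 3 (sq3 x y z)) 2)) 3)

/-- The test at a grid point. -/
def thOK (S n x y z : ℕ) : Bool :=
  Nat.beq (Nat.add (Nat.add x y) z) n && (Nat.ble (thF S n x y z) 274877906944 &&
    Nat.ble (Nat.add (Nat.mul 3 (Nat.mul (thF S n x y z) (thF S n x y z)))
      (Nat.mul 2 (Nat.mul S S))) (Nat.mul (Nat.mul 3 (Nat.mul S S)) (sq3 x y z)))

theorem tabs_of {K S I J M O T n : ℕ} (hK : Nat.beq (Nat.mul K n) 1073741824 = true)
    (hA : triA (thOK S n) n (Nat.succ n) = true)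
    (hI : Nat.beq I (triE (fun x _ _ => x) n (Nat.succ n)) = true)
    (hJ : Nat.beq J (triE (fun _ y _ => y) n (Nat.succ n)) = true)
    (hM : Nat.beq M (triE (fun _ _ z => z) n (Nat.succ n)) = true)
    (hO : Nat.beq O (triE (fun _ _ _ => 1) n (Nat.succ n)) = true)
    (hT : Nat.beq T (triE (thF S n) n (Nat.succ n)) = true) :
    Tabs K S I J M O T n (triL n (n + 1)) (fun a => thF S n a.1 a.2.1 a.2.2) := by
  rw [Nat.beq_eq] at hK hI hJ hM hO hT
  rw [triE_eq] at hI hJ hM hO hT
  have hA' := triA_spec hA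
  simp only [thOK, Bool.and_eq_true, Nat.beq_eq, Nat.ble_eq, sq3, Nat.add_eq, Nat.mul_eq] at hA'
  refine ⟨hK, fun i j k e => ?_, fun a ha => (hA' a ha).1, fun a ha => (hA' a ha).2.1,
    fun a ha => ?_, hI, hJ, hM, hO, hT⟩
  · rw [show k = n - i - j by omega]
    exact mem_triL (by omega) (by omega)
  · simpa only [sq] using (hA' a ha).2.2

end Pool.Agent.Lib.MP_ee7495_gt.X
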