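import Mathlib
import Pool.Agent.Lib.MP_ee7495_gt.X.Simd3
import Pool.Agent.Lib.MP_ee7495_gt.X.Tab128
import Pool.Agent.Lib.MP_ee7495_gt.Y.TrA

-- part Pool.Agent.Lib.MP_ee7495_gt.X.Cut
section

set_option autoImplicit false

open Finset

namespace Pool.Agent.Lib.MP_ee7495_gt.X

/-- The three pieces on a pair of opposite octants, one group on each piece. -/
noncomputable def pair2 (K I J M O T x1 y1 z1 x2 y2 z2 x3 y3 z3 : ℕ)
    (L0 La Lb Lc L1 L2 L3 H1 H2 H3 : BL) (s1 s2 : Bool) : Bool :=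
  pc K I J M O T s1 s2 (ad4 (ln L0) (ln La) (ln Lc) (ln L1)) (ad4 (sx L0) (sx La) (sx Lc) (sx L1))
      (ad4 (sy L0) (sy La) (sy Lc) (sy L1)) (ad4 (sz L0) (sz La) (sz Lc) (sz L1)) x1 y1 z1
      (ad4 (acc K I J M O s1 s2 true L0) (acc K I J M O s1 s2 true La)
        (acc K I J M O s1 s2 true Lc) (acc K I J M O s1 s2 true L1))
      (hook K I J M O s1 s2 true H1) (hook K I J M O (!s1) (!s2) false H1) &&
  (pc K I J M O T s1 s2 (ad4 (ln L0) (ln La) (ln Lb) (ln L2)) (ad4 (sx L0) (sx La) (sx Lb) (sx L2))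
      (ad4 (sy L0) (sy La) (sy Lb) (sy L2)) (ad4 (sz L0) (sz La) (sz Lb) (sz L2)) x2 y2 z2
      (ad4 (acc K I J M O s1 s2 true L0) (acc K I J M O s1 s2 true La)
        (acc K I J M O s1 s2 true Lb) (acc K I J M O s1 s2 true L2))
      (hook K I J M O s1 s2 true H2) (hook K I J M O (!s1) (!s2) false H2) &&
  pc K I J M O T s1 s2 (ad4 (ln L0) (ln Lb) (ln Lc) (ln L3)) (ad4 (sx L0) (sx Lb) (sx Lc) (sx L3))
      (ad4 (sy L0) (sy Lb) (sy Lc) (sy L3)) (ad4 (sz L0) (sz Lb) (sz Lc) (sz L3)) x3 y3 z3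
      (ad4 (acc K I J M O s1 s2 true L0) (acc K I J M O s1 s2 true Lb)
        (acc K I J M O s1 s2 true Lc) (acc K I J M O s1 s2 true L3))
      (hook K I J M O s1 s2 true H3) (hook K I J M O (!s1) (!s2) false H3))

/-- The whole check. -/
noncomputable def tri2OK (K I J M O T x1 y1 z1 x2 y2 z2 x3 y3 z3 : ℕ)
    (L0 La Lb Lc L1 L2 L3 H1 H2 H3 : BL) : Bool :=
  (scal K x1 y1 z1 x2 y2 z2 x3 y3 z3 L0 La Lb Lc L1 L2 L3 H1 H2 &&
    (okS K H3 && Nat.ble (ln H3) 4)) &&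
  ((pair2 K I J M O T x1 y1 z1 x2 y2 z2 x3 y3 z3 L0 La Lb Lc L1 L2 L3 H1 H2 H3 true true &&
    pair2 K I J M O T x1 y1 z1 x2 y2 z2 x3 y3 z3 L0 La Lb Lc L1 L2 L3 H1 H2 H3 true false) &&
  (pair2 K I J M O T x1 y1 z1 x2 y2 z2 x3 y3 z3 L0 La Lb Lc L1 L2 L3 H1 H2 H3 false true &&
    pair2 K I J M O T x1 y1 z1 x2 y2 z2 x3 y3 z3 L0 La Lb Lc L1 L2 L3 H1 H2 H3 false false))

theorem Tabs.tri2OK_sound {K S I J M O T n : ℕ} {l : List Pt} {th : Pt → ℕ}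
    (h : Tabs K S I J M O T n l th) {x1 y1 z1 x2 y2 z2 x3 y3 z3 : ℕ}
    {L0 La Lb Lc L1 L2 L3 H1 H2 H3 : BL}
    (hc : tri2OK K I J M O T x1 y1 z1 x2 y2 z2 x3 y3 z3 L0 La Lb Lc L1 L2 L3 H1 H2 H3 = true)
    (ξ : ℝ × ℝ × ℝ) :
    ev K x1 y1 z1 ξ + sum4 K L0 La Lc L1 ξ + hookB K ξ H1 ≤ S * nrm3 ξ ∧
    ev K x2 y2 z2 ξ + sum4 K L0 La Lb L2 ξ + hookB K ξ H2 ≤ S * nrm3 ξ ∧
    ev K x3 y3 z3 ξ + sum4 K L0 Lb Lc L3 ξ + hookB K ξ H3 ≤ S * nrm3 ξ := by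
  simp only [tri2OK, scal, Bool.and_eq_true, Nat.ble_eq] at hc
  obtain ⟨⟨⟨⟨⟨o0, oa, ob, oc⟩, ⟨o1, o2, o3⟩, ⟨q1, q2⟩, n1, n2⟩, c1, c2, c3⟩, q3, n3⟩,
    ⟨p1, p2⟩, p3, p4⟩ := hc
  have hp : ∀ s1 s2, pair2 K I J M O T x1 y1 z1 x2 y2 z2 x3 y3 z3 L0 La Lb Lc L1 L2 L3 H1 H2 H3
      s1 s2 = true := by
    intro s1 s2
    cases s1 <;> cases s2 <;> assumption
  simp only [pair2, Bool.and_eq_true] at hp
  have hn : 0 < n := Nat.pos_of_ne_zero (by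
    rintro rfl
    have := h.hK
    simp at this)
  have hS : (0 : ℝ) ≤ S := Nat.cast_nonneg S
  have w : 2 ^ 32 ≤ 2 ^ 33 := by norm_num
  refine ⟨?_, ?_, ?_⟩
  · exact cover_all (((subL_ev K x1 y1 z1).add (subL_sum4 K L0 La Lc L1)).add (subL_hookB K H1))
      hS hn (grid_all (fun s1 s2 => h.pc (H := fun ξ => hookB K ξ H1) c1 (hp s1 s2).1
        (h.acc4 s1 s2 true o0 oa oc o1) (sum4_neg K _ _ _ _)
        ((h.hook _ _ _ q1 n1).mono w (fun _ => rfl))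
        ((h.hook _ _ _ q1 n1).mono w (fun _ => rfl)))) ξ
  · exact cover_all (((subL_ev K x2 y2 z2).add (subL_sum4 K L0 La Lb L2)).add (subL_hookB K H2))
      hS hn (grid_all (fun s1 s2 => h.pc (H := fun ξ => hookB K ξ H2) c2 (hp s1 s2).2.1
        (h.acc4 s1 s2 true o0 oa ob o2) (sum4_neg K _ _ _ _)
        ((h.hook _ _ _ q2 n2).mono w (fun _ => rfl))
        ((h.hook _ _ _ q2 n2).mono w (fun _ => rfl)))) ξ
  · exact cover_all (((subL_ev K x3 y3 z3).add (subL_sum4 K L0 Lb Lc L3)).add (subL_hookB K H3))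
      hS hn (grid_all (fun s1 s2 => h.pc (H := fun ξ => hookB K ξ H3) c3 (hp s1 s2).2.2
        (h.acc4 s1 s2 true o0 ob oc o3) (sum4_neg K _ _ _ _)
        ((h.hook _ _ _ q3 n3).mono w (fun _ => rfl))
        ((h.hook _ _ _ q3 n3).mono w (fun _ => rfl)))) ξ

/-- Positive variation of a family of edges in the direction `(x, y, z)`. -/
noncomputable def Vr (e : ℕ → ℝ × ℝ × ℝ) (s : Finset ℕ) (x y z : ℝ) : ℝ :=
  ∑ i ∈ s, max 0 (x * (e i).1 + y * (e i).2.1 + z * (e i).2.2)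

/-- Sum of the positive variations over a list of shifted vectors. -/
noncomputable def VL (K : ℕ) (e : ℕ → ℝ × ℝ × ℝ) (s : Finset ℕ) : BL → ℝ
  | BL.nil => 0
  | BL.cons x y z t => Vr e s ((x : ℝ) - K) ((y : ℝ) - K) ((z : ℝ) - K) + VL K e s t

theorem sum_sumB (K : ℕ) (e : ℕ → ℝ × ℝ × ℝ) (s : Finset ℕ) (L : BL) :
    ∑ i ∈ s, sumB K (e i) L = VL K e s L := by
  induction L with
  | nil => simp [sumB, VL]
  | cons x y z t ih => simp only [sumB, VL, sum_add_distrib, ih, Vr, ev]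

theorem Vr_nonneg (e : ℕ → ℝ × ℝ × ℝ) (s : Finset ℕ) (x y z : ℝ) : 0 ≤ Vr e s x y z :=
  sum_nonneg fun _ _ => le_max_left _ _

theorem Vr_smul (e : ℕ → ℝ × ℝ × ℝ) (s : Finset ℕ) {t : ℝ} (ht : 0 ≤ t) (x y z : ℝ) :
    Vr e s (t * x) (t * y) (t * z) = t * Vr e s x y z := by
  simp only [Vr, mul_sum]
  refine sum_congr rfl fun i _ => ?_
  rw [mul_max_of_nonneg _ _ ht, mul_zero]
  congr 1; ring

/-- A three-piece polygon in the frame of the linear programs. -/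
structure Tri (e : ℕ → ℝ × ℝ × ℝ) (s1 s2 s3 : Finset ℕ) (len y az p q r b0 b1 c0 c1 : ℝ) :
    Prop where
  hlen : ∑ i ∈ s1, nrm3 (e i) + ∑ i ∈ s2, nrm3 (e i) + ∑ i ∈ s3, nrm3 (e i) ≤ len
  hp : 0 ≤ p
  hq : 0 ≤ q
  hr : 0 ≤ r
  haz : az = 1 + p - q - r
  az0 : 0 ≤ az
  e1 : ∑ i ∈ s1, e i = (-b0, -b1, 1 + p - q)
  e2 : ∑ i ∈ s2, e i = (b0 + c0, az * y + b1 + c1, -(1 + p))
  e3 : ∑ i ∈ s3, e i = (-c0, -c1, 1 + p - r)
  v1 : 1 + p ≤ Vr e s1 0 0 1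
  v3 : 1 + p ≤ Vr e s3 0 0 1
  wide : ∀ x y' z N : ℝ, N ^ 2 ≤ x ^ 2 + y' ^ 2 + z ^ 2 →
    N - max 0 (-(az * (y * y' + z))) ≤ Vr e s1 x y' z + Vr e s2 x y' z + Vr e s3 x y' z

theorem sum_ev (K x y z : ℕ) (e : ℕ → ℝ × ℝ × ℝ) (s : Finset ℕ) :
    ∑ i ∈ s, ev K x y z (e i) = ev K x y z (∑ i ∈ s, e i) := by
  simp only [ev, Prod.fst_sum, Prod.snd_sum, sum_add_distrib, mul_sum]

/-- Lists of naturals. -/
inductive NL : Type
  | nil : NL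
  | cons (n : ℕ) (t : NL) : NL

/-- Atoms read off a packed number, four fields of twenty-four bits each. -/
noncomputable def decB (m X : ℕ) : BL :=
  Nat.rec BL.nil (fun i ih => BL.cons (Nat.land (Nat.shiftRight X (Nat.mul 96 i)) 16777215)
    (Nat.land (Nat.shiftRight X (Nat.add (Nat.mul 96 i) 24)) 16777215)
    (Nat.land (Nat.shiftRight X (Nat.add (Nat.mul 96 i) 48)) 16777215) ih) m

/-- The fourth field. -/
def fN (X i : ℕ) : ℕ := Nat.land (Nat.shiftRight X (Nat.add (Nat.mul 96 i) 72)) 16777215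

/-- Sum of the fourth fields. -/
noncomputable def sN (m X : ℕ) : ℕ := Nat.rec 0 (fun i ih => Nat.add (fN X i) ih) m

/-- The fourth fields are lower bounds of the norms. -/
noncomputable def okN (K m X : ℕ) : Bool :=
  Nat.rec true (fun i ih => Nat.ble (Nat.mul (fN X i) (fN X i))
    (sq3 (ad K (Nat.land (Nat.shiftRight X (Nat.mul 96 i)) 16777215))
      (ad K (Nat.land (Nat.shiftRight X (Nat.add (Nat.mul 96 i) 24)) 16777215))
      (ad K (Nat.land (Nat.shiftRight X (Nat.add (Nat.mul 96 i) 48)) 16777215))) && ih) m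

/-- Sum of the negative parts of `p * y + Q * z`. -/
noncomputable def ng (K p Q : ℕ) (L : BL) : ℕ :=
  BL.rec 0 (fun _ y z _ ih => Nat.add (Nat.sub (Nat.mul (Nat.add p Q) K)
    (Nat.add (Nat.mul p y) (Nat.mul Q z))) ih) L

theorem Tri.atoms {e : ℕ → ℝ × ℝ × ℝ} {s1 s2 s3 : Finset ℕ} {len y az p q r b0 b1 c0 c1 : ℝ}
    (P : Tri e s1 s2 s3 len y az p q r b0 b1 c0 c1) {K pL pR Q : ℕ} {τ : ℝ} (h0 : 0 ≤ τ)
    (h1 : τ ≤ 1) (hQ : 0 < Q) (hy : Q * y = (1 - τ) * pL + τ * pR) (X m : ℕ)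
    (h : okN K m X = true) :
    (Q : ℝ) * sN m X - az * ((1 - τ) * ng K pL Q (decB m X) + τ * ng K pR Q (decB m X)) ≤
      Q * (VL K e s1 (decB m X) + VL K e s2 (decB m X) + VL K e s3 (decB m X)) := by
  induction m with
  | zero =>
    have e1 : sN 0 X = 0 := rfl
    have e2 : decB 0 X = BL.nil := rfl
    have e3 : ∀ p, ng K p Q BL.nil = 0 := fun _ => rfl
    simp [e1, e2, e3, VL]
  | succ m ih =>
    set x := Nat.land (Nat.shiftRight X (Nat.mul 96 m)) 16777215 with hx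
    set y' := Nat.land (Nat.shiftRight X (Nat.add (Nat.mul 96 m) 24)) 16777215 with hy'
    set z := Nat.land (Nat.shiftRight X (Nat.add (Nat.mul 96 m) 48)) 16777215 with hz
    have e1 : sN (m + 1) X = fN X m + sN m X := rfl
    have e2 : decB (m + 1) X = BL.cons x y' z (decB m X) := rfl
    have e3 : ∀ p, ng K p Q (BL.cons x y' z (decB m X)) =
      Nat.sub ((p + Q) * K) (p * y' + Q * z) + ng K p Q (decB m X) := fun _ => rfl
    have e4 : okN K (m + 1) X = (Nat.ble (Nat.mul (fN X m) (fN X m))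
      (sq3 (ad K x) (ad K y') (ad K z)) && okN K m X) := rfl
    rw [e4, Bool.and_eq_true, Nat.ble_eq] at h
    have ih' := ih h.2
    have hN : ((fN X m : ℕ) : ℝ) ^ 2 ≤ ((x : ℝ) - K) ^ 2 + ((y' : ℝ) - K) ^ 2 + ((z : ℝ) - K) ^ 2 := by
      have : ((Nat.mul (fN X m) (fN X m) : ℕ) : ℝ) ≤ (sq3 (ad K x) (ad K y') (ad K z) : ℕ) := by
        exact_mod_cast h.1
      simp only [sq3, Nat.mul_eq, Nat.add_eq, Nat.cast_add, Nat.cast_mul, ad_cast,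
        abs_mul_abs_self] at this
      nlinarith
    have hw := P.wide _ _ _ _ hN
    have cL := cast_sub_ge ((pL + Q) * K) (pL * y' + Q * z)
    have cR := cast_sub_ge ((pR + Q) * K) (pR * y' + Q * z)
    have hQ' : (0 : ℝ) < Q := by exact_mod_cast hQ
    have az0 := P.az0
    set u := ((Nat.sub ((pL + Q) * K) (pL * y' + Q * z) : ℕ) : ℝ) with hu
    set v := ((Nat.sub ((pR + Q) * K) (pR * y' + Q * z) : ℕ) : ℝ) with hv
    have u0 : 0 ≤ u := Nat.cast_nonneg _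
    have v0 : 0 ≤ v := Nat.cast_nonneg _
    have t0 : 0 ≤ 1 - τ := by linarith
    have hm : Q * max 0 (-(az * (y * ((y' : ℝ) - K) + ((z : ℝ) - K)))) ≤
        az * ((1 - τ) * u + τ * v) := by
      rw [mul_max_of_nonneg _ _ hQ'.le, mul_zero]
      refine max_le (by positivity) ?_
      push_cast at cL cR
      have a1 := mul_le_mul_of_nonneg_left cL t0
      have a2 := mul_le_mul_of_nonneg_left cR h0
      have a3 : -(Q * y * ((y' : ℝ) - K) + Q * ((z : ℝ) - K)) ≤ (1 - τ) * u + τ * v := by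
        rw [hy]; linarith
      have := mul_le_mul_of_nonneg_left a3 az0
      linarith
    have hw' := mul_le_mul_of_nonneg_left hw hQ'.le
    rw [e1, e2, e3, e3]
    simp only [VL]
    push_cast
    linarith

/-- The basic inequality behind every cut. -/
theorem Tri.core {e : ℕ → ℝ × ℝ × ℝ} {s1 s2 s3 : Finset ℕ} {len y az p q r b0 b1 c0 c1 : ℝ}
    (P : Tri e s1 s2 s3 len y az p q r b0 b1 c0 c1) {K S I J M O T n : ℕ} {l : List Pt}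
    {th : Pt → ℕ} (h : Tabs K S I J M O T n l th) {x1 y1 z1 x2 y2 z2 x3 y3 z3 : ℕ}
    {L0 La Lb Lc L1 L2 L3 H1 H2 H3 : BL}
    (hc : tri2OK K I J M O T x1 y1 z1 x2 y2 z2 x3 y3 z3 L0 La Lb Lc L1 L2 L3 H1 H2 H3 = true) :
    ((x2 : ℝ) - x1) * b0 + ((y2 : ℝ) - y1) * b1 + ((x2 : ℝ) - x3) * c0 + ((y2 : ℝ) - y3) * c1 +
      ((z1 : ℝ) - z2) * (1 + p - q) + ((z3 : ℝ) - z2) * (1 + p - r) +
      az * (y * ((y2 : ℝ) - K) + ((z2 : ℝ) - K)) +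
      (VL K e s1 L0 + VL K e s2 L0 + VL K e s3 L0) + (VL K e s1 La + VL K e s2 La) +
      (VL K e s2 Lb + VL K e s3 Lb) + (VL K e s1 Lc + VL K e s3 Lc) +
      (VL K e s1 L1 + VL K e s2 L2 + VL K e s3 L3) +
      (∑ i ∈ s1, hookB K (e i) H1 + ∑ i ∈ s2, hookB K (e i) H2 + ∑ i ∈ s3, hookB K (e i) H3) ≤
      S * len := by
  have a1 := sum_le_sum (s := s1) fun i _ => (h.tri2OK_sound hc (e i)).1
  have a2 := sum_le_sum (s := s2) fun i _ => (h.tri2OK_sound hc (e i)).2.1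
  have a3 := sum_le_sum (s := s3) fun i _ => (h.tri2OK_sound hc (e i)).2.2
  simp only [sum4, sum_add_distrib, sum_sumB, sum_ev, ← mul_sum] at a1 a2 a3
  rw [P.e1] at a1
  rw [P.e2] at a2
  rw [P.e3] at a3
  have a4 := mul_le_mul_of_nonneg_left P.hlen (Nat.cast_nonneg (α := ℝ) S)
  have a5 : az * ((z2 : ℝ) - K) = (1 + p - q - r) * ((z2 : ℝ) - K) := by rw [← P.haz]
  simp only [ev] at a1 a2 a3
  linarith

end Pool.Agent.Lib.MP_ee7495_gt.X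
end

-- part Pool.Agent.Lib.MP_ee7495_gt.X.Cut2
section

set_option autoImplicit false

open Finset

namespace Pool.Agent.Lib.MP_ee7495_gt.X

/-- An optional atom on the first axis. -/
def xat (K mu : ℕ) (s c : Bool) : BL := cond c (BL.cons (fl K s (Nat.add K mu)) K K BL.nil) BL.nil

/-- An atom on the third axis. -/
def zat (K m : ℕ) : BL := BL.cons K K (Nat.add K m) BL.nil

/-- The coefficient of `az` at one end of the interval, times `Q`. -/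
noncomputable def gam (K p Q y2 z2 om : ℕ) (L : BL) : ℤ :=
  (p : ℤ) * ((y2 : ℤ) - K) + (Q : ℤ) * ((z2 : ℤ) - K) - (ng K p Q L : ℤ) - (Q : ℤ) * om

/-- Sign conditions and value at one end of the interval. -/
def endOK (Q A1 A3 ms sg base g V : ℤ) : Bool :=
  decide (0 ≤ Q * (A1 + A3 + ms - sg) + min g (min (-(Q * A1)) (-(Q * A3)))) &&
    decide (V ≤ Q * (base + A1 + A3 + ms) + min g (min (-(Q * A1)) (-(Q * A3))))

/-- The check of one cut. -/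
noncomputable def cutOK (K I J M O T pL pR Q t : ℕ) (s : Bool)
    (mu m1 m3 x1 y1 z1 x2 y2 z2 x3 y3 z3 m X : ℕ) (H1 H2 H3 : BL) (sg om : ℕ) (vL vR : ℤ) : Bool :=
  ((Nat.ble mu K && (Nat.ble 1 t || Nat.beq mu 0)) && (okN K m X &&
    (endOK Q ((z1 : ℤ) - z2) ((z3 : ℤ) - z2) ((m1 : ℤ) + m3) sg ((sN m X : ℤ) + mu)
      (gam K pL Q y2 z2 om (decB m X)) vL &&
    endOK Q ((z1 : ℤ) - z2) ((z3 : ℤ) - z2) ((m1 : ℤ) + m3) sg ((sN m X : ℤ) + mu)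
      (gam K pR Q y2 z2 om (decB m X)) vR))) &&
  tri2OK K I J M O T x1 y1 z1 x2 y2 z2 x3 y3 z3 (decB m X) (xat K mu s (Nat.beq t 1))
    (xat K mu s (Nat.beq t 2)) (xat K mu s (Nat.beq t 3)) (zat K m1) BL.nil (zat K m3) H1 H2 H3

/-- The branch hypothesis: no condition for `t = 0`, otherwise the variation along the first
axis on two of the pieces is at least one. -/
def BrH (e : ℕ → ℝ × ℝ × ℝ) (s1 s2 s3 : Finset ℕ) (t : ℕ) (s : Bool) : Prop :=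
  t = 0 ∨ (t = 1 ∧ 1 ≤ Vr e s1 (sg s) 0 0 + Vr e s2 (sg s) 0 0) ∨
    (t = 2 ∧ 1 ≤ Vr e s2 (sg s) 0 0 + Vr e s3 (sg s) 0 0) ∨
    (t = 3 ∧ 1 ≤ Vr e s1 (sg s) 0 0 + Vr e s3 (sg s) 0 0)

theorem VL_xat (e : ℕ → ℝ × ℝ × ℝ) (S : Finset ℕ) {K mu : ℕ} (h : mu ≤ K) (s : Bool) :
    VL K e S (xat K mu s true) = mu * Vr e S (sg s) 0 0 := by
  have := fl_cast (K := K) (x := Nat.add K mu) s (by simp only [Nat.add_eq]; omega)
  simp only [xat, cond_true, VL, this, sub_self, add_zero]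
  rw [← Vr_smul e S (Nat.cast_nonneg mu)]
  simp

theorem VL_xat0 (e : ℕ → ℝ × ℝ × ℝ) (S : Finset ℕ) (K mu : ℕ) (s : Bool) :
    VL K e S (xat K mu s false) = 0 := rfl

theorem VL_zat (e : ℕ → ℝ × ℝ × ℝ) (S : Finset ℕ) (K m : ℕ) :
    VL K e S (zat K m) = m * Vr e S 0 0 1 := by
  simp only [zat, VL, sub_self, add_zero]
  rw [← Vr_smul e S (Nat.cast_nonneg m)]
  simp

theorem endOK_spec {Q A1 A3 ms sg base g V : ℤ} (h : endOK Q A1 A3 ms sg base g V = true) :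
    ∃ g' : ℝ, g' ≤ g ∧ ((Q : ℝ) * A1 + g' ≤ 0 ∧ (Q : ℝ) * A3 + g' ≤ 0) ∧
      (0 : ℝ) ≤ Q * (A1 + A3 + ms - sg) + g' ∧ (V : ℝ) ≤ Q * (base + A1 + A3 + ms) + g' := by
  simp only [endOK, Bool.and_eq_true, decide_eq_true_eq] at h
  have a1 := min_le_left g (min (-(Q * A1)) (-(Q * A3)))
  have a2 := (min_le_right g _).trans (min_le_left (-(Q * A1)) (-(Q * A3)))
  have a3 := (min_le_right g _).trans (min_le_right (-(Q * A1)) (-(Q * A3)))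
  generalize min g (min (-(Q * A1)) (-(Q * A3))) = u at *
  have a4 : Q * A1 + u ≤ 0 ∧ Q * A3 + u ≤ 0 := ⟨by linarith, by linarith⟩
  exact ⟨u, by exact_mod_cast a1, by exact_mod_cast a4, by exact_mod_cast h⟩

/-- Soundness of a cut. -/
theorem Tri.cut {e : ℕ → ℝ × ℝ × ℝ} {s1 s2 s3 : Finset ℕ} {len y az p q r b0 b1 c0 c1 : ℝ}
    (P : Tri e s1 s2 s3 len y az p q r b0 b1 c0 c1) {K S I J M O T n : ℕ} {l : List Pt}
    {th : Pt → ℕ} (h : Tabs K S I J M O T n l th) {pL pR Q t : ℕ} {s : Bool}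
    {mu m1 m3 x1 y1 z1 x2 y2 z2 x3 y3 z3 m X : ℕ} {H1 H2 H3 : BL} {sg om : ℕ} {vL vR : ℤ}
    (hc : cutOK K I J M O T pL pR Q t s mu m1 m3 x1 y1 z1 x2 y2 z2 x3 y3 z3 m X H1 H2 H3 sg om
      vL vR = true) (hb : BrH e s1 s2 s3 t s) {τ : ℝ} (h0 : 0 ≤ τ) (h1 : τ ≤ 1) (hQ : 0 < Q)
    (hy : Q * y = (1 - τ) * pL + τ * pR) :
    (1 - τ) * vL + τ * vR + Q * (((x2 : ℝ) - x1) * b0 + ((y2 : ℝ) - y1) * b1 +
      ((x2 : ℝ) - x3) * c0 + ((y2 : ℝ) - y3) * c1 +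
      (∑ i ∈ s1, hookB K (e i) H1 + ∑ i ∈ s2, hookB K (e i) H2 + ∑ i ∈ s3, hookB K (e i) H3) +
      sg * p + om * az) ≤ Q * (S * len) := by
  simp only [cutOK, Bool.and_eq_true, Nat.ble_eq, Bool.or_eq_true, Nat.beq_eq] at hc
  obtain ⟨⟨⟨k1, k2⟩, k3, k4, k5⟩, k6⟩ := hc
  have c := P.core h k6
  have a := P.atoms h0 h1 hQ hy X m k3
  obtain ⟨gL, l0, ⟨l1, l2⟩, l3, l4⟩ := endOK_spec k4
  obtain ⟨gR, r0, ⟨r1, r2⟩, r3, r4⟩ := endOK_spec k5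
  have hmu : (mu : ℝ) ≤
      (VL K e s1 (xat K mu s (Nat.beq t 1)) + VL K e s2 (xat K mu s (Nat.beq t 1))) +
      (VL K e s2 (xat K mu s (Nat.beq t 2)) + VL K e s3 (xat K mu s (Nat.beq t 2))) +
      (VL K e s1 (xat K mu s (Nat.beq t 3)) + VL K e s3 (xat K mu s (Nat.beq t 3))) := by
    have m0 : (0 : ℝ) ≤ mu := Nat.cast_nonneg mu
    rcases hb with rfl | ⟨rfl, hb⟩ | ⟨rfl, hb⟩ | ⟨rfl, hb⟩
    · have : mu = 0 := by omega
      subst this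
      show ((0 : ℕ) : ℝ) ≤ 0 + 0 + (0 + 0) + (0 + 0)
      simp
    · show _ ≤ VL K e s1 (xat K mu s true) + VL K e s2 (xat K mu s true) + (0 + 0) + (0 + 0)
      rw [VL_xat e s1 k1, VL_xat e s2 k1]
      linarith [mul_le_mul_of_nonneg_left hb m0]
    · show _ ≤ 0 + 0 + (VL K e s2 (xat K mu s true) + VL K e s3 (xat K mu s true)) + (0 + 0)
      rw [VL_xat e s2 k1, VL_xat e s3 k1]
      linarith [mul_le_mul_of_nonneg_left hb m0]
    · show _ ≤ 0 + 0 + (0 + 0) + (VL K e s1 (xat K mu s true) + VL K e s3 (xat K mu s true))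
      rw [VL_xat e s1 k1, VL_xat e s3 k1]
      linarith [mul_le_mul_of_nonneg_left hb m0]
  rw [VL_zat, VL_zat, show VL K e s2 BL.nil = 0 from rfl] at c
  have v1 := mul_le_mul_of_nonneg_left P.v1 (Nat.cast_nonneg (α := ℝ) m1)
  have v3 := mul_le_mul_of_nonneg_left P.v3 (Nat.cast_nonneg (α := ℝ) m3)
  have hQ' : (0 : ℝ) ≤ Q := Nat.cast_nonneg Q
  simp only [gam] at l0 r0
  push_cast at l0 l1 l2 l3 l4 r0 r1 r2 r3 r4
  generalize ((ng K pL Q (decB m X) : ℕ) : ℝ) = nL at *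
  generalize ((ng K pR Q (decB m X) : ℕ) : ℝ) = nR at *
  obtain ⟨g, hg⟩ : ∃ g : ℝ, g = (1 - τ) * gL + τ * gR := ⟨_, rfl⟩
  have t0 : 0 ≤ 1 - τ := by linarith
  have u1 : (Q : ℝ) * ((z1 : ℝ) - z2) + g ≤ 0 := by
    linarith [mul_le_mul_of_nonneg_left l1 t0, mul_le_mul_of_nonneg_left r1 h0]
  have u2 : (Q : ℝ) * ((z3 : ℝ) - z2) + g ≤ 0 := by
    linarith [mul_le_mul_of_nonneg_left l2 t0, mul_le_mul_of_nonneg_left r2 h0]
  have u3 : (0 : ℝ) ≤ Q * (((z1 : ℝ) - z2) + ((z3 : ℝ) - z2) + (m1 + m3) - sg) + g := by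
    linarith [mul_le_mul_of_nonneg_left l3 t0, mul_le_mul_of_nonneg_left r3 h0]
  have u4 : (1 - τ) * vL + τ * vR ≤
      Q * (((sN m X : ℕ) + mu) + ((z1 : ℝ) - z2) + ((z3 : ℝ) - z2) + (m1 + m3)) + g := by
    linarith [mul_le_mul_of_nonneg_left l4 t0, mul_le_mul_of_nonneg_left r4 h0]
  have w1 := mul_le_mul_of_nonneg_left u1 P.hq
  have w2 := mul_le_mul_of_nonneg_left u2 P.hr
  have w3 := mul_le_mul_of_nonneg_left u3 P.hp
  have e0 : g ≤ Q * y * ((y2 : ℝ) - K) + Q * ((z2 : ℝ) - K) - ((1 - τ) * nL + τ * nR) -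
      Q * om := by
    rw [hy]
    linarith [mul_le_mul_of_nonneg_left l0 t0, mul_le_mul_of_nonneg_left r0 h0]
  have e1 := mul_le_mul_of_nonneg_left e0 P.az0
  have e2 : az * g = (1 + p - q - r) * g := by rw [← P.haz]
  have c' := mul_le_mul_of_nonneg_left c hQ'
  have hmu' := mul_le_mul_of_nonneg_left hmu hQ'
  have v1' := mul_le_mul_of_nonneg_left v1 hQ'
  have v3' := mul_le_mul_of_nonneg_left v3 hQ'
  linarith

/-- A shifted and rounded multiple of a fraction. -/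
def shf (K j D : ℕ) (a : ℤ) : ℕ := Int.toNat ((K : ℤ) + (j : ℤ) * a / (D : ℤ))

theorem shf_cast {K j D : ℕ} {a : ℤ} (hD : 0 < D) (h : 1 ≤ shf K j D a) :
    ∃ d : ℝ, |d| ≤ 1 ∧ ((shf K j D a : ℕ) : ℝ) - K = (j : ℝ) * (a / D) + d := by
  have h1 : ((shf K j D a : ℕ) : ℤ) = (K : ℤ) + (j : ℤ) * a / (D : ℤ) := by
    unfold shf at h ⊢
    omega
  have hD1 : (0 : ℤ) < D := by exact_mod_cast hD
  have hD2 : (0 : ℝ) < D := by exact_mod_cast hD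
  have h3 := Int.mul_ediv_add_emod ((j : ℤ) * a) D
  have h4 := Int.emod_nonneg ((j : ℤ) * a) hD1.ne'
  have h5 := Int.emod_lt_of_pos ((j : ℤ) * a) hD1
  generalize (j : ℤ) * a / (D : ℤ) = u at h1 h3
  generalize (j : ℤ) * a % (D : ℤ) = v at h3 h4 h5
  have g1 : ((shf K j D a : ℕ) : ℝ) = K + u := by exact_mod_cast h1
  have g3 : (D : ℝ) * u + v = j * a := by exact_mod_cast h3
  have g4 : (0 : ℝ) ≤ v := by exact_mod_cast h4
  have g5 : (v : ℝ) < D := by exact_mod_cast h5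
  refine ⟨-(v / D), ?_, ?_⟩
  · rw [abs_neg, abs_of_nonneg (by positivity), div_le_one hD2]
    exact g5.le
  · rw [g1]
    field_simp
    linarith

theorem small_ip {d1 d2 d3 : ℝ} (h1 : |d1| ≤ 1) (h2 : |d2| ≤ 1) (h3 : |d3| ≤ 1)
    (ξ : ℝ × ℝ × ℝ) : |d1 * ξ.1 + d2 * ξ.2.1 + d3 * ξ.2.2| ≤ 2 * nrm3 ξ := by
  have a1 := (sq_le_one_iff_abs_le_one d1).2 h1
  have a2 := (sq_le_one_iff_abs_le_one d2).2 h2
  have a3 := (sq_le_one_iff_abs_le_one d3).2 h3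
  have n0 : 0 ≤ nrm3 ξ := Real.sqrt_nonneg _
  have n1 : nrm3 ξ ^ 2 = ξ.1 ^ 2 + ξ.2.1 ^ 2 + ξ.2.2 ^ 2 := Real.sq_sqrt (by positivity)
  refine abs_le_of_sq_le_sq ?_ (by positivity)
  have := mul_le_mul_of_nonneg_right (by linarith : d1 ^ 2 + d2 ^ 2 + d3 ^ 2 ≤ 4)
    (by positivity : 0 ≤ ξ.1 ^ 2 + ξ.2.1 ^ 2 + ξ.2.2 ^ 2)
  rw [mul_pow, n1]
  nlinarith [sq_nonneg (d1 * ξ.2.1 - d2 * ξ.1), sq_nonneg (d1 * ξ.2.2 - d3 * ξ.1),
    sq_nonneg (d2 * ξ.2.2 - d3 * ξ.2.1)]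

/-- The group of a parallelogram with vertices in `ℤ³ / D`, scaled by `j` and rounded. -/
def mkH (K j D : ℕ) (a0 b0 c0 a1 b1 c1 a2 b2 c2 : ℤ) : BL :=
  BL.cons (shf K j D a0) (shf K j D b0) (shf K j D c0)
    (BL.cons (shf K j D a1) (shf K j D b1) (shf K j D c1)
      (BL.cons (shf K j D a2) (shf K j D b2) (shf K j D c2) BL.nil))

theorem hook_ge (e : ℕ → ℝ × ℝ × ℝ) (S : Finset ℕ) {K j D : ℕ} {a0 b0 c0 a1 b1 c1 a2 b2 c2 : ℤ}
    (hD : 0 < D) (h : okS K (mkH K j D a0 b0 c0 a1 b1 c1 a2 b2 c2) = true) {u v : ℝ} (u0 : 0 ≤ u)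
    (u1 : u ≤ 1) (v0 : 0 ≤ v) (v1 : v ≤ 1) :
    j * Vr e S (a0 / D + u * (a1 / D) + v * (a2 / D)) (b0 / D + u * (b1 / D) + v * (b2 / D))
      (c0 / D + u * (c1 / D) + v * (c2 / D)) - 6 * ∑ i ∈ S, nrm3 (e i) ≤
      ∑ i ∈ S, hookB K (e i) (mkH K j D a0 b0 c0 a1 b1 c1 a2 b2 c2) := by
  obtain ⟨g0, h⟩ := okS_cons h
  obtain ⟨g1, h⟩ := okS_cons h
  obtain ⟨g2, -⟩ := okS_cons h
  obtain ⟨x0, y0, z0⟩ := rg3_spec g0
  obtain ⟨x1, y1, z1⟩ := rg3_spec g1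
  obtain ⟨x2, y2, z2⟩ := rg3_spec g2
  obtain ⟨d1, p1, q1⟩ := shf_cast hD x0.1
  obtain ⟨d2, p2, q2⟩ := shf_cast hD y0.1
  obtain ⟨d3, p3, q3⟩ := shf_cast hD z0.1
  obtain ⟨d4, p4, q4⟩ := shf_cast hD x1.1
  obtain ⟨d5, p5, q5⟩ := shf_cast hD y1.1
  obtain ⟨d6, p6, q6⟩ := shf_cast hD z1.1
  obtain ⟨d7, p7, q7⟩ := shf_cast hD x2.1
  obtain ⟨d8, p8, q8⟩ := shf_cast hD y2.1
  obtain ⟨d9, p9, q9⟩ := shf_cast hD z2.1
  rw [← Vr_smul e S (Nat.cast_nonneg j), mul_sum, Vr, ← sum_sub_distrib]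
  refine sum_le_sum fun i _ => ?_
  have n0 : 0 ≤ nrm3 (e i) := Real.sqrt_nonneg _
  have w1 := abs_le.1 (small_ip p1 p2 p3 (e i))
  have w2 := abs_le.1 (small_ip p4 p5 p6 (e i))
  have w3 := abs_le.1 (small_ip p7 p8 p9 (e i))
  simp only [mkH, hookB, sumB, ev, q1, q2, q3, q4, q5, q6, q7, q8, q9]
  generalize (a0 : ℝ) / D = A0
  generalize (b0 : ℝ) / D = B0
  generalize (c0 : ℝ) / D = C0
  generalize (a1 : ℝ) / D = A1
  generalize (b1 : ℝ) / D = B1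
  generalize (c1 : ℝ) / D = C1
  generalize (a2 : ℝ) / D = A2
  generalize (b2 : ℝ) / D = B2
  generalize (c2 : ℝ) / D = C2
  obtain ⟨A, hA⟩ : ∃ A : ℝ, A = j * A1 * (e i).1 + j * B1 * (e i).2.1 + j * C1 * (e i).2.2 :=
    ⟨_, rfl⟩
  obtain ⟨B, hB⟩ : ∃ B : ℝ, B = j * A2 * (e i).1 + j * B2 * (e i).2.1 + j * C2 * (e i).2.2 :=
    ⟨_, rfl⟩
  have f1 : u * A ≤ max 0 A := by nlinarith [le_max_left 0 A, le_max_right 0 A]
  have f2 : v * B ≤ max 0 B := by nlinarith [le_max_left 0 B, le_max_right 0 B]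
  have f3 : max 0 A ≤ max 0 ((j * A1 + d4) * (e i).1 + (j * B1 + d5) * (e i).2.1 +
      (j * C1 + d6) * (e i).2.2) + 2 * nrm3 (e i) :=
    max_le (by positivity) (le_trans (by linarith [w2.1]) (add_le_add_left (le_max_right _ _) _))
  have f4 : max 0 B ≤ max 0 ((j * A2 + d7) * (e i).1 + (j * B2 + d8) * (e i).2.1 +
      (j * C2 + d9) * (e i).2.2) + 2 * nrm3 (e i) :=
    max_le (by positivity) (le_trans (by linarith [w3.1]) (add_le_add_left (le_max_right _ _) _))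
  rw [sub_le_iff_le_add]
  refine max_le (by positivity) (le_trans ?_ (add_le_add_left (le_max_right _ _) _))
  have e1 : u * A = u * (j * A1 * (e i).1 + j * B1 * (e i).2.1 + j * C1 * (e i).2.2) := by rw [hA]
  have e2 : v * B = v * (j * A2 * (e i).1 + j * B2 * (e i).2.1 + j * C2 * (e i).2.2) := by rw [hB]
  linarith [w1.1]

theorem cutOK_okS {K I J M O T pL pR Q t : ℕ} {s : Bool}
    {mu m1 m3 x1 y1 z1 x2 y2 z2 x3 y3 z3 m X : ℕ} {H1 H2 H3 : BL} {sg om : ℕ} {vL vR : ℤ}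
    (hc : cutOK K I J M O T pL pR Q t s mu m1 m3 x1 y1 z1 x2 y2 z2 x3 y3 z3 m X H1 H2 H3 sg om
      vL vR = true) : okS K H1 = true ∧ okS K H2 = true ∧ okS K H3 = true := by
  simp only [cutOK, tri2OK, scal, Bool.and_eq_true] at hc
  exact ⟨hc.2.1.1.1.2.2.1.1, hc.2.1.1.1.2.2.1.2, hc.2.1.2.1⟩

end Pool.Agent.Lib.MP_ee7495_gt.X
end

-- part Pool.Agent.Lib.MP_ee7495_gt.X.Cut3
section

set_option autoImplicit false

open Finset

namespace Pool.Agent.Lib.MP_ee7495_gt.X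

theorem exists_tau {pL pR Q : ℕ} {y : ℝ} (h1 : (pL : ℝ) ≤ Q * y) (h2 : Q * y ≤ pR) :
    ∃ τ : ℝ, 0 ≤ τ ∧ τ ≤ 1 ∧ Q * y = (1 - τ) * pL + τ * pR := by
  rcases (h1.trans h2).eq_or_lt with h | h
  · exact ⟨0, le_rfl, zero_le_one, by linarith⟩
  · have hp : (0 : ℝ) < pR - pL := sub_pos.2 h
    refine ⟨(Q * y - pL) / (pR - pL), div_nonneg (by linarith) hp.le, ?_, ?_⟩
    · rw [div_le_one hp]; linarith
    · field_simp
      ring

theorem sum_nrm_nonneg (e : ℕ → ℝ × ℝ × ℝ) (s : Finset ℕ) : 0 ≤ ∑ i ∈ s, nrm3 (e i) :=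
  sum_nonneg fun _ _ => Real.sqrt_nonneg _

theorem sum_hook_nil (K : ℕ) (e : ℕ → ℝ × ℝ × ℝ) (s : Finset ℕ) :
    ∑ i ∈ s, hookB K (e i) BL.nil = 0 := by simp [hookB]

/-- A parallelogram with vertices in `ℤ³ / D`. -/
structure Par where
  D : ℕ
  a0 : ℤ
  b0 : ℤ
  c0 : ℤ
  a1 : ℤ
  b1 : ℤ
  c1 : ℤ
  a2 : ℤ
  b2 : ℤ
  c2 : ℤ

/-- The group of a parallelogram. -/
def Par.up (G : Par) (j : ℕ) : BL :=
  mkH 8388608 j G.D G.a0 G.b0 G.c0 G.a1 G.b1 G.c1 G.a2 G.b2 G.c2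

/-- The group of the opposite parallelogram. -/
def Par.dn (G : Par) (j : ℕ) : BL :=
  mkH 8388608 j G.D (-G.a0) (-G.b0) (-G.c0) (-G.a1) (-G.b1) (-G.c1) (-G.a2) (-G.b2) (-G.c2)

/-- Membership in a parallelogram. -/
def Par.Mem (G : Par) (x y z : ℝ) : Prop :=
  ∃ u v : ℝ, 0 ≤ u ∧ u ≤ 1 ∧ 0 ≤ v ∧ v ≤ 1 ∧
    x = G.a0 / G.D + u * (G.a1 / G.D) + v * (G.a2 / G.D) ∧
    y = G.b0 / G.D + u * (G.b1 / G.D) + v * (G.b2 / G.D) ∧
    z = G.c0 / G.D + u * (G.c1 / G.D) + v * (G.c2 / G.D)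

theorem Par.up_ge {G : Par} (hD : 0 < G.D) {j : ℕ} (h : okS 8388608 (G.up j) = true)
    {x y z : ℝ} (hm : G.Mem x y z) (e : ℕ → ℝ × ℝ × ℝ) (S : Finset ℕ) :
    j * Vr e S x y z - 6 * ∑ i ∈ S, nrm3 (e i) ≤ ∑ i ∈ S, hookB 8388608 (e i) (G.up j) := by
  obtain ⟨u, v, u0, u1, v0, v1, rfl, rfl, rfl⟩ := hm
  exact hook_ge e S hD h u0 u1 v0 v1

theorem Par.dn_ge {G : Par} (hD : 0 < G.D) {j : ℕ} (h : okS 8388608 (G.dn j) = true)
    {x y z : ℝ} (hm : G.Mem x y z) (e : ℕ → ℝ × ℝ × ℝ) (S : Finset ℕ) :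
    j * Vr e S (-x) (-y) (-z) - 6 * ∑ i ∈ S, nrm3 (e i) ≤
      ∑ i ∈ S, hookB 8388608 (e i) (G.dn j) := by
  obtain ⟨u, v, u0, u1, v0, v1, rfl, rfl, rfl⟩ := hm
  have := hook_ge e S hD h u0 u1 v0 v1
  have e1 : ∀ a b c : ℤ, -((a : ℝ) / G.D + u * (b / G.D) + v * (c / G.D)) =
      ((-a : ℤ) : ℝ) / G.D + u * (((-b : ℤ) : ℝ) / G.D) + v * (((-c : ℤ) : ℝ) / G.D) := by
    intro a b c
    push_cast
    ring
  rw [e1, e1, e1]
  exact this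

/-- A facet certificate: `g * y + 10 ^ 7 * (d1 * x1 + d2 * x2) ≤ H` on `[pL / Q, pR / Q]`. -/
noncomputable def facOK (G : Par) (en Ln pL pR Q : ℕ) (g d1 d2 H : ℤ) (t : ℕ) (s : Bool)
    (lam j mu m1 m3 x y z1 z2 z3 m X : ℕ) (vL vR : ℤ) : Bool :=
  (decide ((lam : ℤ) * (-13 * d1 + 9 * d2) ≤ 12 * j) &&
    (decide (0 ≤ (x : ℤ) - lam * d1) && decide (0 ≤ (y : ℤ) - lam * d2))) &&
  ((decide ((Q : ℤ) * 4194310 * Ln + Q * j * en ≤ 10000000 * vL + lam * (Q * H - g * pL)) &&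
    decide ((Q : ℤ) * 4194310 * Ln + Q * j * en ≤ 10000000 * vR + lam * (Q * H - g * pR))) &&
  cutOK 8388608 tAI tAJ tAM tAO tAT pL pR Q t s mu m1 m3 x y z1 x y z2
    (Int.toNat ((x : ℤ) - lam * d1)) (Int.toNat ((y : ℤ) - lam * d2)) z3 m X BL.nil (G.dn j) (G.up j)
    j 0 vL vR)

theorem toNat_cast {a : ℤ} (h : 0 ≤ a) : ((Int.toNat a : ℕ) : ℝ) = a := by
  have : ((Int.toNat a : ℕ) : ℤ) = a := Int.toNat_of_nonneg h
  exact_mod_cast this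

section

variable {e : ℕ → ℝ × ℝ × ℝ} {s1 s2 s3 : Finset ℕ} {len y az p q r b0 b1 c0 c1 : ℝ}

theorem Tri.facet (P : Tri e s1 s2 s3 len y az p q r b0 b1 c0 c1) {G : Par} (hD : 0 < G.D)
    {en Ln pL pR Q : ℕ} {g d1 d2 H : ℤ} {t : ℕ} {s : Bool} {lam j mu m1 m3 x y' z1 z2 z3 m X : ℕ}
    {vL vR : ℤ} (hc : facOK G en Ln pL pR Q g d1 d2 H t s lam j mu m1 m3 x y' z1 z2 z3 m X vL vR =
      true) (hb : BrH e s1 s2 s3 t s) (hQ : 0 < Q) (h1 : (pL : ℝ) ≤ Q * y) (h2 : Q * y ≤ pR)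
    {w gx gy gz : ℝ} (hw : 0 ≤ w) (hm : G.Mem gx gy gz)
    (hk : 3 / 4 * w ≤ Vr e s2 (-gx) (-gy) (-gz) + Vr e s3 gx gy gz + p + en / 10000000)
    (hl : len < Ln / 10000000) :
    g * y + 10000000 * (d1 * (c0 - 13 / 16 * w) + d2 * (c1 + 9 / 16 * w)) ≤ H := by
  simp only [facOK, Bool.and_eq_true, decide_eq_true_eq] at hc
  obtain ⟨⟨k1, k2, k3⟩, ⟨k4, k5⟩, k6⟩ := hc
  obtain ⟨τ, t0, t1, hy⟩ := exists_tau h1 h2
  have c := P.cut tA_tabs k6 hb t0 t1 hQ hy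
  obtain ⟨-, o2, o3⟩ := cutOK_okS k6
  have a2 := Par.dn_ge hD o2 hm e s2
  have a3 := Par.up_ge hD o3 hm e s3
  rw [sum_hook_nil, toNat_cast k2, toNat_cast k3] at c
  have g1 : (lam : ℝ) * (-13 * d1 + 9 * d2) ≤ 12 * j := by exact_mod_cast k1
  have g4 : (Q : ℝ) * 4194310 * Ln + Q * j * en ≤ 10000000 * vL + lam * (Q * H - g * pL) := by
    exact_mod_cast k4
  have g5 : (Q : ℝ) * 4194310 * Ln + Q * j * en ≤ 10000000 * vR + lam * (Q * H - g * pR) := by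
    exact_mod_cast k5
  have hQ' : (0 : ℝ) < Q := by exact_mod_cast hQ
  have n1 := sum_nrm_nonneg e s1
  have hlen := P.hlen
  have j0 : (0 : ℝ) ≤ j := Nat.cast_nonneg j
  have l0 : (0 : ℝ) ≤ lam := Nat.cast_nonneg lam
  push_cast at c
  by_contra hn
  have b1 := mul_le_mul_of_nonneg_left (not_le.1 hn).le l0
  have b2 := mul_le_mul_of_nonneg_left hk j0
  have b3 := mul_le_mul_of_nonneg_left g1 hw
  have b4 : lam * (H - g * y) / 10000000 - j * en / 10000000 - 6 * len ≤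
      (x - (x - lam * d1)) * c0 + (y' - (y' - lam * d2)) * c1 +
      (0 + ∑ i ∈ s2, hookB 8388608 (e i) (G.dn j) + ∑ i ∈ s3, hookB 8388608 (e i) (G.up j)) +
      j * p := by linarith
  have b5 := mul_le_mul_of_nonneg_left b4 hQ'.le
  have b6 := mul_le_mul_of_nonneg_left g4 (sub_nonneg.2 t1)
  have b7 := mul_le_mul_of_nonneg_left g5 t0
  have b8 := mul_lt_mul_of_pos_left hl hQ'
  have b9 : lam * g * (Q * y) = lam * g * ((1 - τ) * pL + τ * pR) := by rw [hy]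
  linarith

/-- A certificate without groups that may use `c0 ≤ b0`. -/
noncomputable def plainOK (Ln pL pR Q t : ℕ) (s : Bool)
    (lam mu m1 m3 x y z1 z2 z3 m X : ℕ) (vL vR : ℤ) : Bool :=
  (decide ((Q : ℤ) * 4194304 * Ln ≤ 10000000 * vL) &&
    decide ((Q : ℤ) * 4194304 * Ln ≤ 10000000 * vR)) &&
  cutOK 8388608 tAI tAJ tAM tAO tAT pL pR Q t s mu m1 m3 x y z1 (Nat.add x lam) y z2
    (Nat.add (Nat.add x lam) lam) y z3 m X BL.nil BL.nil BL.nil 0 0 vL vR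

theorem Tri.plain (P : Tri e s1 s2 s3 len y az p q r b0 b1 c0 c1)
    {Ln pL pR Q t : ℕ} {s : Bool} {lam mu m1 m3 x y' z1 z2 z3 m X : ℕ} {vL vR : ℤ}
    (hc : plainOK Ln pL pR Q t s lam mu m1 m3 x y' z1 z2 z3 m X vL vR = true)
    (hb : BrH e s1 s2 s3 t s) (hQ : 0 < Q) (h1 : (pL : ℝ) ≤ Q * y) (h2 : Q * y ≤ pR)
    (hs : 0 ≤ lam * (b0 - c0)) : Ln / 10000000 ≤ len := by
  simp only [plainOK, Bool.and_eq_true, decide_eq_true_eq] at hc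
  obtain ⟨⟨k4, k5⟩, k6⟩ := hc
  obtain ⟨τ, t0, t1, hy⟩ := exists_tau h1 h2
  have c := P.cut tA_tabs k6 hb t0 t1 hQ hy
  simp only [sum_hook_nil, Nat.add_eq] at c
  have g4 : (Q : ℝ) * 4194304 * Ln ≤ 10000000 * vL := by exact_mod_cast k4
  have g5 : (Q : ℝ) * 4194304 * Ln ≤ 10000000 * vR := by exact_mod_cast k5
  have hQ' : (0 : ℝ) < Q := by exact_mod_cast hQ
  push_cast at c
  have b5 := mul_le_mul_of_nonneg_left hs hQ'.le
  have b6 := mul_le_mul_of_nonneg_left g4 (sub_nonneg.2 t1)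
  have b7 := mul_le_mul_of_nonneg_left g5 t0
  refine le_of_mul_le_mul_left ?_ hQ'
  linarith

/-- A certificate with given groups. -/
noncomputable def grpOK (Ln pL pR Q t : ℕ) (s : Bool) (H1 H2 H3 : BL)
    (j om mu m1 m3 x y z1 z2 z3 m X : ℕ) (vL vR : ℤ) : Bool :=
  (decide ((Q : ℤ) * 4194310 * Ln ≤ 10000000 * (vL + Q * j)) &&
    decide ((Q : ℤ) * 4194310 * Ln ≤ 10000000 * (vR + Q * j))) &&
  cutOK 8388608 tAI tAJ tAM tAO tAT pL pR Q t s mu m1 m3 x y z1 x y z2 x y z3 m X H1 H2 H3 0 om vL vR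

theorem Tri.grp (P : Tri e s1 s2 s3 len y az p q r b0 b1 c0 c1)
    {Ln pL pR Q t : ℕ} {s : Bool} {H1 H2 H3 : BL} {j om mu m1 m3 x y' z1 z2 z3 m X : ℕ} {vL vR : ℤ}
    (hc : grpOK Ln pL pR Q t s H1 H2 H3 j om mu m1 m3 x y' z1 z2 z3 m X vL vR = true)
    (hb : BrH e s1 s2 s3 t s) (hQ : 0 < Q) (h1 : (pL : ℝ) ≤ Q * y) (h2 : Q * y ≤ pR)
    (hk : okS 8388608 H1 = true → okS 8388608 H2 = true → okS 8388608 H3 = true →
      j - 6 * len ≤ ∑ i ∈ s1, hookB 8388608 (e i) H1 + ∑ i ∈ s2, hookB 8388608 (e i) H2 +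
        ∑ i ∈ s3, hookB 8388608 (e i) H3 + om * az) : Ln / 10000000 ≤ len := by
  simp only [grpOK, Bool.and_eq_true, decide_eq_true_eq] at hc
  obtain ⟨⟨k4, k5⟩, k6⟩ := hc
  obtain ⟨τ, t0, t1, hy⟩ := exists_tau h1 h2
  have c := P.cut tA_tabs k6 hb t0 t1 hQ hy
  obtain ⟨o1, o2, o3⟩ := cutOK_okS k6
  have g4 : (Q : ℝ) * 4194310 * Ln ≤ 10000000 * (vL + Q * j) := by exact_mod_cast k4
  have g5 : (Q : ℝ) * 4194310 * Ln ≤ 10000000 * (vR + Q * j) := by exact_mod_cast k5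
  have hQ' : (0 : ℝ) < Q := by exact_mod_cast hQ
  push_cast at c
  have b5 := mul_le_mul_of_nonneg_left (hk o1 o2 o3) hQ'.le
  have b6 := mul_le_mul_of_nonneg_left g4 (sub_nonneg.2 t1)
  have b7 := mul_le_mul_of_nonneg_left g5 t0
  refine le_of_mul_le_mul_left ?_ hQ'
  linarith

theorem Tri.bad13 (P : Tri e s1 s2 s3 len y az p q r b0 b1 c0 c1) {G : Par} (hD : 0 < G.D)
    {Ln pL pR Q t : ℕ} {s : Bool} {j om mu m1 m3 x y' z1 z2 z3 m X : ℕ} {vL vR : ℤ}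
    (hc : grpOK Ln pL pR Q t s (G.up j) BL.nil (G.up j) j om mu m1 m3 x y' z1 z2 z3 m X vL vR = true)
    (hb : BrH e s1 s2 s3 t s) (hQ : 0 < Q) (h1 : (pL : ℝ) ≤ Q * y) (h2 : Q * y ≤ pR)
    {gx gy gz : ℝ} (hm : G.Mem gx gy gz) (ho : 0 ≤ om + j * (y * gy + gz))
    (hk : 1 + az * (y * gy + gz) ≤ Vr e s1 gx gy gz + Vr e s3 gx gy gz) :
    Ln / 10000000 ≤ len := by
  refine P.grp hc hb hQ h1 h2 (fun o1 _ _ => ?_)
  have a1 := Par.up_ge hD o1 hm e s1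
  have a3 := Par.up_ge hD o1 hm e s3
  have n2 := sum_nrm_nonneg e s2
  have b1 := mul_le_mul_of_nonneg_left hk (Nat.cast_nonneg (α := ℝ) j)
  have b2 := mul_nonneg P.az0 ho
  rw [sum_hook_nil]
  linarith [P.hlen]

theorem Tri.bad12 (P : Tri e s1 s2 s3 len y az p q r b0 b1 c0 c1) {G : Par} (hD : 0 < G.D)
    {Ln pL pR Q t : ℕ} {s : Bool} {j mu m1 m3 x y' z1 z2 z3 m X : ℕ} {vL vR : ℤ}
    (hc : grpOK Ln pL pR Q t s (G.dn j) (G.dn j) BL.nil j 0 mu m1 m3 x y' z1 z2 z3 m X vL vR = true)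
    (hb : BrH e s1 s2 s3 t s) (hQ : 0 < Q) (h1 : (pL : ℝ) ≤ Q * y) (h2 : Q * y ≤ pR)
    {gx gy gz : ℝ} (hm : G.Mem gx gy gz)
    (hk : 1 ≤ Vr e s1 (-gx) (-gy) (-gz) + Vr e s2 (-gx) (-gy) (-gz)) :
    Ln / 10000000 ≤ len := by
  refine P.grp hc hb hQ h1 h2 (fun o1 _ _ => ?_)
  have a1 := Par.dn_ge hD o1 hm e s1
  have a2 := Par.dn_ge hD o1 hm e s2
  have n3 := sum_nrm_nonneg e s3
  have b1 := mul_le_mul_of_nonneg_left hk (Nat.cast_nonneg (α := ℝ) j)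
  rw [sum_hook_nil]
  push_cast
  linarith [P.hlen]

end

end Pool.Agent.Lib.MP_ee7495_gt.X
end

-- part Pool.Agent.Lib.MP_ee7495_gt.X.Bridge
section

set_option autoImplicit false

open scoped RealInnerProductSpace
open Finset

namespace Pool.Agent.Lib.MP_ee7495_gt.X

open Pool.Agent.Lib.MP_ee7495_gt.Y

/-- Positive variation of a sequence on an interval of indices. -/
noncomputable def up (g : ℕ → ℝ) (lo hi : ℕ) : ℝ := ∑ k ∈ Ico lo hi, max 0 (g (k + 1) - g k)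

theorem up_nonneg (g : ℕ → ℝ) (lo hi : ℕ) : 0 ≤ up g lo hi :=
  sum_nonneg fun _ _ => le_max_left _ _

theorem up_ge (g : ℕ → ℝ) {lo i j hi : ℕ} (h1 : lo ≤ i) (h2 : i ≤ j) (h3 : j ≤ hi) :
    g j - g i ≤ up g lo hi := by
  rw [← sum_Ico_sub g h2]
  refine (sum_le_sum fun k _ => le_max_right 0 _).trans ?_
  exact sum_le_sum_of_subset_of_nonneg (Ico_subset_Ico h1 h3) fun _ _ _ => le_max_left _ _

theorem up_add (g : ℕ → ℝ) {a b c : ℕ} (h1 : a ≤ b) (h2 : b ≤ c) :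
    up g a b + up g b c = up g a c := sum_Ico_consecutive _ h1 h2

theorem up_wide (g : ℕ → ℝ) {N i j : ℕ} (hi : i ≤ N) (hj : j ≤ N) :
    g j - g i - max 0 (-(g N - g 0)) ≤ up g 0 N := by
  have m1 := le_max_left 0 (-(g N - g 0))
  have m2 := le_max_right 0 (-(g N - g 0))
  rcases le_total i j with h | h
  · linarith [up_ge g (Nat.zero_le i) h hj]
  · have a1 := up_ge g le_rfl (Nat.zero_le j) le_rfl
    have a2 := up_ge g le_rfl hi le_rfl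
    have a3 := up_add g (Nat.zero_le j) h
    have a4 := up_add g (Nat.zero_le i) hi
    linarith [up_nonneg g j i]

/-- Edges as triples. -/
noncomputable def eC (C : Cfg) (k : ℕ) : ℝ × ℝ × ℝ := (C.ed k 0, C.ed k 1, C.ed k 2)

/-- A linear form along the polygon. -/
noncomputable def lf (C : Cfg) (x y z : ℝ) (k : ℕ) : ℝ := x * C.P k 0 + y * C.P k 1 + z * C.P k 2

theorem Vr_up (C : Cfg) (lo hi : ℕ) (x y z : ℝ) :
    Vr (eC C) (Ico lo hi) x y z = up (lf C x y z) lo hi := by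
  refine sum_congr rfl fun k _ => ?_
  congr 1
  simp only [eC, lf, Cfg.ed, PiLp.sub_apply]
  ring

theorem Vr_sum (C : Cfg) (s : Finset ℕ) (u : E) :
    ∑ k ∈ s, Y.pp ⟪C.ed k, u⟫ = Vr (eC C) s (u 0) (u 1) (u 2) := by
  refine sum_congr rfl fun k _ => ?_
  rw [Y.pp, max_comm, inner3]
  congr 1
  simp only [eC]
  ring

theorem V1_eq (C : Cfg) (u : E) : C.V1 u = Vr (eC C) (Ico 0 C.iB) (u 0) (u 1) (u 2) := by
  unfold Cfg.V1 Cfg.S1
  exact Vr_sum C _ u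

theorem V2_eq (C : Cfg) (u : E) : C.V2 u = Vr (eC C) (Ico C.iB C.iC) (u 0) (u 1) (u 2) := by
  unfold Cfg.V2 Cfg.S2
  exact Vr_sum C _ u

theorem V3_eq (C : Cfg) (u : E) : C.V3 u = Vr (eC C) (Ico C.iC C.N) (u 0) (u 1) (u 2) := by
  unfold Cfg.V3 Cfg.S3
  exact Vr_sum C _ u

theorem sum_eC (C : Cfg) {lo hi : ℕ} (h : lo ≤ hi) : ∑ k ∈ Ico lo hi, eC C k =
    (C.P hi 0 - C.P lo 0, C.P hi 1 - C.P lo 1, C.P hi 2 - C.P lo 2) := by
  refine Prod.ext ?_ (Prod.ext ?_ ?_)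
  · rw [Prod.fst_sum]; exact sum_Ico_sub (fun k => C.P k 0) h
  · rw [Prod.snd_sum, Prod.fst_sum]; exact sum_Ico_sub (fun k => C.P k 1) h
  · rw [Prod.snd_sum, Prod.snd_sum]; exact sum_Ico_sub (fun k => C.P k 2) h

theorem nrm_eC (C : Cfg) (k : ℕ) : nrm3 (eC C k) = ‖C.ed k‖ := by
  rw [norm3, nrm3]
  simp only [eC, sq]

theorem cfg_wide (C : Cfg) {x y z n : ℝ} (hn : n ^ 2 ≤ x ^ 2 + y ^ 2 + z ^ 2) :
    ∃ i ≤ C.N, ∃ j ≤ C.N, n ≤ lf C x y z j - lf C x y z i := by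
  obtain ⟨i, hi, j, hj, h⟩ := C.wid (vec x y z)
  refine ⟨i, hi, j, hj, ?_⟩
  have h1 : n ≤ ‖vec x y z‖ := by
    refine le_of_sq_le_sq ?_ (norm_nonneg _)
    rw [normsq3]
    simp only [vec_0, vec_1, vec_2]
    linarith
  rw [inner3] at h
  simp only [vec_0, vec_1, vec_2, PiLp.sub_apply] at h
  simp only [lf]
  linarith

theorem cfg_one_le (C : Cfg) : 1 ≤ C.h := by
  obtain ⟨i, hi, j, hj, h⟩ := cfg_wide C (x := 0) (y := 0) (z := 1) (n := 1) (by norm_num)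
  simp only [lf] at h
  have := C.top j hj
  have := C.bot i hi
  unfold Cfg.h
  linarith

theorem cfg_len (C : Cfg) : ∑ i ∈ Ico 0 C.iB, nrm3 (eC C i) + ∑ i ∈ Ico C.iB C.iC, nrm3 (eC C i) +
    ∑ i ∈ Ico C.iC C.N, nrm3 (eC C i) = C.len := by
  rw [sum_Ico_consecutive _ (Nat.zero_le _) C.hBC, sum_Ico_consecutive _ (Nat.zero_le _) C.hCN,
    Cfg.len, range_eq_Ico]
  exact sum_congr rfl fun k _ => nrm_eC C k

theorem cfg_tri (C : Cfg) {y : ℝ} (hy : C.a 1 = C.a 2 * y) (hz : 0 ≤ C.a 2) :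
    Tri (eC C) (Ico 0 C.iB) (Ico C.iB C.iC) (Ico C.iC C.N) C.len y (C.a 2) (C.h - 1)
      (-C.P C.iC 2) (C.P C.iB 2 - C.P C.N 2) (C.b 0) (C.b 1) (C.c 0) (C.c 1) := by
  have p0 : ∀ i, C.P 0 i = 0 := fun i => by rw [C.P0]; rfl
  have hB := C.hBC.trans C.hCN
  have dx := C.Dx
  simp only [Cfg.a] at hy hz
  refine ⟨(cfg_len C).le, sub_nonneg.2 (cfg_one_le C), ?_, sub_nonneg.2 (C.top _ le_rfl), ?_, hz,
    ?_, ?_, ?_, ?_, ?_, ?_⟩
  · linarith [C.bot 0 (Nat.zero_le _), p0 2]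
  · simp only [Cfg.a, Cfg.h]; ring
  · rw [sum_eC C (Nat.zero_le _)]
    simp only [Cfg.b, Cfg.h, p0, PiLp.neg_apply, Prod.mk.injEq]
    exact ⟨by ring, by ring, by ring⟩
  · rw [sum_eC C C.hBC]
    simp only [Cfg.a, Cfg.b, Cfg.c, Cfg.h, PiLp.neg_apply, PiLp.sub_apply, Prod.mk.injEq]
    exact ⟨by linarith, by linarith, by ring⟩
  · rw [sum_eC C C.hCN]
    simp only [Cfg.c, Cfg.h, PiLp.sub_apply, Prod.mk.injEq]
    exact ⟨by ring, by ring, by ring⟩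
  · obtain ⟨i, hi, h⟩ := C.t1
    have := up_ge (lf C 0 0 1) (Nat.zero_le i) hi le_rfl
    rw [Vr_up]
    simp only [lf, Cfg.h] at this ⊢
    linarith
  · obtain ⟨i, hi, hi', h⟩ := C.t3
    have := up_ge (lf C 0 0 1) le_rfl hi hi'
    rw [Vr_up]
    simp only [lf, Cfg.h] at this ⊢
    linarith
  · intro x y' z n hn
    obtain ⟨i, hi, j, hj, h⟩ := cfg_wide C hn
    have := up_wide (lf C x y' z) hi hj
    rw [Vr_up, Vr_up, Vr_up, up_add _ (Nat.zero_le _) C.hBC, up_add _ (Nat.zero_le _) C.hCN]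
    have e : lf C x y' z C.N - lf C x y' z 0 = C.a 2 * (y * y' + z) := by
      simp only [lf, p0, Cfg.a, dx, hy]
      ring
    rw [e] at this
    linarith

/-- The branch hypothesis for a configuration. -/
abbrev BrC (C : Cfg) (t : ℕ) (s : Bool) : Prop :=
  BrH (eC C) (Ico 0 C.iB) (Ico C.iB C.iC) (Ico C.iC C.N) t s

theorem brC_zero (C : Cfg) (s : Bool) : BrC C 0 s := Or.inl rfl

theorem brC_false (C : Cfg) : BrC C 1 false ↔ Br C false := by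
  simp [BrC, BrH, Br, V1_eq, V2_eq, zI, sg]

theorem brC_true (C : Cfg) : BrC C 2 true ↔ Br C true := by
  simp [BrC, BrH, Br, V2_eq, V3_eq, zI, sg]

/-- The six possible orders of the extreme points of the first coordinate. -/
theorem six_cases (C : Cfg) : BrC C 1 false ∨ BrC C 2 true ∨ BrC C 3 false ∨ BrC C 3 true ∨
    BrC C 1 true ∨ BrC C 2 false := by
  obtain ⟨i, hi, j, hj, h⟩ := cfg_wide C (x := -1) (y := 0) (z := 0) (n := 1) (by norm_num)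
  have z0 : ∀ x, lf C x 0 0 0 = 0 := fun x => by simp [lf, C.P0]
  have zN : ∀ x, lf C x 0 0 C.N = 0 := fun x => by simp [lf, C.Dx]
  have ng : ∀ k, lf C 1 0 0 k = -lf C (-1) 0 0 k := fun k => by simp [lf]
  have hB := C.hBC.trans C.hCN
  simp only [BrC, BrH, Vr_up, sg, cond_true, cond_false, true_and, OfNat.ofNat_ne_zero,
    OfNat.ofNat_ne_one, OfNat.one_ne_ofNat, one_ne_zero, false_and, false_or, or_false,
    Nat.reduceEqDiff, up_add _ (Nat.zero_le _) C.hBC, up_add _ C.hBC C.hCN]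
  rcases le_total i j with hc | hc
  · rcases le_total j C.iC with h1 | h1
    · exact Or.inl (h.trans (up_ge _ (Nat.zero_le _) hc h1))
    rcases le_total C.iB i with h2 | h2
    · exact Or.inr (Or.inr (Or.inr (Or.inr (Or.inr (h.trans (up_ge _ h2 hc hj))))))
    have a1 := up_ge (lf C 1 0 0) le_rfl (Nat.zero_le i) h2
    have a2 := up_ge (lf C 1 0 0) h1 hj le_rfl
    rw [z0, ng] at a1
    rw [zN, ng] at a2
    exact Or.inr (Or.inr (Or.inr (Or.inl (by linarith))))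
  · have h' : 1 ≤ lf C 1 0 0 i - lf C 1 0 0 j := by rw [ng, ng]; linarith
    rcases le_total C.iB j with h1 | h1
    · exact Or.inr (Or.inl (h'.trans (up_ge _ h1 hc hi)))
    rcases le_total i C.iC with h2 | h2
    · exact Or.inr (Or.inr (Or.inr (Or.inr (Or.inl (h'.trans (up_ge _ (Nat.zero_le _) hc h2))))))
    have a1 := up_ge (lf C (-1) 0 0) le_rfl (Nat.zero_le j) h1
    have a2 := up_ge (lf C (-1) 0 0) h2 hi le_rfl
    rw [z0] at a1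
    rw [zN] at a2
    exact Or.inr (Or.inr (Or.inl (by linarith)))

theorem cfg_far (C : Cfg) (h : 5 * C.a 2 ≤ C.a 1) : 3.92 ≤ C.len := by
  have p0 : ∀ i, C.P 0 i = 0 := fun i => by rw [C.P0]; rfl
  have a1 : ∑ k ∈ Ico 0 C.N, (1.96 * max 0 (lf C 0 0 1 (k + 1) - lf C 0 0 1 k) +
      (lf C 0 0.198 (-0.98) (k + 1) - lf C 0 0.198 (-0.98) k)) ≤ ∑ k ∈ Ico 0 C.N, ‖C.ed k‖ := by
    refine sum_le_sum fun k _ => ?_
    have e1 : lf C 0 0 1 (k + 1) - lf C 0 0 1 k = C.ed k 2 := by simp [lf, Cfg.ed]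
    have e2 : lf C 0 0.198 (-0.98) (k + 1) - lf C 0 0.198 (-0.98) k =
        0.198 * C.ed k 1 - 0.98 * C.ed k 2 := by
      simp only [lf, Cfg.ed, PiLp.sub_apply]; ring
    rw [e1, e2]
    refine le_of_sq_le_sq ?_ (norm_nonneg _)
    rw [normsq3]
    rcases le_total 0 (C.ed k 2) with hc | hc
    · rw [max_eq_right hc]
      nlinarith [sq_nonneg (0.98 * C.ed k 1 - 0.198 * C.ed k 2), mul_self_nonneg (C.ed k 0),
        mul_self_nonneg (C.ed k 1), mul_self_nonneg (C.ed k 2)]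
    · rw [max_eq_left hc]
      nlinarith [sq_nonneg (0.98 * C.ed k 1 + 0.198 * C.ed k 2), mul_self_nonneg (C.ed k 0),
        mul_self_nonneg (C.ed k 1), mul_self_nonneg (C.ed k 2)]
  rw [sum_add_distrib, ← mul_sum, sum_Ico_sub _ (Nat.zero_le _), ← range_eq_Ico] at a1
  obtain ⟨i, hi, e1⟩ := C.t1
  obtain ⟨j, hj, hj', e3⟩ := C.t3
  have b1 := up_ge (lf C 0 0 1) (Nat.zero_le i) hi C.hBC
  have b3 := up_ge (lf C 0 0 1) le_rfl hj hj'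
  have b4 := up_add (lf C 0 0 1) (Nat.zero_le _) C.hCN
  have b5 : up (lf C 0 0 1) 0 C.N =
    ∑ k ∈ range C.N, max 0 (lf C 0 0 1 (k + 1) - lf C 0 0 1 k) := by rw [up, range_eq_Ico]
  have b6 := cfg_one_le C
  have b7 := C.Dy
  rw [← b5] at a1
  simp only [lf, p0, Cfg.a, Cfg.h] at a1 b1 b3 b6 h
  unfold Cfg.len
  rcases le_total 0 (C.P C.N 2) with hc | hc <;> linarith

end Pool.Agent.Lib.MP_ee7495_gt.X
end
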