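import Mathlib

set_option autoImplicit false

open scoped RealInnerProductSpace Topology
open Set

namespace Pool.Agent.Lib.MP_ee7495_gt.X

/-- A continuous complex function on a connected space with constant exponential is constant. -/
theorem const_of_exp_const {Y : Type*} [TopologicalSpace Y] [PreconnectedSpace Y] {f : Y → ℂ}
    (hf : Continuous f) (h : ∀ x y, Complex.exp (f x) = Complex.exp (f y)) (x y : Y) :
    f x = f y :=
  Complex.isCoveringMap_exp.const_of_comp hf (fun a b => Subtype.ext (h a b)) x y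

/-- Spherical coordinates. -/
noncomputable def sph (p : ℝ × ℝ) : EuclideanSpace ℝ (Fin 3) :=
  !₂[Real.cos p.1 * Real.cos p.2, Real.sin p.1 * Real.cos p.2, Real.sin p.2]

theorem sph_cont : Continuous sph := by
  unfold sph
  refine (PiLp.continuous_toLp 2 _).comp ?_
  refine continuous_pi fun i => ?_
  fin_cases i <;> simp <;> fun_prop

theorem sph_norm (p : ℝ × ℝ) : ‖sph p‖ = 1 := by
  rw [EuclideanSpace.norm_eq, Real.sqrt_eq_one]
  simp only [sph, Fin.sum_univ_three, Real.norm_eq_abs, sq_abs]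
  simp
  nlinarith [Real.sin_sq_add_cos_sq p.1, Real.sin_sq_add_cos_sq p.2]

theorem sph_anti (a b : ℝ) : sph (a + Real.pi, -b) = -sph (a, b) := by
  ext i
  fin_cases i <;> simp [sph]

theorem sph_pole (a a' : ℝ) : sph (a, Real.pi / 2) = sph (a', Real.pi / 2) := by
  ext i
  fin_cases i <;> simp [sph]

/-- Borsuk-Ulam for the two-sphere: an odd continuous map to the plane has a zero on the sphere. -/
theorem odd_has_zero (h : EuclideanSpace ℝ (Fin 3) → ℂ) (hc : Continuous h)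
    (hodd : ∀ u, h (-u) = -h u) : ∃ u, ‖u‖ = 1 ∧ h u = 0 := by
  by_contra hne
  push Not at hne
  have hne' : ∀ p : ℝ × ℝ, h (sph p) ≠ 0 := fun p => hne _ (sph_norm p)
  let f : C(ℝ × ℝ, {z : ℂ // z ≠ 0}) :=
    ⟨fun p => ⟨h (sph p), hne' p⟩, (hc.comp sph_cont).subtype_mk _⟩
  obtain ⟨θ, ⟨-, hθ⟩, -⟩ := Complex.isCoveringMap_exp.existsUnique_continuousMap_lifts f 0
    (Complex.log (h (sph 0))) (Subtype.ext (Complex.exp_log (hne' 0)))
  have hexp : ∀ p, Complex.exp (θ p) = h (sph p) := fun p =>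
    congrArg Subtype.val (congrFun hθ p)
  have hθc : Continuous θ := θ.continuous
  have h1 : ∀ p : ℝ × ℝ, Complex.exp (θ (p.1 + Real.pi, -p.2) - θ p) = -1 := by
    intro p
    rw [Complex.exp_sub, hexp, hexp, sph_anti, hodd, neg_div, div_self (hne' p)]
  have hc1 : Continuous fun p : ℝ × ℝ => θ (p.1 + Real.pi, -p.2) - θ p := by fun_prop
  have h2 := const_of_exp_const hc1 (fun x y => by rw [h1, h1])
    (0, Real.pi / 2) (Real.pi, -(Real.pi / 2))
  have hc2 : Continuous fun a : ℝ => θ (a, Real.pi / 2) := by fun_prop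
  have h3 := const_of_exp_const hc2 (fun x y => by rw [hexp, hexp, sph_pole x y])
    0 (Real.pi + Real.pi)
  have h4 := h1 (0, Real.pi / 2)
  simp only [zero_add, neg_neg] at h2 h3 h4
  have h5 : θ (Real.pi, -(Real.pi / 2)) - θ (0, Real.pi / 2) = 0 := by
    linear_combination (1 / 2 : ℂ) * h2 - (1 / 2 : ℂ) * h3
  rw [h5, Complex.exp_zero] at h4
  norm_num at h4

/-- The quadratic form in time attached to a plane vector. -/
def qd (v : ℂ) (t : ℝ) : ℝ := v.re * t + v.im * t ^ 2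

/-- Two compact sets of reals that do not interlace are strictly separated on the parabola. -/
theorem sep_of_not_interlace {A B : Set ℝ} (hA : IsCompact A) (hB : IsCompact B)
    (hAn : A.Nonempty) (hBn : B.Nonempty)
    (h1 : ¬ ∃ t0 t1 t2 t3 : ℝ, t0 ≤ t1 ∧ t1 ≤ t2 ∧ t2 ≤ t3 ∧ t0 ∈ B ∧ t1 ∈ A ∧ t2 ∈ B ∧ t3 ∈ A)
    (h2 : ¬ ∃ t0 t1 t2 t3 : ℝ, t0 ≤ t1 ∧ t1 ≤ t2 ∧ t2 ≤ t3 ∧ t0 ∈ A ∧ t1 ∈ B ∧ t2 ∈ A ∧ t3 ∈ B) :
    ∃ v : ℂ, ∀ s ∈ A, ∀ t ∈ B, qd v t < qd v s := by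
  obtain ⟨a0, ha0⟩ := hA.exists_isLeast hAn
  obtain ⟨a1, ha1⟩ := hA.exists_isGreatest hAn
  obtain ⟨b0, hb0⟩ := hB.exists_isLeast hBn
  obtain ⟨b1, hb1⟩ := hB.exists_isGreatest hBn
  by_cases hb : ∃ b ∈ B, a0 ≤ b ∧ b ≤ a1
  · obtain ⟨b, hbB, hb0', hb1'⟩ := hb
    refine ⟨⟨-(b0 + b1), 1⟩, fun s hs t ht => ?_⟩
    have hs' : s < b0 ∨ b1 < s := by
      by_contra hcon
      push Not at hcon
      rcases le_total s b with hsb | hsb
      · exact h1 ⟨b0, s, b, a1, hcon.1, hsb, hb1', hb0.1, hs, hbB, ha1.1⟩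
      · exact h2 ⟨a0, b, s, b1, hb0', hsb, hcon.2, ha0.1, hbB, hs, hb1.1⟩
    have ht0 := hb0.2 ht
    have ht1 := hb1.2 ht
    have hp : (t - b0) * (t - b1) ≤ 0 := mul_nonpos_of_nonneg_of_nonpos (by linarith) (by linarith)
    have hq : 0 < (s - b0) * (s - b1) := by
      rcases hs' with h | h
      · exact mul_pos_of_neg_of_neg (by linarith) (by linarith)
      · exact mul_pos (by linarith) (by linarith)
    simp only [qd]
    nlinarith
  · push Not at hb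
    refine ⟨⟨a0 + a1, -1⟩, fun s hs t ht => ?_⟩
    have hs0 := ha0.2 hs
    have hs1 := ha1.2 hs
    have hp : (s - a0) * (s - a1) ≤ 0 := mul_nonpos_of_nonneg_of_nonpos (by linarith) (by linarith)
    have hq : 0 < (t - a0) * (t - a1) := by
      rcases lt_or_ge t a0 with h | h
      · exact mul_pos_of_neg_of_neg (by linarith) (by linarith)
      · have := hb t ht h
        exact mul_pos (by linarith) (by linarith)
    simp only [qd]
    nlinarith

/-- Times at which the height in direction `u` is maximal. -/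
def amax (γ : ℝ → EuclideanSpace ℝ (Fin 3)) (u : EuclideanSpace ℝ (Fin 3)) : Set ℝ :=
  {s | s ∈ Icc (0 : ℝ) 1 ∧ ∀ r ∈ Icc (0 : ℝ) 1, ⟪γ r, u⟫ ≤ ⟪γ s, u⟫}

theorem amax_nonempty {γ : ℝ → EuclideanSpace ℝ (Fin 3)} (hγ : Continuous γ)
    (u : EuclideanSpace ℝ (Fin 3)) : (amax γ u).Nonempty := by
  have hc : ContinuousOn (fun t => ⟪γ t, u⟫) (Icc (0 : ℝ) 1) :=
    (hγ.inner continuous_const).continuousOn
  obtain ⟨s, hs, hmax⟩ := isCompact_Icc.exists_isMaxOn (nonempty_Icc.2 zero_le_one) hc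
  exact ⟨s, hs, fun r hr => hmax hr⟩

theorem amax_compact {γ : ℝ → EuclideanSpace ℝ (Fin 3)} (hγ : Continuous γ)
    (u : EuclideanSpace ℝ (Fin 3)) : IsCompact (amax γ u) := by
  have hc : Continuous (fun t => ⟪γ t, u⟫) := hγ.inner continuous_const
  have hcl : IsClosed {s : ℝ | ∀ r ∈ Icc (0 : ℝ) 1, ⟪γ r, u⟫ ≤ ⟪γ s, u⟫} := by
    have : {s : ℝ | ∀ r ∈ Icc (0 : ℝ) 1, ⟪γ r, u⟫ ≤ ⟪γ s, u⟫}
        = ⋂ r ∈ Icc (0 : ℝ) 1, {s : ℝ | ⟪γ r, u⟫ ≤ ⟪γ s, u⟫} := by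
      ext s; simp
    rw [this]
    exact isClosed_biInter fun r _ => isClosed_le continuous_const hc
  exact isCompact_Icc.inter_right hcl

/-- The separating cone is open in the direction. -/
theorem sep_eventually {γ : ℝ → EuclideanSpace ℝ (Fin 3)} (hγ : Continuous γ)
    (u : EuclideanSpace ℝ (Fin 3)) (v : ℂ)
    (hv : ∀ s ∈ amax γ u, ∀ t ∈ amax γ (-u), qd v t < qd v s) :
    ∀ᶠ w in 𝓝 u, ∀ s ∈ amax γ w, ∀ t ∈ amax γ (-w), qd v t < qd v s := by
  obtain ⟨s0, hs0⟩ := amax_nonempty hγ u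
  obtain ⟨t0, ht0⟩ := amax_nonempty hγ (-u)
  have hq : Continuous (qd v) := by unfold qd; fun_prop
  have hK : IsCompact ((Icc (0 : ℝ) 1 ×ˢ Icc (0 : ℝ) 1) ∩ {z : ℝ × ℝ | qd v z.1 ≤ qd v z.2}) :=
    (isCompact_Icc.prod isCompact_Icc).inter_right
      (isClosed_le (hq.comp continuous_fst) (hq.comp continuous_snd))
  have hev := hK.eventually_forall_of_forall_eventually (x₀ := u)
    (P := fun w z => ⟪γ z.1, w⟫ - ⟪γ z.2, w⟫ < ⟪γ s0, w⟫ - ⟪γ t0, w⟫) (by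
      rintro ⟨s, t⟩ ⟨⟨hs, ht⟩, hle⟩
      have hlt : ⟪γ s, u⟫ - ⟪γ t, u⟫ < ⟪γ s0, u⟫ - ⟪γ t0, u⟫ := by
        have e1 := hs0.2 s hs
        have e2 := ht0.2 t ht
        simp only [inner_neg_right] at e2
        by_contra hcon
        have hsA : s ∈ amax γ u := ⟨hs, fun r hr => by have := hs0.2 r hr; linarith⟩
        have htB : t ∈ amax γ (-u) := ⟨ht, fun r hr => by
          have := ht0.2 r hr
          simp only [inner_neg_right] at this ⊢
          linarith⟩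
        exact absurd (hv s hsA t htB) (not_lt.2 hle)
      have c1 : Continuous fun z : EuclideanSpace ℝ (Fin 3) × (ℝ × ℝ) =>
          ⟪γ z.2.1, z.1⟫ - ⟪γ z.2.2, z.1⟫ :=
        ((hγ.comp (continuous_fst.comp continuous_snd)).inner continuous_fst).sub
          ((hγ.comp (continuous_snd.comp continuous_snd)).inner continuous_fst)
      have c2 : Continuous fun z : EuclideanSpace ℝ (Fin 3) × (ℝ × ℝ) =>
          ⟪γ s0, z.1⟫ - ⟪γ t0, z.1⟫ :=
        (continuous_const.inner continuous_fst).sub (continuous_const.inner continuous_fst)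
      exact (isOpen_lt c1 c2).mem_nhds hlt)
  filter_upwards [hev] with w hw s hs t ht
  by_contra hcon
  have := hw (s, t) ⟨⟨hs.1, ht.1⟩, not_lt.1 hcon⟩
  have e1 := hs.2 s0 hs0.1
  have e2 := ht.2 t0 ht0.1
  simp only [inner_neg_right] at e2 this
  linarith

theorem wienholtz_aux {γ : ℝ → EuclideanSpace ℝ (Fin 3)} (hγ : Continuous γ) :
    ∃ u : EuclideanSpace ℝ (Fin 3), ‖u‖ = 1 ∧ ∃ t0 t1 t2 t3 : ℝ, t0 ≤ t1 ∧ t1 ≤ t2 ∧ t2 ≤ t3 ∧
      t0 ∈ amax γ (-u) ∧ t1 ∈ amax γ u ∧ t2 ∈ amax γ (-u) ∧ t3 ∈ amax γ u := by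
  by_contra hne
  push Not at hne
  have hsep : ∀ u : EuclideanSpace ℝ (Fin 3), ‖u‖ = 1 →
      ∃ v : ℂ, ∀ s ∈ amax γ u, ∀ t ∈ amax γ (-u), qd v t < qd v s := by
    intro u hu
    refine sep_of_not_interlace (amax_compact hγ u) (amax_compact hγ (-u))
      (amax_nonempty hγ u) (amax_nonempty hγ (-u)) ?_ ?_
    · rintro ⟨t0, t1, t2, t3, h⟩
      exact hne u hu t0 t1 t2 t3 h.1 h.2.1 h.2.2.1 h.2.2.2.1 h.2.2.2.2.1 h.2.2.2.2.2.1
        h.2.2.2.2.2.2
    · rintro ⟨t0, t1, t2, t3, h⟩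
      refine hne (-u) (by rw [norm_neg, hu]) t0 t1 t2 t3 h.1 h.2.1 h.2.2.1 ?_ h.2.2.2.2.1 ?_
        h.2.2.2.2.2.2
      · rw [neg_neg]; exact h.2.2.2.1
      · rw [neg_neg]; exact h.2.2.2.2.2.1
  let F : EuclideanSpace ℝ (Fin 3) → Set ℂ := fun u =>
    {v | ‖u‖ = 1 → ∀ s ∈ amax γ u, ∀ t ∈ amax γ (-u), qd v t < qd v s}
  have hconv : ∀ u, Convex ℝ (F u) := by
    intro u v hv w hw a b ha hb hab hu s hs t ht
    have e1 := hv hu s hs t ht
    have e2 := hw hu s hs t ht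
    have e3 : ∀ r, qd (a • v + b • w) r = a * qd v r + b * qd w r := by
      intro r; simp [qd]; ring
    rw [e3, e3]
    rcases ha.eq_or_lt with h0 | h0
    · have : b = 1 := by linarith
      rw [← h0, this]; linarith
    · nlinarith [mul_pos h0 (sub_pos.2 e1), mul_nonneg hb (sub_pos.2 e2).le]
  have hloc : ∀ u, ∃ c : ℂ, ∀ᶠ w in 𝓝 u, c ∈ F w := by
    intro u
    by_cases hu : ‖u‖ = 1
    · obtain ⟨v, hv⟩ := hsep u hu
      exact ⟨v, (sep_eventually hγ u v hv).mono fun w hw _ => hw⟩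
    · refine ⟨0, ?_⟩
      have : ∀ᶠ w in 𝓝 u, ‖w‖ ≠ 1 :=
        (isOpen_ne_fun continuous_norm continuous_const).mem_nhds hu
      exact this.mono fun w hw h => absurd h hw
  obtain ⟨g, hg⟩ := exists_continuous_forall_mem_convex_of_local_const hconv hloc
  obtain ⟨u, hu, h0⟩ := odd_has_zero (fun u => g u - g (-u))
    (g.continuous.sub (g.continuous.comp continuous_neg)) (fun u => by simp)
  obtain ⟨s, hs⟩ := amax_nonempty hγ u
  obtain ⟨t, ht⟩ := amax_nonempty hγ (-u)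
  have e1 := hg u hu s hs t ht
  have e2 := hg (-u) (by rw [norm_neg, hu]) t ht s (by rw [neg_neg]; exact hs)
  have e3 : g u = g (-u) := sub_eq_zero.1 h0
  rw [← e3] at e2
  linarith

/-- Wienholtz's theorem: every curve in three-space lies between two parallel planes that it
touches alternately four times (bottom, top, bottom, top). No width hypothesis is needed. -/
theorem wienholtz (γ : ℝ → EuclideanSpace ℝ (Fin 3)) (hγ : ContinuousOn γ (Icc 0 1)) :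
    ∃ u : EuclideanSpace ℝ (Fin 3), ‖u‖ = 1 ∧ ∃ t0 t1 t2 t3 : ℝ,
      0 ≤ t0 ∧ t0 ≤ t1 ∧ t1 ≤ t2 ∧ t2 ≤ t3 ∧ t3 ≤ 1 ∧
      (∀ t ∈ Icc (0 : ℝ) 1, ⟪γ t0, u⟫ ≤ ⟪γ t, u⟫ ∧ ⟪γ t, u⟫ ≤ ⟪γ t1, u⟫) ∧
      ⟪γ t2, u⟫ = ⟪γ t0, u⟫ ∧ ⟪γ t3, u⟫ = ⟪γ t1, u⟫ := by
  let δ : ℝ → EuclideanSpace ℝ (Fin 3) := fun t => γ (projIcc (0 : ℝ) 1 zero_le_one t)
  have hδ : Continuous δ :=
    hγ.comp_continuous (continuous_subtype_val.comp continuous_projIcc) fun t =>
      (projIcc (0 : ℝ) 1 zero_le_one t).2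
  have he : ∀ t ∈ Icc (0 : ℝ) 1, δ t = γ t := fun t ht => by
    simp only [δ, projIcc_of_mem zero_le_one ht]
  obtain ⟨u, hu, t0, t1, t2, t3, h01, h12, h23, m0, m1, m2, m3⟩ := wienholtz_aux hδ
  refine ⟨u, hu, t0, t1, t2, t3, m0.1.1, h01, h12, h23, m3.1.2, fun t ht => ⟨?_, ?_⟩, ?_, ?_⟩
  · have := m0.2 t ht
    rw [he t ht, he t0 m0.1] at this
    simp only [inner_neg_right] at this
    linarith
  · have := m1.2 t ht
    rwa [he t ht, he t1 m1.1] at this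
  · have e1 := m0.2 t2 m2.1
    have e2 := m2.2 t0 m0.1
    rw [he t2 m2.1, he t0 m0.1] at e1 e2
    simp only [inner_neg_right] at e1 e2
    linarith
  · have e1 := m1.2 t3 m3.1
    have e2 := m3.2 t1 m1.1
    rw [he t3 m3.1, he t1 m1.1] at e1 e2
    linarith

end Pool.Agent.Lib.MP_ee7495_gt.X
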