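import Mathlib
import Pool.Agent.Lib.MP_ee7495_gt.X.Wien

set_option autoImplicit false

open scoped RealInnerProductSpace Topology
open Set

namespace Pool.Agent.Lib.MP_ee7495_gt.X

/-- A normalised polygon `q 0, …, q N` of width at least one: it lies in the slab `0 ≤ z ≤ h`,
touches bottom, top, bottom, top at the indices `i0 ≤ i1 ≤ i2 ≤ i3`, starts on the `z`-axis and
ends in the half plane `y = 0`, `x ≥ 0`. -/
structure NormPoly (N : ℕ) (q : ℕ → EuclideanSpace ℝ (Fin 3)) (h : ℝ) (i0 i1 i2 i3 : ℕ) :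
    Prop where
  le01 : i0 ≤ i1
  le12 : i1 ≤ i2
  le23 : i2 ≤ i3
  le3 : i3 ≤ N
  slab : ∀ i ≤ N, 0 ≤ q i 2 ∧ q i 2 ≤ h
  z0 : q i0 2 = 0
  z1 : q i1 2 = h
  z2 : q i2 2 = 0
  z3 : q i3 2 = h
  x0 : q 0 0 = 0
  y0 : q 0 1 = 0
  yN : q N 1 = 0
  xN : 0 ≤ q N 0
  wide : ∀ u : EuclideanSpace ℝ (Fin 3), ‖u‖ = 1 → ∃ i ≤ N, ∃ j ≤ N, 1 ≤ ⟪q i - q j, u⟫

/-- A rotation or reflection taking `u` to the vertical and `d` into the half plane
`y = 0`, `x ≥ 0`. -/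
theorem exists_frame (u d : EuclideanSpace ℝ (Fin 3)) (hu : ‖u‖ = 1) :
    ∃ R : EuclideanSpace ℝ (Fin 3) ≃ₗᵢ[ℝ] EuclideanSpace ℝ (Fin 3),
      (∀ v, R v 2 = ⟪v, u⟫) ∧ R d 1 = 0 ∧ 0 ≤ R d 0 := by
  set e : EuclideanSpace ℝ (Fin 3) := EuclideanSpace.single 2 1 with he
  have hen : ‖e‖ = 1 := by simp [he]
  let R1 := Submodule.reflection (ℝ ∙ (u - e))ᗮ
  have h1 : R1 u = e := Submodule.reflection_sub (by rw [hu, hen])
  set d1 := R1 d with hd1
  let d2 : EuclideanSpace ℝ (Fin 3) := !₂[Real.sqrt (d1 0 ^ 2 + d1 1 ^ 2), 0, d1 2]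
  have hn : ‖d1‖ = ‖d2‖ := by
    rw [← sq_eq_sq₀ (norm_nonneg _) (norm_nonneg _), EuclideanSpace.real_norm_sq_eq,
      EuclideanSpace.real_norm_sq_eq]
    simp [d2, Fin.sum_univ_three, Real.sq_sqrt (add_nonneg (sq_nonneg _) (sq_nonneg _))]
  let R2 := Submodule.reflection (ℝ ∙ (d1 - d2))ᗮ
  have h2 : R2 d1 = d2 := Submodule.reflection_sub hn
  have h3 : R2 e = e := by
    apply Submodule.reflection_mem_subspace_eq_self
    rw [Submodule.mem_orthogonal_singleton_iff_inner_right]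
    simp [he, d2, EuclideanSpace.inner_single_right]
  refine ⟨R1.trans R2, fun v => ?_, ?_, ?_⟩
  · have e1 : ⟪(R1.trans R2) v, (R1.trans R2) u⟫ = ⟪v, u⟫ := (R1.trans R2).inner_map_map v u
    have e2 : (R1.trans R2) u = e := by
      rw [LinearIsometryEquiv.trans_apply, h1, h3]
    rw [e2] at e1
    rw [← e1]
    simp [he, EuclideanSpace.inner_single_right]
  · rw [LinearIsometryEquiv.trans_apply, ← hd1, h2]; simp [d2]
  · rw [LinearIsometryEquiv.trans_apply, ← hd1, h2]; simp [d2]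

/-- Clamp to the unit interval. -/
noncomputable def cl (x : ℝ) : ℝ := max 0 (min 1 x)

theorem cl_mono : Monotone cl := fun _ _ h => max_le_max le_rfl (min_le_min le_rfl h)

theorem cl_cont : Continuous cl := by unfold cl; fun_prop

theorem cl_nonneg (x : ℝ) : 0 ≤ cl x := le_max_left _ _

theorem cl_le (x : ℝ) : cl x ≤ 1 := max_le zero_le_one (min_le_left _ _)

theorem cl_of_le {x : ℝ} (h : x ≤ 0) : cl x = 0 := max_eq_left ((min_le_right _ _).trans h)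

theorem cl_of_ge {x : ℝ} (h : 1 ≤ x) : cl x = 1 := by
  unfold cl; rw [min_eq_left h, max_eq_right zero_le_one]

/-- A monotone reparametrisation of the unit interval through four given times. -/
theorem exists_repar {t0 t1 t2 t3 : ℝ} (h0 : 0 ≤ t0) (h01 : t0 ≤ t1) (h12 : t1 ≤ t2)
    (h23 : t2 ≤ t3) (h3 : t3 ≤ 1) : ∃ φ : ℝ → ℝ, Monotone φ ∧ Continuous φ ∧
      (∀ x, φ x ∈ Icc (0 : ℝ) 1) ∧ φ 0 = 0 ∧ φ 1 = t0 ∧ φ 2 = t1 ∧ φ 3 = t2 ∧ φ 4 = t3 ∧
      φ 5 = 1 := by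
  refine ⟨fun x => cl x * t0 + cl (x - 1) * (t1 - t0) + cl (x - 2) * (t2 - t1) +
    cl (x - 3) * (t3 - t2) + cl (x - 4) * (1 - t3), fun x y hxy => ?_, ?_, fun x => ⟨?_, ?_⟩,
    ?_, ?_, ?_, ?_, ?_, ?_⟩
  · have a0 := cl_mono hxy
    have a1 := cl_mono (sub_le_sub_right hxy 1)
    have a2 := cl_mono (sub_le_sub_right hxy 2)
    have a3 := cl_mono (sub_le_sub_right hxy 3)
    have a4 := cl_mono (sub_le_sub_right hxy 4)
    have b0 := mul_le_mul_of_nonneg_right a0 h0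
    have b1 := mul_le_mul_of_nonneg_right a1 (sub_nonneg.2 h01)
    have b2 := mul_le_mul_of_nonneg_right a2 (sub_nonneg.2 h12)
    have b3 := mul_le_mul_of_nonneg_right a3 (sub_nonneg.2 h23)
    have b4 := mul_le_mul_of_nonneg_right a4 (sub_nonneg.2 h3)
    simp only
    linarith
  · have := cl_cont
    fun_prop
  · have b0 := mul_nonneg (cl_nonneg x) h0
    have b1 := mul_nonneg (cl_nonneg (x - 1)) (sub_nonneg.2 h01)
    have b2 := mul_nonneg (cl_nonneg (x - 2)) (sub_nonneg.2 h12)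
    have b3 := mul_nonneg (cl_nonneg (x - 3)) (sub_nonneg.2 h23)
    have b4 := mul_nonneg (cl_nonneg (x - 4)) (sub_nonneg.2 h3)
    simp only
    linarith
  · have b0 := mul_le_mul_of_nonneg_right (cl_le x) h0
    have b1 := mul_le_mul_of_nonneg_right (cl_le (x - 1)) (sub_nonneg.2 h01)
    have b2 := mul_le_mul_of_nonneg_right (cl_le (x - 2)) (sub_nonneg.2 h12)
    have b3 := mul_le_mul_of_nonneg_right (cl_le (x - 3)) (sub_nonneg.2 h23)
    have b4 := mul_le_mul_of_nonneg_right (cl_le (x - 4)) (sub_nonneg.2 h3)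
    simp only
    linarith
  all_goals
    norm_num [cl]

/-- Fine polygons inscribed in a curve, through the four touching times. -/
theorem exists_poly (γ : ℝ → EuclideanSpace ℝ (Fin 3)) (hγ : ContinuousOn γ (Icc 0 1))
    {t0 t1 t2 t3 : ℝ} (h0 : 0 ≤ t0) (h01 : t0 ≤ t1) (h12 : t1 ≤ t2) (h23 : t2 ≤ t3) (h3 : t3 ≤ 1)
    {ε : ℝ} (hε : 0 < ε) : ∃ (M : ℕ) (s : ℕ → ℝ), Monotone s ∧ (∀ i, s i ∈ Icc (0 : ℝ) 1) ∧
      s M = t0 ∧ s (2 * M) = t1 ∧ s (3 * M) = t2 ∧ s (4 * M) = t3 ∧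
      ∀ t ∈ Icc (0 : ℝ) 1, ∃ i ≤ 5 * M, ‖γ (s i) - γ t‖ ≤ ε := by
  obtain ⟨φ, hm, hc, hI, p0, p1, p2, p3, p4, p5⟩ := exists_repar h0 h01 h12 h23 h3
  have hg : Continuous (γ ∘ φ) := hγ.comp_continuous hc hI
  have hu : UniformContinuousOn (γ ∘ φ) (Icc 0 5) :=
    isCompact_Icc.uniformContinuousOn_of_continuous hg.continuousOn
  obtain ⟨δ, hδ, hδ'⟩ := Metric.uniformContinuousOn_iff.1 hu ε hε
  obtain ⟨M, hM⟩ := exists_nat_one_div_lt hδ
  have hpos : (0 : ℝ) < (M : ℝ) + 1 := by positivity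
  refine ⟨M + 1, fun i => φ (i / ((M : ℝ) + 1)), fun i j hij => hm ?_, fun i => hI _, ?_, ?_, ?_,
    ?_, fun t ht => ?_⟩
  · exact div_le_div_of_nonneg_right (by exact_mod_cast hij) hpos.le
  · simp only; rw [← p1]; congr 1; push_cast; field_simp
  · simp only; rw [← p2]; congr 1; push_cast; field_simp
  · simp only; rw [← p3]; congr 1; push_cast; field_simp
  · simp only; rw [← p4]; congr 1; push_cast; field_simp
  · have hsub : Icc (φ 0) (φ 5) ⊆ φ '' Icc 0 5 :=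
      intermediate_value_Icc (by norm_num) hc.continuousOn
    rw [p0, p5] at hsub
    obtain ⟨x, hx, rfl⟩ := hsub ht
    have hx0 : 0 ≤ x * ((M : ℝ) + 1) := mul_nonneg hx.1 hpos.le
    have f1 : (⌊x * ((M : ℝ) + 1)⌋₊ : ℝ) ≤ x * ((M : ℝ) + 1) := Nat.floor_le hx0
    have f2 : x * ((M : ℝ) + 1) < (⌊x * ((M : ℝ) + 1)⌋₊ : ℝ) + 1 := Nat.lt_floor_add_one _
    have g1 : (⌊x * ((M : ℝ) + 1)⌋₊ : ℝ) / ((M : ℝ) + 1) ≤ x := by
      rw [div_le_iff₀ hpos]; exact f1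
    have g2 : x - (⌊x * ((M : ℝ) + 1)⌋₊ : ℝ) / ((M : ℝ) + 1) < 1 / ((M : ℝ) + 1) := by
      rw [sub_lt_iff_lt_add, ← add_div, lt_div_iff₀ hpos]; linarith
    refine ⟨⌊x * ((M : ℝ) + 1)⌋₊, ?_, ?_⟩
    · have : (⌊x * ((M : ℝ) + 1)⌋₊ : ℝ) ≤ ((5 * (M + 1) : ℕ) : ℝ) := by
        push_cast; nlinarith [hx.2]
      exact_mod_cast this
    · have := hδ' (⌊x * ((M : ℝ) + 1)⌋₊ / ((M : ℝ) + 1)) ⟨by positivity, g1.trans hx.2⟩ x hx (by
        rw [Real.dist_eq, abs_sub_comm, abs_of_nonneg (sub_nonneg.2 g1)]; linarith)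
      rw [dist_eq_norm] at this
      exact this.le

/-- Discrete reduction: a lower bound for the length of normalised polygons of width at least one
bounds the length of every curve in terms of its width. -/
theorem length_ge_of_poly {L0 : ℝ}
    (H : ∀ (N : ℕ) (q : ℕ → EuclideanSpace ℝ (Fin 3)) (h : ℝ) (i0 i1 i2 i3 : ℕ),
      NormPoly N q h i0 i1 i2 i3 → L0 ≤ ∑ i ∈ Finset.range N, ‖q (i + 1) - q i‖)
    (γ : ℝ → EuclideanSpace ℝ (Fin 3)) (hγ : ContinuousOn γ (Icc 0 1)) {L b : ℝ} (hL : 0 ≤ L)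
    (hv : eVariationOn γ (Icc 0 1) ≤ ENNReal.ofReal L) (hb : 0 < b)
    (hw : ∀ u : EuclideanSpace ℝ (Fin 3), ‖u‖ = 1 →
      ∃ s ∈ Icc (0 : ℝ) 1, ∃ t ∈ Icc (0 : ℝ) 1, b ≤ ⟪γ s - γ t, u⟫) : L0 * b ≤ L := by
  have key : ∀ ε, 0 < ε → ε < b → L0 * (b - ε) ≤ L := by
    intro ε hε hεb
    obtain ⟨u, hu, t0, t1, t2, t3, h0, h01, h12, h23, h3, hs, e2, e3⟩ := wienholtz γ hγ
    obtain ⟨M, s, hm, hI, s1, s2, s3, s4, hd⟩ :=
      exists_poly γ hγ h0 h01 h12 h23 h3 (half_pos hε)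
    obtain ⟨R, hR2, hR1, hR0⟩ := exists_frame u (γ (s (5 * M)) - γ (s 0)) hu
    have hc : 0 < b - ε := sub_pos.2 hεb
    set c := (b - ε)⁻¹ with hcdef
    have hc' : 0 < c := inv_pos.2 hc
    have hcc : c * (b - ε) = 1 := inv_mul_cancel₀ hc.ne'
    set e : EuclideanSpace ℝ (Fin 3) := EuclideanSpace.single 2 (c * ⟪γ (s 0) - γ t0, u⟫) with he
    let q : ℕ → EuclideanSpace ℝ (Fin 3) := fun i => c • R (γ (s i) - γ (s 0)) + e
    have hq2 : ∀ i, q i 2 = c * (⟪γ (s i), u⟫ - ⟪γ t0, u⟫) := by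
      intro i
      simp only [q, PiLp.add_apply, PiLp.smul_apply, hR2, he, inner_sub_left, smul_eq_mul]
      simp
      ring
    have hqd : ∀ i j, q i - q j = c • R (γ (s i) - γ (s j)) := by
      intro i j
      simp only [q, map_sub, smul_sub]
      abel
    have hP : NormPoly (5 * M) q (c * (⟪γ t1, u⟫ - ⟪γ t0, u⟫)) M (2 * M) (3 * M) (4 * M) := by
      refine ⟨by omega, by omega, by omega, by omega, fun i _ => ?_, ?_, ?_, ?_, ?_, ?_, ?_, ?_,
        ?_, fun v hv1 => ?_⟩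
      · rw [hq2]
        have := hs (s i) (hI i)
        exact ⟨mul_nonneg hc'.le (by linarith [this.1]),
          mul_le_mul_of_nonneg_left (by linarith [this.2]) hc'.le⟩
      · rw [hq2, s1]; ring
      · rw [hq2, s2]
      · rw [hq2, s3, e2]; ring
      · rw [hq2, s4, e3]
      · simp [q, he]
      · simp [q, he]
      · simp only [q, PiLp.add_apply, PiLp.smul_apply, hR1, he]; simp
      · simp only [q, PiLp.add_apply, PiLp.smul_apply, he, smul_eq_mul]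
        simpa using mul_nonneg hc'.le hR0
      · have hv2 : ‖R.symm v‖ = 1 := by rw [LinearIsometryEquiv.norm_map, hv1]
        obtain ⟨a, ha, a', ha', hle⟩ := hw (R.symm v) hv2
        obtain ⟨i, hi, hi'⟩ := hd a ha
        obtain ⟨j, hj, hj'⟩ := hd a' ha'
        refine ⟨i, hi, j, hj, ?_⟩
        rw [hqd, inner_smul_left]
        have e4 : ⟪R (γ (s i) - γ (s j)), v⟫ = ⟪γ (s i) - γ (s j), R.symm v⟫ := by
          rw [← R.inner_map_map (γ (s i) - γ (s j)) (R.symm v), R.apply_symm_apply]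
        have e5 : ⟪γ (s i) - γ (s j), R.symm v⟫ =
            ⟪γ a - γ a', R.symm v⟫ + ⟪γ (s i) - γ a, R.symm v⟫ - ⟪γ (s j) - γ a', R.symm v⟫ := by
          simp only [inner_sub_left]; ring
        have b1 := abs_real_inner_le_norm (γ (s i) - γ a) (R.symm v)
        have b2 := abs_real_inner_le_norm (γ (s j) - γ a') (R.symm v)
        rw [hv2, mul_one] at b1 b2
        have b3 := abs_le.1 (b1.trans hi')
        have b4 := abs_le.1 (b2.trans hj')
        have e6 : b - ε ≤ ⟪γ (s i) - γ (s j), R.symm v⟫ := by rw [e5]; linarith [b3.1, b4.2]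
        rw [e4]
        simp only [conj_trivial]
        calc (1 : ℝ) = c * (b - ε) := hcc.symm
          _ ≤ _ := mul_le_mul_of_nonneg_left e6 hc'.le
    have h5 := H _ _ _ _ _ _ _ hP
    have h6 : ∑ i ∈ Finset.range (5 * M), ‖q (i + 1) - q i‖ =
        c * ∑ i ∈ Finset.range (5 * M), ‖γ (s (i + 1)) - γ (s i)‖ := by
      rw [Finset.mul_sum]
      refine Finset.sum_congr rfl fun i _ => ?_
      rw [hqd, norm_smul, LinearIsometryEquiv.norm_map, Real.norm_eq_abs, abs_of_pos hc']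
    have h7 : ∑ i ∈ Finset.range (5 * M), ‖γ (s (i + 1)) - γ (s i)‖ ≤ L := by
      have := (eVariationOn.sum_le (f := γ) (n := 5 * M) hm hI).trans hv
      simp only [edist_dist, dist_eq_norm] at this
      rw [← ENNReal.ofReal_sum_of_nonneg (fun i _ => norm_nonneg _)] at this
      exact (ENNReal.ofReal_le_ofReal_iff hL).1 this
    rw [h6] at h5
    calc L0 * (b - ε) ≤ c * (∑ i ∈ Finset.range (5 * M), ‖γ (s (i + 1)) - γ (s i)‖) * (b - ε) :=
          mul_le_mul_of_nonneg_right h5 hc.le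
      _ = ∑ i ∈ Finset.range (5 * M), ‖γ (s (i + 1)) - γ (s i)‖ := by
          rw [mul_right_comm, hcc, one_mul]
      _ ≤ L := h7
  have hcont : Filter.Tendsto (fun ε : ℝ => L0 * (b - ε)) (𝓝[>] 0) (𝓝 (L0 * (b - 0))) :=
    ((continuous_const.mul (continuous_const.sub continuous_id)).tendsto 0).mono_left
      nhdsWithin_le_nhds
  rw [sub_zero] at hcont
  refine le_of_tendsto hcont ?_
  filter_upwards [Ioo_mem_nhdsGT hb] with ε hε using key ε hε.1 hε.2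

/-- The supremum of breadths of unit-length curves is at most `1 / L0`. -/
theorem beta_le_of_poly {L0 : ℝ} (hL0 : 0 < L0)
    (H : ∀ (N : ℕ) (q : ℕ → EuclideanSpace ℝ (Fin 3)) (h : ℝ) (i0 i1 i2 i3 : ℕ),
      NormPoly N q h i0 i1 i2 i3 → L0 ≤ ∑ i ∈ Finset.range N, ‖q (i + 1) - q i‖) :
    ∀ b ∈ {b : ℝ | ∃ γ : ℝ → EuclideanSpace ℝ (Fin 3),
      ContinuousOn γ (Icc 0 1) ∧ eVariationOn γ (Icc 0 1) = 1 ∧
      b = sInf {d : ℝ | ∃ u : EuclideanSpace ℝ (Fin 3), ‖u‖ = 1 ∧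
        d = sSup ((fun t => ⟪γ t, u⟫) '' Icc 0 1) - sInf ((fun t => ⟪γ t, u⟫) '' Icc 0 1)}},
      b ≤ 1 / L0 := by
  rintro b ⟨γ, hγ, hv, hb⟩
  rcases le_or_gt b 0 with h0 | h0
  · exact h0.trans (by positivity)
  have hI : (Icc (0 : ℝ) 1).Nonempty := ⟨0, by simp⟩
  have hcomp : ∀ u : EuclideanSpace ℝ (Fin 3), IsCompact ((fun t => ⟪γ t, u⟫) '' Icc 0 1) :=
    fun u => isCompact_Icc.image_of_continuousOn (hγ.inner continuousOn_const)
  have := length_ge_of_poly H γ hγ (L := 1) zero_le_one (by rw [hv]; simp) h0 (by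
    intro u hu
    obtain ⟨s, hs, hs'⟩ := (hcomp u).sSup_mem (hI.image _)
    obtain ⟨t, ht, ht'⟩ := (hcomp u).sInf_mem (hI.image _)
    refine ⟨s, hs, t, ht, ?_⟩
    rw [inner_sub_left, hb]
    simp only at hs' ht'
    rw [hs', ht']
    refine csInf_le ⟨0, ?_⟩ ⟨u, hu, rfl⟩
    rintro d ⟨v, -, rfl⟩
    have h1 := le_csSup (hcomp v).bddAbove (mem_image_of_mem _ hI.some_mem)
    have h2 := csInf_le (hcomp v).bddBelow (mem_image_of_mem _ hI.some_mem)
    linarith)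
  rw [le_div_iff₀ hL0]
  linarith

end Pool.Agent.Lib.MP_ee7495_gt.X
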