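import Mathlib
import Pool.Agent.Lib.MP_ee7495_gt.X.Fac0
import Pool.Agent.Lib.MP_ee7495_gt.X.Fac1
import Pool.Agent.Lib.MP_ee7495_gt.Y.Fac

set_option autoImplicit false
set_option maxRecDepth 100000

namespace Pool.Agent.Lib.MP_ee7495_gt.X

theorem facets_eq : Y.facets = facs0 ++ facs1 := rfl

/-- All facets used by the tree are valid. -/
theorem facets_valid : ∀ f ∈ Y.facets, f.Valid := by
  rw [facets_eq]
  exact List.forall_mem_append.2 ⟨facs0_valid, facs1_valid⟩

end Pool.Agent.Lib.MP_ee7495_gt.X
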