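import Mathlib
import Pool.Agent.Lib.MP_ee7495_gt.X.Disc
import Pool.Agent.Lib.MP_ee7495_gt.X.Zono

set_option autoImplicit false

open scoped RealInnerProductSpace
open Finset

namespace Pool.Agent.Lib.MP_ee7495_gt.X

theorem path_le (g : ℕ → ℝ) {i j : ℕ} (h : i ≤ j) :
    |g j - g i| + ∑ k ∈ range i, |g (k + 1) - g k| ≤ ∑ k ∈ range j, |g (k + 1) - g k| := by
  induction j, h using Nat.le_induction with
  | base => simp
  | succ n _ ih =>
    rw [sum_range_succ]
    have := abs_sub_le (g (n + 1)) (g n) (g i)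
    linarith

theorem var_ge_end (g : ℕ → ℝ) (N : ℕ) : g N - g 0 ≤ ∑ k ∈ range N, |g (k + 1) - g k| := by
  have := path_le g (Nat.zero_le N)
  have := le_abs_self (g N - g 0)
  simp only [range_zero, sum_empty] at *
  linarith

theorem var_ge_width (g : ℕ → ℝ) {N i j : ℕ} (hi : i ≤ N) (hj : j ≤ N) :
    2 * (g i - g j) - |g N - g 0| ≤ ∑ k ∈ range N, |g (k + 1) - g k| := by
  have e1 := le_abs_self (g N - g 0)
  have e2 := neg_abs_le (g N - g 0)
  rcases le_total i j with h | h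
  · have a1 := path_le g (Nat.zero_le i)
    have a2 := path_le g h
    have a3 := path_le g hj
    have b1 := le_abs_self (g i - g 0)
    have b2 := neg_abs_le (g j - g i)
    have b3 := le_abs_self (g N - g j)
    simp only [range_zero, sum_empty] at a1
    linarith
  · have a1 := path_le g (Nat.zero_le j)
    have a2 := path_le g h
    have a3 := path_le g hi
    have b1 := neg_abs_le (g j - g 0)
    have b2 := le_abs_self (g i - g j)
    have b3 := neg_abs_le (g N - g i)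
    simp only [range_zero, sum_empty] at a1
    linarith

variable {N : ℕ} {q : ℕ → EuclideanSpace ℝ (Fin 3)} {h : ℝ} {i0 i1 i2 i3 : ℕ}

theorem NormPoly.one_le (P : NormPoly N q h i0 i1 i2 i3) : 1 ≤ h := by
  obtain ⟨i, hi, j, hj, hle⟩ := P.wide (EuclideanSpace.single 2 1) (by simp)
  have e : ⟪q i - q j, EuclideanSpace.single 2 (1 : ℝ)⟫ = q i 2 - q j 2 := by
    simp [EuclideanSpace.inner_single_right]
  rw [e] at hle
  linarith [(P.slab i hi).2, (P.slab j hj).1]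

theorem NormPoly.var_z (P : NormPoly N q h i0 i1 i2 i3) :
    4 * h - (q N 2 - q 0 2) ≤ ∑ k ∈ range N, |q (k + 1) 2 - q k 2| := by
  have a0 := path_le (fun k => q k 2) (Nat.zero_le i0)
  have a1 := path_le (fun k => q k 2) P.le01
  have a2 := path_le (fun k => q k 2) P.le12
  have a3 := path_le (fun k => q k 2) P.le23
  have a4 := path_le (fun k => q k 2) P.le3
  have b0 := neg_abs_le (q i0 2 - q 0 2)
  have b1 := le_abs_self (q i1 2 - q i0 2)
  have b2 := neg_abs_le (q i2 2 - q i1 2)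
  have b3 := le_abs_self (q i3 2 - q i2 2)
  have b4 := neg_abs_le (q N 2 - q i3 2)
  simp only [range_zero, sum_empty] at a0
  have := P.z0; have := P.z1; have := P.z2; have := P.z3
  linarith

/-- Width in the direction of an arbitrary vector, in coordinates. -/
theorem NormPoly.wide' (P : NormPoly N q h i0 i1 i2 i3) (a b c n : ℝ)
    (hn : n ^ 2 ≤ a ^ 2 + b ^ 2 + c ^ 2) : ∃ i ≤ N, ∃ j ≤ N,
      n ≤ (a * q i 0 + b * q i 1 + c * q i 2) - (a * q j 0 + b * q j 1 + c * q j 2) := by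
  let v : EuclideanSpace ℝ (Fin 3) := !₂[a, b, c]
  have hv : ‖v‖ ^ 2 = a ^ 2 + b ^ 2 + c ^ 2 := by
    rw [EuclideanSpace.real_norm_sq_eq]; simp [v, Fin.sum_univ_three]
  have hnv : n ≤ ‖v‖ := le_of_sq_le_sq (by rw [hv]; exact hn) (norm_nonneg _)
  rcases (norm_nonneg v).eq_or_lt with h0 | h0
  · exact ⟨0, Nat.zero_le _, 0, Nat.zero_le _, by linarith⟩
  obtain ⟨i, hi, j, hj, hle⟩ := P.wide (‖v‖⁻¹ • v) (by
    rw [norm_smul, norm_inv, norm_norm, inv_mul_cancel₀ h0.ne'])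
  refine ⟨i, hi, j, hj, hnv.trans ?_⟩
  rw [real_inner_smul_right] at hle
  have e : ⟪q i - q j, v⟫ =
      (a * q i 0 + b * q i 1 + c * q i 2) - (a * q j 0 + b * q j 1 + c * q j 2) := by
    simp [v, PiLp.inner_apply, Fin.sum_univ_three]
    ring
  rw [e] at hle
  have := mul_le_mul_of_nonneg_left hle h0.le
  rwa [mul_one, ← mul_assoc, mul_inv_cancel₀ h0.ne', one_mul] at this

theorem NormPoly.var_dir (P : NormPoly N q h i0 i1 i2 i3) (a b c n : ℝ)
    (hn : n ^ 2 ≤ a ^ 2 + b ^ 2 + c ^ 2) :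
    2 * n - |a * q N 0 + c * (q N 2 - q 0 2)| ≤ ∑ k ∈ range N,
      |a * (q (k + 1) 0 - q k 0) + b * (q (k + 1) 1 - q k 1) + c * (q (k + 1) 2 - q k 2)| := by
  obtain ⟨i, hi, j, hj, hle⟩ := P.wide' a b c n hn
  have := var_ge_width (fun k => a * q k 0 + b * q k 1 + c * q k 2) hi hj
  simp only [P.x0, P.y0, P.yN] at this
  have e1 : a * q N 0 + b * 0 + c * q N 2 - (a * 0 + b * 0 + c * q 0 2) =
      a * q N 0 + c * (q N 2 - q 0 2) := by ring
  rw [e1] at this
  refine le_trans (by linarith) (this.trans (le_of_eq (sum_congr rfl fun k _ => ?_)))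
  congr 1; ring

/-- Lists of generators: shifted `x`, `y`, `z` and a lower bound of the norm. -/
inductive Gens : Type
  | nil : Gens
  | cons (x y z n : ℕ) (t : Gens) : Gens

/-- Generators and mirror images on the octant `x ≥ 0`. -/
noncomputable def toTL1 (K : ℕ) (L : Gens) : TL :=
  Gens.rec TL.nil (fun x y z _ _ ih => TL.cons x (Nat.add K y) (Nat.add K z)
    (TL.cons x (Nat.sub K y) (Nat.add K z) ih)) L

/-- Generators and mirror images on the octant `x ≤ 0`. -/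
noncomputable def toTL2 (K : ℕ) (L : Gens) : TL :=
  Gens.rec TL.nil (fun x y z _ _ ih => TL.cons (Nat.sub (Nat.mul 2 K) x) (Nat.add K y) (Nat.add K z)
    (TL.cons (Nat.sub (Nat.mul 2 K) x) (Nat.sub K y) (Nat.add K z) ih)) L

/-- Range and norm checks. -/
noncomputable def okG (K : ℕ) (L : Gens) : Bool :=
  Gens.rec true (fun x y z n _ ih => Nat.ble x (Nat.mul 2 K) && (Nat.ble y K &&
    (Nat.ble (Nat.mul n n) (Nat.add (Nat.add (Nat.mul (ad K x) (ad K x)) (Nat.mul y y))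
      (Nat.mul z z)) && ih))) L

/-- Sum of the norm bounds. -/
noncomputable def sumN (L : Gens) : ℕ := Gens.rec 0 (fun _ _ _ n _ ih => Nat.add n ih) L

/-- Sum of absolute inner products with a planar direction. -/
noncomputable def sumD (K a c : ℕ) (L : Gens) : ℕ :=
  Gens.rec 0 (fun x _ z _ _ ih =>
    Nat.add (ad (Nat.mul K a) (Nat.add (Nat.mul x a) (Nat.mul z c))) ih) L

/-- The support function of the symmetric zonotope. -/
noncomputable def FG (K : ℕ) (α β γ : ℝ) : Gens → ℝ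
  | Gens.nil => 0
  | Gens.cons x y z _ t => |((x : ℝ) - K) * α + y * β + z * γ| +
      |((x : ℝ) - K) * α + (-y) * β + z * γ| + FG K α β γ t

theorem okG_cons {K x y z n : ℕ} {t : Gens} (h : okG K (Gens.cons x y z n t) = true) :
    x ≤ 2 * K ∧ y ≤ K ∧ (n : ℝ) ^ 2 ≤ ((x : ℝ) - K) ^ 2 + y ^ 2 + z ^ 2 ∧ okG K t = true := by
  have e : okG K (Gens.cons x y z n t) = (Nat.ble x (Nat.mul 2 K) && (Nat.ble y K &&
    (Nat.ble (Nat.mul n n) (Nat.add (Nat.add (Nat.mul (ad K x) (ad K x)) (Nat.mul y y))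
      (Nat.mul z z)) && okG K t))) := rfl
  rw [e] at h
  simp only [Bool.and_eq_true, Nat.ble_eq, Nat.mul_eq, Nat.add_eq] at h
  refine ⟨h.1, h.2.1, ?_, h.2.2.2⟩
  have h3 : ((n * n : ℕ) : ℝ) ≤ ((ad K x * ad K x + y * y + z * z : ℕ) : ℝ) := by
    exact_mod_cast h.2.2.1
  push_cast at h3
  rw [ad_cast, abs_mul_abs_self] at h3
  nlinarith

theorem sumAbs_toTL1 {K : ℕ} (α β γ : ℝ) (L : Gens) (h : okG K L = true) :
    sumAbs K α β γ (toTL1 K L) = FG K α β γ L := by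
  induction L with
  | nil => rfl
  | cons x y z n t ih =>
    obtain ⟨-, h2, -, h4⟩ := okG_cons h
    have e : toTL1 K (Gens.cons x y z n t) = TL.cons x (Nat.add K y) (Nat.add K z)
      (TL.cons x (Nat.sub K y) (Nat.add K z) (toTL1 K t)) := rfl
    rw [e]
    simp only [sumAbs, FG, ih h4]
    simp only [Nat.add_eq, Nat.sub_eq, Nat.cast_add, Nat.cast_sub h2, add_sub_cancel_left,
      sub_sub_cancel_left, add_assoc]

theorem sumAbs_toTL2 {K : ℕ} (α β γ : ℝ) (L : Gens) (h : okG K L = true) :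
    sumAbs K α β γ (toTL2 K L) = FG K (-α) β γ L := by
  induction L with
  | nil => rfl
  | cons x y z n t ih =>
    obtain ⟨h1, h2, -, h4⟩ := okG_cons h
    have e : toTL2 K (Gens.cons x y z n t) =
      TL.cons (Nat.sub (Nat.mul 2 K) x) (Nat.add K y) (Nat.add K z)
      (TL.cons (Nat.sub (Nat.mul 2 K) x) (Nat.sub K y) (Nat.add K z) (toTL2 K t)) := rfl
    rw [e]
    simp only [sumAbs, FG, ih h4]
    have e2 : (((2 * K - x : ℕ) : ℝ) - K) * α = ((x : ℝ) - K) * (-α) := by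
      rw [Nat.cast_sub h1]; push_cast; ring
    simp only [Nat.add_eq, Nat.sub_eq, Nat.mul_eq, Nat.cast_add, Nat.cast_sub h2,
      add_sub_cancel_left, sub_sub_cancel_left, add_assoc, e2]

theorem FG_mirror (K : ℕ) (α β γ : ℝ) (L : Gens) : FG K α (-β) γ L = FG K α β γ L := by
  induction L with
  | nil => rfl
  | cons x y z n t ih =>
    simp only [FG, ih, mul_neg, neg_mul, neg_neg]
    ring

theorem FG_neg (K : ℕ) (α β γ : ℝ) (L : Gens) : FG K (-α) β (-γ) L = FG K α β γ L := by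
  induction L with
  | nil => rfl
  | cons x y z n t ih =>
    simp only [FG, ih]
    rw [← abs_neg (((x : ℝ) - K) * -α + y * β + z * -γ),
      ← abs_neg (((x : ℝ) - K) * -α + -y * β + z * -γ), add_comm |_|]
    congr 3 <;> ring

/-- The two octant checks. -/
noncomputable def ballOK (R K m wx wz : ℕ) (L : Gens) : Bool :=
  okG K L && (Nat.ble wx K &&
    (node (Nat.mul R R) 40 K 1 1 1 0 0 0 K K (Nat.add K m)
        (TL.cons (Nat.add K wx) K (Nat.add K wz) (toTL1 K L)) &&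
      node (Nat.mul R R) 40 K 1 1 1 0 0 0 K K (Nat.add K m)
        (TL.cons (Nat.sub K wx) K (Nat.add K wz) (toTL2 K L))))

theorem ball_sound {R K m wx wz : ℕ} {L : Gens} (h : ballOK R K m wx wz L = true) (α β γ : ℝ) :
    m * |γ| + |wx * α + wz * γ| + FG K α β γ L ≤ R * Real.sqrt (α ^ 2 + β ^ 2 + γ ^ 2) := by
  simp only [ballOK, Bool.and_eq_true, Nat.ble_eq] at h
  obtain ⟨h0, hw, h1, h2⟩ := h
  have key : ∀ α β γ : ℝ, 0 ≤ β → 0 ≤ γ →
      m * |γ| + |wx * α + wz * γ| + FG K α β γ L ≤ R * Real.sqrt (α ^ 2 + β ^ 2 + γ ^ 2) := by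
    intro α β γ hβ hγ
    rw [abs_of_nonneg hγ]
    rcases le_total 0 α with hα | hα
    · have := oct_sound h1 hα hβ hγ
      simp only [sumAbs, sumAbs_toTL1 _ _ _ _ h0] at this
      simp only [Nat.add_eq, Nat.cast_add, add_sub_cancel_left, sub_self, zero_mul, add_zero,
        zero_add] at this
      linarith
    · have := oct_sound h2 (neg_nonneg.2 hα) hβ hγ
      simp only [sumAbs, sumAbs_toTL2 _ _ _ _ h0] at this
      simp only [Nat.add_eq, Nat.sub_eq, Nat.cast_add, Nat.cast_sub hw, add_sub_cancel_left,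
        sub_self, zero_mul, add_zero, zero_add, sub_sub_cancel_left, neg_neg, mul_neg, neg_mul,
        even_two, Even.neg_pow] at this
      linarith
  have key2 : ∀ α β γ : ℝ, 0 ≤ γ →
      m * |γ| + |wx * α + wz * γ| + FG K α β γ L ≤ R * Real.sqrt (α ^ 2 + β ^ 2 + γ ^ 2) := by
    intro α β γ hγ
    rcases le_total 0 β with hβ | hβ
    · exact key α β γ hβ hγ
    · have := key α (-β) γ (neg_nonneg.2 hβ) hγ
      rwa [FG_mirror, neg_sq] at this
  rcases le_total 0 γ with hγ | hγ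
  · exact key2 α β γ hγ
  · have := key2 (-α) β (-γ) (neg_nonneg.2 hγ)
    rw [FG_neg, neg_sq, neg_sq, abs_neg] at this
    have e : |wx * -α + wz * -γ| = |wx * α + wz * γ| := by
      rw [← abs_neg]; congr 1; ring
    rwa [e] at this

theorem NormPoly.sum_FG (P : NormPoly N q h i0 i1 i2 i3) {K a1 c1 a2 c2 : ℕ} {s t : ℝ}
    (hs : 0 ≤ s) (ht : 0 ≤ t) (hx : q N 0 = s * a1 + t * a2)
    (hz : q N 2 - q 0 2 = s * c1 + t * c2) (L : Gens) (hL : okG K L = true) :
    4 * (sumN L : ℝ) - 2 * (s * sumD K a1 c1 L + t * sumD K a2 c2 L) ≤ ∑ k ∈ range N,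
      FG K (q (k + 1) 0 - q k 0) (q (k + 1) 1 - q k 1) (q (k + 1) 2 - q k 2) L := by
  induction L with
  | nil =>
    have e1 : sumN Gens.nil = 0 := rfl
    have e2 : ∀ a c, sumD K a c Gens.nil = 0 := fun _ _ => rfl
    simp [FG, e1, e2]
  | cons x y z n t' ih =>
    obtain ⟨-, -, h3, h4⟩ := okG_cons hL
    have e1 : sumN (Gens.cons x y z n t') = Nat.add n (sumN t') := rfl
    have e2 : ∀ a c, sumD K a c (Gens.cons x y z n t') =
      Nat.add (ad (Nat.mul K a) (Nat.add (Nat.mul x a) (Nat.mul z c))) (sumD K a c t') :=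
      fun _ _ => rfl
    have v1 := P.var_dir ((x : ℝ) - K) y z n h3
    have v2 := P.var_dir ((x : ℝ) - K) (-y) z n (by rw [neg_sq]; exact h3)
    have b : |((x : ℝ) - K) * q N 0 + z * (q N 2 - q 0 2)| ≤
        s * |(x : ℝ) * a1 + z * c1 - K * a1| + t * |(x : ℝ) * a2 + z * c2 - K * a2| := by
      have e : ((x : ℝ) - K) * q N 0 + z * (q N 2 - q 0 2) =
          s * ((x : ℝ) * a1 + z * c1 - K * a1) + t * ((x : ℝ) * a2 + z * c2 - K * a2) := by
        rw [hx, hz]; ring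
      rw [e]
      refine (abs_add_le _ _).trans ?_
      rw [abs_mul, abs_mul, abs_of_nonneg hs, abs_of_nonneg ht]
    have ih' := ih h4
    rw [e1, e2, e2]
    simp only [FG, sum_add_distrib]
    simp only [Nat.add_eq, Nat.mul_eq, Nat.cast_add, ad_cast, Nat.cast_mul]
    linarith

/-- A full sector certificate. -/
noncomputable def sectOK (a1 c1 a2 c2 m b wx wz R S K : ℕ) (L : Gens) : Bool :=
  Nat.ble S (Nat.mul 4 (sumN L)) &&
    (Nat.ble (Nat.add (Nat.mul 2 (sumD K a1 c1 L)) (Nat.mul m c1))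
      (Nat.add (Nat.mul b c1) (Nat.add (Nat.mul wx a1) (Nat.mul wz c1))) &&
    (Nat.ble (Nat.add (Nat.mul 2 (sumD K a2 c2 L)) (Nat.mul m c2))
      (Nat.add (Nat.mul b c2) (Nat.add (Nat.mul wx a2) (Nat.mul wz c2))) &&
    ballOK R K m wx wz L))

theorem NormPoly.sect (P : NormPoly N q h i0 i1 i2 i3) {a1 c1 a2 c2 m b wx wz R S K : ℕ}
    {L : Gens} (hc : sectOK a1 c1 a2 c2 m b wx wz R S K L = true) {s t : ℝ}
    (hs : 0 ≤ s) (ht : 0 ≤ t) (hx : q N 0 = s * a1 + t * a2)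
    (hz : q N 2 - q 0 2 = s * c1 + t * c2) :
    S + 4 * m * h - b * (q N 2 - q 0 2) ≤ R * ∑ k ∈ range N, ‖q (k + 1) - q k‖ := by
  simp only [sectOK, Bool.and_eq_true, Nat.ble_eq, Nat.mul_eq, Nat.add_eq] at hc
  obtain ⟨g0, g1, g2, g3⟩ := hc
  have hL : okG K L = true := by
    simp only [ballOK, Bool.and_eq_true] at g3
    exact g3.1
  have k0 : (S : ℝ) ≤ 4 * sumN L := by exact_mod_cast g0
  have k1 : 2 * (sumD K a1 c1 L : ℝ) + m * c1 ≤ b * c1 + (wx * a1 + wz * c1) := by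
    exact_mod_cast g1
  have k2 : 2 * (sumD K a2 c2 L : ℝ) + m * c2 ≤ b * c2 + (wx * a2 + wz * c2) := by
    exact_mod_cast g2
  have v1 := P.sum_FG hs ht hx hz L hL
  have v2 := mul_le_mul_of_nonneg_left P.var_z (Nat.cast_nonneg (α := ℝ) m)
  have v3 := var_ge_end (fun k => wx * q k 0 + wz * q k 2) N
  have v4 : ∑ k ∈ range N, (m * |q (k + 1) 2 - q k 2| +
      |(wx * q (k + 1) 0 + wz * q (k + 1) 2) - (wx * q k 0 + wz * q k 2)| +
      FG K (q (k + 1) 0 - q k 0) (q (k + 1) 1 - q k 1) (q (k + 1) 2 - q k 2) L) ≤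
      ∑ k ∈ range N, R * ‖q (k + 1) - q k‖ := by
    refine sum_le_sum fun k _ => ?_
    have := ball_sound g3 (q (k + 1) 0 - q k 0) (q (k + 1) 1 - q k 1) (q (k + 1) 2 - q k 2)
    have e : ‖q (k + 1) - q k‖ = Real.sqrt ((q (k + 1) 0 - q k 0) ^ 2 +
        (q (k + 1) 1 - q k 1) ^ 2 + (q (k + 1) 2 - q k 2) ^ 2) := by
      rw [EuclideanSpace.norm_eq]; simp [Fin.sum_univ_three]
    have e2 : (wx * q (k + 1) 0 + wz * q (k + 1) 2) - (wx * q k 0 + wz * q k 2) =
        wx * (q (k + 1) 0 - q k 0) + wz * (q (k + 1) 2 - q k 2) := by ring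
    rw [e, e2]
    exact this
  rw [sum_add_distrib, sum_add_distrib, ← mul_sum, ← mul_sum] at v4
  simp only [P.x0] at v3
  have m1 := mul_le_mul_of_nonneg_left k1 hs
  have m2 := mul_le_mul_of_nonneg_left k2 ht
  have e3 : wx * q N 0 + wz * q N 2 - (wx * 0 + wz * q 0 2) =
      wx * (s * a1 + t * a2) + wz * (s * c1 + t * c2) := by rw [← hx, ← hz]; ring
  rw [e3] at v3
  rw [hz] at v2 ⊢
  linarith

/-- A point of a planar sector is a nonnegative combination of the two boundary directions. -/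
theorem cone_coords {a1 c1 a2 c2 x z : ℝ} (hdet : 0 < a2 * c1 - a1 * c2)
    (h1 : 0 ≤ x * c1 - a1 * z) (h2 : 0 ≤ a2 * z - x * c2) :
    ∃ s t : ℝ, 0 ≤ s ∧ 0 ≤ t ∧ x = s * a1 + t * a2 ∧ z = s * c1 + t * c2 :=
  ⟨(a2 * z - x * c2) / (a2 * c1 - a1 * c2), (x * c1 - a1 * z) / (a2 * c1 - a1 * c2),
    div_nonneg h2 hdet.le, div_nonneg h1 hdet.le,
    by rw [div_mul_eq_mul_div, div_mul_eq_mul_div, ← add_div, eq_div_iff hdet.ne']; ring,
    by rw [div_mul_eq_mul_div, div_mul_eq_mul_div, ← add_div, eq_div_iff hdet.ne']; ring⟩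

/-- The length bound from a sector certificate. -/
theorem NormPoly.sect_bound (P : NormPoly N q h i0 i1 i2 i3)
    {a1 c1 a2 c2 m b wx wz R S K : ℕ} {L : Gens} {τ : ℝ}
    (hc : sectOK a1 c1 a2 c2 m b wx wz R S K L = true) (hR : 0 < R) (hb : b ≤ 4 * m)
    (hτ : τ * R ≤ S + 4 * m - b) (hdet : a1 * c2 < a2 * c1)
    (h1 : 0 ≤ q N 0 * c1 - a1 * (q N 2 - q 0 2)) (h2 : 0 ≤ a2 * (q N 2 - q 0 2) - q N 0 * c2) :
    τ ≤ ∑ k ∈ range N, ‖q (k + 1) - q k‖ := by
  have hdet' : (0 : ℝ) < a2 * c1 - a1 * c2 := sub_pos.2 (by exact_mod_cast hdet)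
  obtain ⟨s, t, hs, ht, hx, hz⟩ := cone_coords hdet' h1 h2
  have := P.sect hc hs ht hx hz
  have hb' : (b : ℝ) ≤ 4 * m := by exact_mod_cast hb
  have hR' : (0 : ℝ) < R := by exact_mod_cast hR
  have h1' := P.one_le
  have hz' : q N 2 - q 0 2 ≤ h := by
    linarith [(P.slab N le_rfl).2, (P.slab 0 (Nat.zero_le _)).1]
  have m1 := mul_le_mul_of_nonneg_left hz' (Nat.cast_nonneg (α := ℝ) b)
  have m2 := mul_le_mul_of_nonneg_left h1' (sub_nonneg.2 hb')
  refine le_of_mul_le_mul_right ?_ hR'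
  nlinarith

theorem NormPoly.low_bound (P : NormPoly N q h i0 i1 i2 i3) (hz : q N 2 - q 0 2 ≤ 0) :
    4 ≤ ∑ k ∈ range N, ‖q (k + 1) - q k‖ := by
  have h1 := P.var_z
  have h2 := P.one_le
  have h3 : ∑ k ∈ range N, |q (k + 1) 2 - q k 2| ≤ ∑ k ∈ range N, ‖q (k + 1) - q k‖ :=
    sum_le_sum fun k _ => by
      have := PiLp.norm_apply_le (q (k + 1) - q k) 2
      simpa using this
  linarith

end Pool.Agent.Lib.MP_ee7495_gt.X
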